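import Pool.Agent.MWZ.Stmts
import Pool.Agent.Helper83_MVO.Fin
import Pool.Agent.Helper83_MVO.Rows

/-!
# Assembly of the final theorems (MP_23468a_al)
-/

namespace Pool.Agent.MWZ.H28

open Pool.Agent.Helper14_MV Pool.Agent.Helper2_MV Pool.Agent.MVO Pool.Agent.MWZ

theorem opr : Opr := by
  intro β
  refine ⟨fun l l' => Iff.rfl, op_modF, ?_⟩
  apply FIC.ext'
  intro a b
  show β.r a.reverse.reverse b.reverse.reverse ↔ β.r a b
  rw [FreeMonoid.reverse_reverse, FreeMonoid.reverse_reverse]

theorem rev_eq (β : FIC) : RR (FIC.op β) = Rev (RR β) := rfl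

theorem vs_eq (V : Variety) : VS V = RR (th V) := rfl

theorem modF_op {β : FIC} (h : ModF (FIC.op β)) : ModF β := by
  have := (opr (FIC.op β)).2.1 h
  rwa [(opr β).2.2] at this

theorem iso3_th {V : Variety} (h : Xyx V) : Iso3 (th V) := by
  intro l hl
  exact congrArg FreeMonoid.toList (h (FreeMonoid.ofList l) hl)

theorem iso3_op {β : FIC} (h : Iso3 β) : Iso3 (FIC.op β) := by
  intro l hl
  have h1 : RR β [0, 1, 0] l.reverse := hl
  have h2 := h _ h1
  have h3 := congrArg List.reverse h2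
  simpa using h3

theorem per_op {n : ℕ} {β : FIC} (h : Per n (RR β)) : Per n (RR (FIC.op β)) := by
  show RR β (X 2).reverse (X (n + 2)).reverse
  rw [List.reverse_replicate, List.reverse_replicate]
  exact h

theorem ofList_X (k : ℕ) : FreeMonoid.ofList (X k) = lx ^ k := by
  induction k with
  | zero => rfl
  | succ k ih =>
    rw [X, List.replicate_succ', FreeMonoid.ofList_append, show List.replicate k 0 = X k from rfl, ih,
      pow_succ]
    rfl

theorem not_sqr {V : Variety} {n : ℕ} (hn : 1 ≤ n) (h : Per n (VS V)) : ¬ Sqr V := by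
  intro hs
  have h1 : V.Sat (lx ^ 2) (lx ^ (n + 2)) := by
    have h2 : V.Sat (FreeMonoid.ofList (X 2)) (FreeMonoid.ofList (X (n + 2))) := h
    rwa [ofList_X, ofList_X] at h2
  have h3 := lx_pow_inj (hs _ h1)
  omega

/-- if `x²` is not an isoterm and `xyx` is one then `x² ≈ x^(n+2)` -/
theorem per_of {V : Variety} (h : Xyx V) (hs : ¬ Sqr V) : ∃ n, 1 ≤ n ∧ Per n (VS V) := by
  unfold Sqr at hs
  push Not at hs
  obtain ⟨w, hw, hne⟩ := hs
  have hi := iso3_th h
  have h0 : RR (th V) [0, 0] w.toList := hw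
  have hc : ∀ c ∈ w.toList, c = 0 := by
    intro c hc
    by_contra hc0
    exact RR.content hi h0 (c := c) (by simp [hc0]) hc
  have h1 : w.toList = List.replicate w.toList.length 0 :=
    List.eq_replicate_iff.2 ⟨rfl, hc⟩
  generalize w.toList.length = m at h1
  rw [h1] at h0
  have hm : m ≠ 2 := by
    rintro rfl
    apply hne
    have h2 := congrArg FreeMonoid.ofList h1
    rw [FreeMonoid.ofList_toList] at h2
    rw [h2]
    exact ofList_X 2
  have hm0 : m ≠ 0 := by
    rintro rfl
    have h2 := iso_nil hi (RR.symm h0)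
    simp at h2
  have hm1 : m ≠ 1 := by
    rintro rfl
    have h2 := hi _ ((RR.symm h0).append (RR.refl [1, 0]))
    simp at h2
  refine ⟨m - 2, by omega, ?_⟩
  show RR (th V) (X 2) (X (m - 2 + 2))
  rw [show m - 2 + 2 = m by omega]
  exact h0

/-- the theorem for `S1`, `S2` from the two block theorems -/
theorem thmS2 (hN : NecA) (hS : SufA) : ThmS2 := by
  intro V n hn hp hx h1 h2
  rw [modular_iff]
  exact ⟨fun hm => hN n (th V) hn hp (iso3_th hx) h1 h2 hm, fun h => hS n (th V) hn hp h⟩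

/-- the theorem for one period -/
theorem thmIso1 {n : ℕ} (hn : 1 ≤ n) (hN : NecA) (hS : SufA) (hNH : NecH1 n) (hSH : SufH1 n) :
    ThmIso1 n := by
  intro V hp hx
  have hi := iso3_th hx
  rw [modular_iff]
  constructor
  · intro hm'
    by_cases h12 : S1 (VS V) ∧ S2 (VS V)
    · exact Or.inl (hN n (th V) hn hp hi h12.1 h12.2 hm')
    · by_cases h12' : S1 (RR (FIC.op (th V))) ∧ S2 (RR (FIC.op (th V)))
      · exact Or.inr (Or.inl (hN n (FIC.op (th V)) hn (per_op hp) (iso3_op hi) h12'.1 h12'.2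
          (op_modF hm')))
      · exact Or.inr (Or.inr (hNH (th V) hp hi hm' h12 h12'))
  · rintro (h | h | h | h)
    · exact hS n (th V) hn hp h
    · exact modF_op (hS n (FIC.op (th V)) hn (per_op hp) h)
    · exact hSH (th V) hp h
    · exact modF_op (hSH (FIC.op (th V)) (per_op hp) h)

/-- the theorem for all varieties for which `xyx` is an isoterm from the block theorems -/
theorem thmIso (hN : NecA) (hS : SufA) (hNH : NecH) (hSH : SufH) : ThmIso := by
  intro V hx
  have hx' : ¬ ∃ w, w ≠ lx * ly * lx ∧ V.Sat (lx * ly * lx) w := by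
    rintro ⟨w, hw, h⟩
    exact hw (hx w h)
  constructor
  · intro hm
    by_cases hs : Sqr V
    · left
      have h1 := (H83.final H83.rows V (Or.inl hs)).1 hm
      exact ⟨h1.1, h1.2.resolve_left hx'⟩
    · right
      obtain ⟨n, hn, hp⟩ := per_of hx hs
      exact ⟨n, hn, hp, (thmIso1 hn hN hS (fun β => hNH n β hn) (fun β => hSH n β hn) V hp hx).1 hm⟩
  · rintro (⟨hc, hg⟩ | ⟨n, hn, hp, h⟩)
    · exact (H83.final H83.rows V (Or.inr hc)).2 ⟨hc, Or.inr hg⟩
    · exact (thmIso1 hn hN hS (fun β => hNH n β hn) (fun β => hSH n β hn) V hp hx).2 h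

end Pool.Agent.MWZ.H28
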