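import Pool.Agent.MWZ.Stmts
import Pool.Agent.MWC.StmtsB
import Pool.Agent.Helper92_MWF.RRD
import Pool.Agent.Helper51_MWF.RRA
import Pool.Agent.Helper67_MWF.RRB

/-!
# `x²tx ≈ x²tx^(n+1)` or its dual, for every period `n` (MP_23468a_al)
-/

set_option autoImplicit false

namespace Pool.Agent.MWZ.H28

open Pool.Agent.Helper14_MV Pool.Agent.Helper2_MV Pool.Agent.MVO Pool.Agent.MWL Pool.Agent.MWF
open Pool.Agent.MWF.H92 (PA PB gaml_RR dual mid meet)

variable {β : FIC} {n : ℕ}

/-- the word `x^a t x^b`, with `t = 1` -/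
def Fw (a b : ℕ) : List ℕ := List.replicate a 0 ++ 1 :: List.replicate b 0

theorem per_add (hp : RR β (X 2) (X (n + 2))) {i : ℕ} (hi : 2 ≤ i) (m : ℕ) :
    RR β (X i) (X (i + n * m)) := by
  induction m with
  | zero => exact RR.refl _
  | succ m ih =>
    refine β.trans ih ?_
    have h2 := RR.append hp (RR.refl (β := β) (X (i + n * m - 2)))
    unfold X at h2
    rw [← List.replicate_add, ← List.replicate_add,
      show 2 + (i + n * m - 2) = i + n * m by omega,
      show n + 2 + (i + n * m - 2) = i + n * (m + 1) by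
        rw [Nat.mul_succ]; omega] at h2
    exact h2

theorem per_mod (hp : RR β (X 2) (X (n + 2))) {i j : ℕ} (hi : 2 ≤ i) (hj : 2 ≤ j)
    (h : i ≡ j [MOD n]) : RR β (X i) (X j) := by
  rcases le_total i j with hij | hij
  · obtain ⟨m, hm⟩ := (Nat.modEq_iff_dvd' hij).1 h
    have : j = i + n * m := by omega
    rw [this]
    exact per_add hp hi m
  · obtain ⟨m, hm⟩ := (Nat.modEq_iff_dvd' hij).1 h.symm
    have : i = j + n * m := by omega
    rw [this]
    exact RR.symm (per_add hp hj m)

theorem fw_ctx {a b a' b' : ℕ} (h : RR β (Fw a b) (Fw a' b')) (i j : ℕ) :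
    RR β (Fw (i + a) (b + j)) (Fw (i + a') (b' + j)) := by
  have e : ∀ a b : ℕ, Fw (i + a) (b + j) = List.replicate i 0 ++ Fw a b ++ List.replicate j 0 := by
    intro a b
    unfold Fw
    rw [List.replicate_add i a, List.replicate_add b j]
    simp only [List.append_assoc, List.cons_append]
  rw [e, e]
  exact ((RR.refl _).append h).append (RR.refl _)

theorem fw_left (hp : RR β (X 2) (X (n + 2))) {a a' : ℕ} (ha : 2 ≤ a) (ha' : 2 ≤ a')
    (h : a ≡ a' [MOD n]) (b : ℕ) : RR β (Fw a b) (Fw a' b) :=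
  (per_mod hp ha ha' h).append (RR.refl _)

theorem fw_right (hp : RR β (X 2) (X (n + 2))) (a : ℕ) {b b' : ℕ} (hb : 2 ≤ b) (hb' : 2 ≤ b')
    (h : b ≡ b' [MOD n]) : RR β (Fw a b) (Fw a b') :=
  (RR.refl _).append ((RR.refl [1]).append (per_mod hp hb hb' h))

/-- the iteration -/
theorem fw_iter (hn : 1 ≤ n) (hp : RR β (X 2) (X (n + 2))) {a b : ℕ} (ha : a ≠ 1) (hb : 2 ≤ b)
    (h : RR β (Fw 1 2) (Fw a b)) : RR β (Fw 1 2) (Fw (n + 1) 2) := by
  obtain ⟨c, rfl⟩ : ∃ c, b = 2 + c := ⟨b - 2, by omega⟩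
  rcases Nat.eq_zero_or_pos a with ha0 | ha0
  · subst ha0
    have key : ∀ j, RR β (Fw j 2) (Fw 0 (2 + j * c)) := by
      intro j
      induction j with
      | zero =>
        rw [Nat.zero_mul]
        exact RR.refl _
      | succ j ih =>
        have h1 := fw_ctx h j 0
        have h2 := fw_ctx ih 0 c
        rw [show j + 1 = j + 1 from rfl, show 2 + 0 = 2 from rfl, show j + 0 = j from rfl,
          show 2 + c + 0 = 2 + c from rfl] at h1
        rw [show 0 + j = j by omega, show 0 + 0 = 0 from rfl,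
          show 2 + j * c + c = 2 + (j + 1) * c by rw [Nat.succ_mul]; omega] at h2
        exact β.trans h1 h2
    have h1 := key (n + 1)
    have h2 : RR β (Fw 0 (2 + (n + 1) * c)) (Fw 0 (2 + c)) := by
      apply fw_right hp 0 (by omega) (by omega)
      rw [show 2 + (n + 1) * c = 2 + c + n * c by rw [Nat.succ_mul]; omega]
      unfold Nat.ModEq
      rw [Nat.add_mul_mod_self_left]
    exact β.trans h (RR.symm (β.trans h1 h2))
  · obtain ⟨d, rfl⟩ : ∃ d, a = d + 2 := ⟨a - 2, by omega⟩
    have key : ∀ j, RR β (Fw 1 2) (Fw (1 + j * (d + 1)) (2 + j * c)) := by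
      intro j
      induction j with
      | zero =>
        rw [Nat.zero_mul, Nat.zero_mul]
        exact RR.refl _
      | succ j ih =>
        have h1 := fw_ctx h (j * (d + 1)) (j * c)
        rw [show j * (d + 1) + 1 = 1 + j * (d + 1) by omega,
          show j * (d + 1) + (d + 2) = 1 + (j + 1) * (d + 1) by rw [Nat.succ_mul]; omega,
          show 2 + c + j * c = 2 + (j + 1) * c by rw [Nat.succ_mul]; omega] at h1
        exact β.trans ih h1
    have h1 := key n
    have h2 : RR β (Fw (1 + n * (d + 1)) (2 + n * c)) (Fw (n + 1) (2 + n * c)) := by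
      have h3 : 1 ≤ n * (d + 1) := Nat.mul_pos (by omega) (by omega)
      apply fw_left hp (by omega) (by omega)
      rw [show n + 1 = 1 + n * 1 by omega]
      unfold Nat.ModEq
      rw [Nat.add_mul_mod_self_left, Nat.add_mul_mod_self_left]
    have h3 : RR β (Fw (n + 1) (2 + n * c)) (Fw (n + 1) 2) := by
      apply fw_right hp _ (by omega) (by omega)
      unfold Nat.ModEq
      rw [Nat.add_mul_mod_self_left]
    exact β.trans h1 (β.trans h2 h3)

/-- the closed set -/
theorem rra_n (hn : 1 ≤ n) (hp : RR β (X 2) (X (n + 2))) (hI : Iso3 β)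
    (hR : ¬ RR β (Fw 1 2) (Fw (n + 1) 2)) {u v : List ℕ} (huv : RR β u v) (hu : PA u) : PA v := by
  obtain ⟨k, hk, rfl⟩ := hu
  have hv01 : ∀ c ∈ v, c = 0 ∨ c = 1 := by
    intro c hc
    by_contra hcon
    push Not at hcon
    refine RR.content hI huv (c := c) ?_ hc
    rw [List.mem_append]
    rintro (h | h)
    · simp at h
      tauto
    · exact hcon.1 (List.eq_of_mem_replicate h)
  have hc1 : v.count 1 = 1 := by
    have h1 := huv.filter (fun c => c == 1)
    have e1 : ([0, 1] ++ List.replicate k 0 : List ℕ).filter (fun c => c == 1) = [1] := by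
      rw [List.filter_append, List.filter_replicate]
      simp
    rw [e1, List.filter_beq] at h1
    have h2 := hI _ (((RR.refl (β := β) [0]).append h1).append (RR.refl [0]))
    have h3 := congrArg List.length h2
    simp only [List.length_append, List.length_replicate, List.length_cons,
      List.length_nil] at h3
    omega
  obtain ⟨a, b, rfl⟩ := H51.split01 v hv01 hc1
  rcases Nat.lt_or_ge k 2 with hk2 | hk2
  · have hk1 : k = 1 := by omega
    subst hk1
    exact ⟨1, le_refl 1, hI _ huv⟩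
  by_cases hgood : a = 1 ∧ 1 ≤ b
  · exact ⟨b, hgood.2, by rw [hgood.1]; rfl⟩
  exfalso
  have h0 : RR β (Fw 1 k) (Fw a b) := huv
  have ha : a ≠ 1 := by
    rintro rfl
    have hb : b = 0 := by omega
    subst hb
    have h1 := h0.filter (fun c => c == 0)
    have e : ∀ a b : ℕ, (Fw a b).filter (fun c => c == 0) = List.replicate (a + b) 0 := by
      intro a b
      unfold Fw
      rw [List.filter_append, List.filter_cons_of_neg (by decide), List.filter_replicate,
        List.filter_replicate]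
      simp [List.replicate_append_replicate]
    rw [e, e] at h1
    have h2 := hI _ ((RR.symm h1).append (RR.refl (β := β) [1, 0]))
    have h3 := congrArg List.length h2
    simp only [List.length_append, List.length_replicate, List.length_cons,
      List.length_nil] at h3
    omega
  -- enlarge the power on the right
  obtain ⟨q, rfl⟩ : ∃ q, n = q + 1 := ⟨n - 1, by omega⟩
  have h1 := fw_ctx h0 0 (2 + q * k)
  rw [show 0 + 1 = 1 from rfl, show 0 + a = a by omega] at h1
  have h2 : RR β (Fw 1 (k + (2 + q * k))) (Fw 1 2) := by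
    apply fw_right hp _ (by omega) (by omega)
    rw [show k + (2 + q * k) = 2 + (q + 1) * k by rw [Nat.succ_mul]; omega]
    unfold Nat.ModEq
    rw [Nat.add_mul_mod_self_left]
  exact hR (fw_iter hn hp ha (by omega) (β.trans (RR.symm h2) h1))

theorem fw_rev (a b : ℕ) : (Fw a b).reverse = Fw b a := by
  unfold Fw
  simp

/-- **D2.** -/
theorem d2 (hn : 1 ≤ n) (hp : RR β (X 2) (X (n + 2))) (hm : ModF β) (hI : Iso3 β) :
    RR β (Fw 2 1) (Fw 2 (n + 1)) ∨ RR β (Fw 1 2) (Fw (n + 1) 2) := by
  by_contra hcon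
  push Not at hcon
  obtain ⟨hn1, hn2⟩ := hcon
  have hσ : β ≤ gaml PA := le_gaml fun u v huv hu => rra_n hn hp hI hn2 huv hu
  have hop : ∀ l l' : List ℕ, RR (FIC.op β) l l' ↔ RR β l.reverse l'.reverse :=
    fun _ _ => Iff.rfl
  have hisoO : Iso3 (FIC.op β) := by
    intro l hl
    have h5 := hI _ ((hop _ _).1 hl)
    have h6 := congrArg List.reverse h5
    rw [List.reverse_reverse] at h6
    exact h6
  have hpO : RR (FIC.op β) (X 2) (X (n + 2)) := by
    rw [hop, List.reverse_replicate, List.reverse_replicate]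
    exact hp
  have hnO : ¬ RR (FIC.op β) (Fw 1 2) (Fw (n + 1) 2) := by
    intro h
    rw [hop, fw_rev, fw_rev] at h
    exact hn1 h
  have hτ : β ≤ gaml PB := by
    apply le_gaml
    intro u v huv hu
    refine rra_n hn hpO hisoO hnO (u := u.reverse) (v := v.reverse) ((hop _ _).2 ?_) hu
    rw [List.reverse_reverse, List.reverse_reverse]
    exact huv
  have s1 : RR (gaml PA) [0, 1, 0] [0, 1, 0, 0] := Pool.Agent.MWF.H67.rrb
  have t1 : RR (gaml PB) [0, 1, 0] [0, 0, 1, 0] := dual s1
  have hρ : β ≤ FIC.inf (gaml (fun w => w = [0, 1, 0])) (gaml PB) := by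
    refine FIC.le_inf (le_gaml ?_) hτ
    intro u v huv hu
    rw [hu] at huv
    exact hI v huv
  have t2 : RR (gaml PB) [0, 1, 0, 0] [0, 0, 1, 0, 0] :=
    RR.append t1 (RR.refl [0])
  have r1 : RR (FIC.inf (gaml (fun w => w = [0, 1, 0])) (gaml PB)) [0, 1, 0, 0] [0, 0, 1, 0, 0] :=
    ⟨mid, t2⟩
  have s2 : RR (gaml PA) [0, 0, 1, 0] [0, 0, 1, 0, 0] := RR.append (RR.refl [0]) s1
  have j1 : RR (FIC.sup (FIC.inf (gaml (fun w => w = [0, 1, 0])) (gaml PB)) (gaml PA))
      [0, 1, 0] [0, 0, 1, 0] :=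
    FIC.trans _ (FIC.trans _ (FIC.le_sup_right _ _ _ _ s1) (FIC.le_sup_left _ _ _ _ r1))
      (FIC.le_sup_right _ _ _ _ s2.symm)
  have := pent hm hρ hσ hτ (FIC.inf_le_right _ _) (P := fun w => w = [0, 1, 0])
    (fun u v huv hu => (gaml_keep (P := fun w => w = [0, 1, 0]) huv.1).1 hu)
    (fun u v hu1 hu2 hu => by
      have a1 : PA u := by rw [hu]; exact ⟨1, le_rfl, rfl⟩
      have a2 : PB u := by rw [hu]; exact ⟨1, le_rfl, rfl⟩
      exact meet ((gaml_keep hu1).1 a1) ((gaml_keep hu2).1 a2)) j1 t1 rfl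
  have h9 := congrArg List.length this
  simp at h9

/-- `t` is renamed `2` -/
theorem fw_sub {a b a' b' : ℕ} (h : RR β (Fw a b) (Fw a' b')) :
    RR β (X a ++ 2 :: X b) (X a' ++ 2 :: X b') := by
  have h1 := h.sub (fun c => if c = 1 then [2] else [c])
  have e : ∀ a b : ℕ, (Fw a b).flatMap (fun c => if c = 1 then [2] else [c]) = X a ++ 2 :: X b := by
    intro a b
    have e1 : ∀ a : ℕ, (List.replicate a 0).flatMap (fun c => if c = 1 then [2] else [c]) =
        List.replicate a 0 := by
      intro a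
      induction a with
      | zero => rfl
      | succ a ih =>
        rw [List.replicate_succ, List.flatMap_cons, ih]
        rfl
    unfold Fw
    rw [List.flatMap_append, List.flatMap_cons, e1, e1]
    rfl
  rw [e, e] at h1
  exact h1

/-- **D2** in the words of MWC and MWL -/
theorem div2 (hn : 1 ≤ n) (hp : RR β (X 2) (X (n + 2))) (hm : ModF β) (hI : Iso3 β) :
    LR n (FC.ofFIC β) ∨ MWC.LRd n (FC.ofFIC β) := by
  rcases d2 hn hp hm hI with h | h
  · left
    exact ⟨hn, hp, fw_sub h⟩
  · right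
    exact ⟨hn, hp, fw_sub h⟩

end Pool.Agent.MWZ.H28
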