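import Pool.Agent.MWU.Top

/-!
# The isoterm block in the form of MWU (MP_23468a_al)
-/

set_option autoImplicit false

namespace Pool.Agent.MWZ.H28

open Pool.Agent.Helper14_MV Pool.Agent.Helper2_MV Pool.Agent.MVO Pool.Agent.MWZ

/-- the systems of the varieties for which `xyx` is an isoterm -/
def SI : MWU.Sy := fun n S => SysA n S ∨ SysH n S

theorem iN {Q : ℕ → Prop} (hNA : NecA) (hNH : ∀ n, 1 ≤ n → Q n → NecH1 n) :
    MWU.Nec Q (fun _ β => Iso3 β) SI := by
  intro n β hn hQ hp _ _ hm hi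
  by_cases h12 : S1 (RR β) ∧ S2 (RR β)
  · exact Or.inl (Or.inl (hNA n β hn hp hi h12.1 h12.2 hm))
  · by_cases h12' : S1 (RR (FIC.op β)) ∧ S2 (RR (FIC.op β))
    · exact Or.inr (Or.inl (hNA n (FIC.op β) hn (per_op hp) (iso3_op hi) h12'.1 h12'.2
        (op_modF hm)))
    · rcases hNH n hn hQ β hp hi hm h12 h12' with h | h
      · exact Or.inl (Or.inr h)
      · exact Or.inr (Or.inr h)

theorem iS {Q : ℕ → Prop} (hSA : SufA) (hSH : ∀ n, 1 ≤ n → Q n → SufH1 n) :
    MWU.Suf Q SI := by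
  rintro n β hn hQ hp (h | h)
  · exact hSA n β hn hp h
  · exact hSH n hn hQ β hp h

end Pool.Agent.MWZ.H28
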