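import Pool.Agent.Helper14_MV.J
import Pool.Agent.Helper4_MV.Dist

/-!
# Monoid varieties with modular subvariety lattice: the varieties satisfying `xyx ≈ x²y`
or `xyx ≈ yx²`
-/

namespace Pool.Agent.MWZ.H28.Cls

open Pool.Agent.Helper14_MV
open Pool.Agent.Helper4_MV (Cm)
open FreeMonoid (of)

/-! ### completely regular varieties -/

theorem cr_iff (V : Variety) :
    V.CompletelyRegular ↔ ∃ n, 1 ≤ n ∧ V.Sat (lx ^ (n + 1)) lx := by
  constructor
  · intro h
    have h1 : V.Mem (th V).con.Quotient := by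
      have h2 : (ofFIC (th V)).Mem (th V).con.Quotient := fun a b hab => quot_sat _ hab
      rwa [ofFIC_th] at h2
    obtain ⟨b, hb, _⟩ := h _ h1 ((th V).con.mk' lx)
    obtain ⟨w, rfl⟩ := Con.mk'_surjective b
    rw [← map_mul, ← map_mul] at hb
    have h2 : (th V).r (lx * w * lx) lx := (Con.eq (th V).con).1 hb
    have h6 := (th V).sub (FreeMonoid.lift (fun _ => lx)) h2
    have h5 : ∀ u : Word, ∃ k, (FreeMonoid.lift (fun _ => lx) : Word →* Word) u = lx ^ k := by
      intro u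
      induction u using FreeMonoid.inductionOn' with
      | one => exact ⟨0, by simp⟩
      | of_mul c u ih =>
        obtain ⟨k, hk⟩ := ih
        refine ⟨k + 1, ?_⟩
        rw [map_mul, hk, FreeMonoid.lift_eval_of, pow_succ']
    obtain ⟨k, hk⟩ := h5 w
    rw [map_mul, map_mul, hk] at h6
    have h7 : (FreeMonoid.lift (fun _ => lx) : Word →* Word) lx = lx := by
      simp [lx, FreeMonoid.lift_eval_of]
    rw [h7] at h6
    refine ⟨k + 1, by omega, ?_⟩
    have e : lx ^ (k + 1 + 1) = lx * lx ^ k * lx := by rw [pow_succ, pow_succ']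
    rw [e]
    exact h6
  · rintro ⟨n, hn, h⟩ M _ hM a
    have h1 := h M hM (FreeMonoid.lift (fun _ => a))
    simp only [map_pow] at h1
    have h7 : (FreeMonoid.lift (fun _ => a) : Word →* M) lx = a := by
      simp [lx, FreeMonoid.lift_eval_of]
    rw [h7] at h1
    obtain ⟨m, rfl⟩ : ∃ m, n = m + 1 := ⟨n - 1, by omega⟩
    refine ⟨a ^ m, ?_, ?_⟩
    · rw [← pow_succ', ← pow_succ]; exact h1
    · rw [← pow_succ', ← pow_succ]

/-- what an identity with left side `x ^ 2` gives -/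
theorem sq_id {β : FIC} (hcr : ∀ n, 1 ≤ n → ¬ β.r (lx ^ (n + 1)) lx) {w : Word}
    (h' : β.r (lx ^ 2) w) (hw : w ≠ lx ^ 2) : ∃ n, 1 ≤ n ∧ β.r (lx ^ 2) (lx ^ (n + 2)) := by
  have hone : ∀ c, 1 ≤ c → ¬ β.r (lx ^ c) 1 := by
    intro c hc h1
    apply hcr c hc
    have h2 : β.r (lx ^ c * lx) (1 * lx) := FIC.mulR lx h1
    rw [one_mul, ← pow_succ] at h2
    exact h2
  have h0 := β.sub (cs 0) h'
  rw [cs_apply, cs_apply] at h0
  have h00 : cnt 0 (lx ^ 2) = 2 := by simp [cnt_lx]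
  rw [h00] at h0
  rcases Nat.lt_trichotomy (cnt 0 w) 2 with hc | hc | hc
  · interval_cases h1 : cnt 0 w
    · rw [pow_zero] at h0
      exact absurd h0 (hone 2 (by norm_num))
    · rw [pow_one] at h0
      exact absurd h0 (hcr 1 (le_refl 1))
  · exfalso
    have : ∃ i, i ≠ 0 ∧ cnt i w ≠ 0 := by
      by_contra hcon
      push Not at hcon
      apply hw
      have h3 : ct w ⊆ {0} := by
        intro i hi
        by_contra h4
        exact (cnt_eq_zero.1 (hcon i (by simpa using h4))) hi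
      rw [pow_of_ct h3, hc]
    obtain ⟨i, hi, hci⟩ := this
    have h1 := β.sub (cs i) h'
    rw [cs_apply, cs_apply] at h1
    have h2 : cnt i (lx ^ 2) = 0 := by rw [cnt_pow, cnt_lx_other hi]
    rw [h2, pow_zero] at h1
    exact hone _ (Nat.one_le_iff_ne_zero.2 hci) (β.symm h1)
  · exact ⟨cnt 0 w - 2, by omega, by
      have : cnt 0 w - 2 + 2 = cnt 0 w := by omega
      rw [this]; exact h0⟩

/-! ### the first letter among `x` and `y` -/

/-- the first of the letters `x`, `y` in a word -/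
def fst2 (w : Word) : Option ℕ := (FreeMonoid.toList w).find? (fun i => i == 0 || i == 1)

theorem fst2_mul (u v : Word) : fst2 (u * v) = (fst2 u).or (fst2 v) := by
  unfold fst2
  rw [FreeMonoid.toList_mul, List.find?_append]

/-- the first of the letters `x`, `y` is `x` -/
def P0 (w : Word) : Prop := fst2 w = some 0

theorem gam_sq : (gam P0).r (lx ^ (1 + 1)) lx := by
  intro φ m q
  rw [map_pow]
  unfold P0
  have : fst2 (m * φ lx ^ (1 + 1) * q) = fst2 (m * φ lx * q) := by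
    rw [pow_succ, pow_one, fst2_mul, fst2_mul, fst2_mul, fst2_mul, fst2_mul]
    cases h : fst2 (φ lx) <;> simp
  rw [this]

theorem not_gam : ¬ (gam P0).r (lx * ly) (ly * lx) := by
  intro h
  have e1 : fst2 (lx * ly) = some 0 := rfl
  have e2 : fst2 (ly * lx) = some 1 := rfl
  have h1 : fst2 (ly * lx) = some 0 := (gam_self h).1 e1
  rw [e2] at h1
  exact absurd h1 (by decide)

/-- gathering the letters `i` and `j` behind a power of `i` -/
theorem gather_front {β : FIC} (h1 : β.r (lx * ly * lx) (lx ^ 2 * ly)) {i j : ℕ} (hij : i ≠ j)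
    (l : List ℕ) {a : ℕ} (ha : 1 ≤ a) :
    β.r (of i ^ a * Helper4_MV.er i j (FreeMonoid.ofList l))
      (of i ^ (a + Helper4_MV.cnt i (FreeMonoid.ofList l)) *
        of j ^ Helper4_MV.cnt j (FreeMonoid.ofList l)) := by
  induction l using List.reverseRecOn with
  | nil =>
    have : (FreeMonoid.ofList ([] : List ℕ)) = 1 := rfl
    rw [this]
    simpa using β.refl _
  | append_singleton l c ih =>
    have hc : FreeMonoid.ofList (l ++ [c]) = FreeMonoid.ofList l * of c := rfl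
    rw [hc, map_mul, Helper4_MV.er_of, Helper4_MV.cnt_mul, Helper4_MV.cnt_mul,
      Helper4_MV.cnt_of, Helper4_MV.cnt_of, ← mul_assoc]
    by_cases hci : c = i
    · subst hci
      have e1 : ¬ (c = j) := hij
      rw [if_pos (Or.inl rfl), if_pos rfl, if_neg e1, add_zero]
      refine β.trans (FIC.mulR _ ih) ?_
      have := Helper4_MV.gather' h1 c (of j ^ Helper4_MV.cnt j (FreeMonoid.ofList l))
        (k := a + Helper4_MV.cnt c (FreeMonoid.ofList l)) (by omega)
      rw [← add_assoc]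
      exact this
    · by_cases hcj : c = j
      · subst hcj
        rw [if_pos (Or.inr rfl), if_neg hci, if_pos rfl, add_zero, pow_succ, ← mul_assoc]
        exact FIC.mulR _ ih
      · rw [if_neg (by rintro (h | h); exacts [hci h, hcj h]), if_neg hci, if_neg hcj, add_zero,
          add_zero, mul_one]
        exact ih

theorem er_none {i j : ℕ} {l : List ℕ} (h : ∀ c ∈ l, ¬ (c = i ∨ c = j)) :
    Helper4_MV.er i j (FreeMonoid.ofList l) = 1 ∧ Helper4_MV.cnt i (FreeMonoid.ofList l) = 0 ∧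
      Helper4_MV.cnt j (FreeMonoid.ofList l) = 0 := by
  induction l with
  | nil => exact ⟨by
      have : (FreeMonoid.ofList ([] : List ℕ)) = 1 := rfl
      rw [this, map_one], rfl, rfl⟩
  | cons a l ih =>
    obtain ⟨h1, h2, h3⟩ := ih (fun c hc => h c (List.mem_cons_of_mem _ hc))
    have ha := h a (List.mem_cons_self ..)
    have hc : FreeMonoid.ofList (a :: l) = of a * FreeMonoid.ofList l := rfl
    rw [hc, map_mul, Helper4_MV.er_of, Helper4_MV.cnt_mul, Helper4_MV.cnt_mul,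
      Helper4_MV.cnt_of, Helper4_MV.cnt_of, if_neg ha, if_neg (fun h => ha (Or.inl h)),
      if_neg (fun h => ha (Or.inr h)), h1, h2, h3]
    simp

/-- words in which the first of the letters `i`, `j` is `i` -/
theorem front_of {β : FIC} (h1 : β.r (lx * ly * lx) (lx ^ 2 * ly)) {i j : ℕ} (hij : i ≠ j)
    {w : Word} {as bs : List ℕ} (hw : FreeMonoid.toList w = as ++ i :: bs)
    (has : ∀ c ∈ as, ¬ (c = i ∨ c = j)) :
    1 ≤ Helper4_MV.cnt i w ∧ β.r (Helper4_MV.er i j w)
      (of i ^ Helper4_MV.cnt i w * of j ^ Helper4_MV.cnt j w) := by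
  have e : w = FreeMonoid.ofList as * (of i * FreeMonoid.ofList bs) := by
    apply FreeMonoid.toList.injective
    rw [hw]; rfl
  obtain ⟨a1, a2, a3⟩ := er_none has
  have c1 : Helper4_MV.cnt i w = 1 + Helper4_MV.cnt i (FreeMonoid.ofList bs) := by
    rw [e, Helper4_MV.cnt_mul, Helper4_MV.cnt_mul, a2, Helper4_MV.cnt_of, if_pos rfl, zero_add]
  have c2 : Helper4_MV.cnt j w = Helper4_MV.cnt j (FreeMonoid.ofList bs) := by
    rw [e, Helper4_MV.cnt_mul, Helper4_MV.cnt_mul, a3, Helper4_MV.cnt_of, if_neg hij, zero_add,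
      zero_add]
  refine ⟨by omega, ?_⟩
  rw [c1, c2, e, map_mul, map_mul, a1, one_mul, Helper4_MV.er_of, if_pos (Or.inl rfl)]
  have := gather_front h1 hij bs (le_refl 1)
  rwa [pow_one] at this

/-- extraction of a commutation of powers -/
theorem exists_cm {β : FIC} (h1 : β.r (lx * ly * lx) (lx ^ 2 * ly)) (hm : ModF β)
    (hcr : ∀ n, 1 ≤ n → ¬ β.r (lx ^ (n + 1)) lx) : ∃ e f, 1 ≤ e ∧ 1 ≤ f ∧ Cm β e f := by
  have hone : ∀ {a : ℕ}, 1 ≤ a → β.r (lx ^ a) 1 → ∃ e f, 1 ≤ e ∧ 1 ≤ f ∧ Cm β e f :=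
    fun ha h => ⟨1, 1, le_rfl, le_rfl, Helper4_MV.comm_of_one h1 ha h⟩
  have key : ∀ U V : Word, β.r U V → P0 U → ¬ P0 V → ∃ e f, 1 ≤ e ∧ 1 ≤ f ∧ Cm β e f := by
    intro U V hUV hU hV
    have o0 : β.r (lx ^ Helper4_MV.cnt 0 U) (lx ^ Helper4_MV.cnt 0 V) :=
      Helper4_MV.one_letter hUV
    have o1 : β.r (lx ^ Helper4_MV.cnt 1 U) (lx ^ Helper4_MV.cnt 1 V) :=
      Helper4_MV.one_letter hUV
    obtain ⟨-, as, bs, hU1, hU2⟩ := List.find?_eq_some_iff_append.1 hU
    have hU2' : ∀ c ∈ as, ¬ (c = 0 ∨ c = 1) := by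
      intro c hc h
      have := hU2 c hc
      rcases h with rfl | rfl <;> simp at this
    obtain ⟨c0, hUn⟩ := front_of h1 (i := 0) (j := 1) (by decide) hU1 hU2'
    have hVc : fst2 V = none ∨ fst2 V = some 1 := by
      cases hv : fst2 V with
      | none => exact Or.inl rfl
      | some c =>
        right
        have h3 := List.find?_some hv
        simp only [Bool.or_eq_true, beq_iff_eq] at h3
        rcases h3 with rfl | rfl
        · exact absurd hv hV
        · rfl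
    rcases hVc with hVc | hVc
    · -- no letter `x` or `y` in `V`
      have h3 := List.find?_eq_none.1 hVc
      have h4 : ∀ c ∈ FreeMonoid.toList V, ¬ (c = 0 ∨ c = 1) := by
        intro c hc h
        have := h3 c hc
        rcases h with rfl | rfl <;> simp at this
      obtain ⟨-, h5, -⟩ := er_none h4
      have h6 : Helper4_MV.cnt 0 V = 0 := h5
      rw [h6, pow_zero] at o0
      exact hone c0 o0
    · obtain ⟨-, cs', ds, hV1, hV2⟩ := List.find?_eq_some_iff_append.1 hVc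
      have hV2' : ∀ c ∈ cs', ¬ (c = 1 ∨ c = 0) := by
        intro c hc h
        have := hV2 c hc
        rcases h with rfl | rfl <;> simp at this
      obtain ⟨d1, hVn⟩ := front_of h1 (i := 1) (j := 0) (by decide) hV1 hV2'
      rcases Nat.eq_zero_or_pos (Helper4_MV.cnt 0 V) with z0 | z0
      · rw [z0, pow_zero] at o0
        exact hone c0 o0
      rcases Nat.eq_zero_or_pos (Helper4_MV.cnt 1 U) with z1 | z1
      · rw [z1, pow_zero] at o1
        exact hone d1 (β.symm o1)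
      refine ⟨_, _, c0, z1, ?_⟩
      have e : Helper4_MV.er 1 0 = Helper4_MV.er 0 1 := by
        apply FreeMonoid.hom_eq
        intro l
        rw [Helper4_MV.er_of, Helper4_MV.er_of]
        simp only [or_comm]
      rw [e] at hVn
      have h3 : β.r (lx ^ Helper4_MV.cnt 0 U * ly ^ Helper4_MV.cnt 1 U)
          (ly ^ Helper4_MV.cnt 1 V * lx ^ Helper4_MV.cnt 0 V) :=
        β.trans (β.symm hUn) (β.trans (β.sub _ hUV) hVn)
      exact β.trans h3 (β.mul (β.symm (Helper4_MV.rel_pow o1 ly)) (β.symm o0))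
  by_contra hcon
  have hle : β ≤ gam P0 := by
    intro u v huv φ m q
    have h2 : β.r (m * φ u * q) (m * φ v * q) := β.mul (β.mul (β.refl m) (β.sub φ huv)) (β.refl q)
    constructor
    · intro hP
      by_contra hn
      exact hcon (key _ _ h2 hP hn)
    · intro hP
      by_contra hn
      exact hcon (key _ _ (β.symm h2) hP hn)
  exact not_gam (B1 β hm hcr (gam P0) hle 1 le_rfl gam_sq)

theorem cm22 {β : FIC} (h1 : β.r (lx * ly * lx) (lx ^ 2 * ly)) (hm : ModF β)
    (hcr : ∀ n, 1 ≤ n → ¬ β.r (lx ^ (n + 1)) lx) {n : ℕ} (hn : 1 ≤ n)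
    (h2 : β.r (lx ^ 2) (lx ^ (n + 2))) : Cm β 2 2 := by
  obtain ⟨e, f, he, hf, h⟩ := exists_cm h1 hm hcr
  have hper : ∀ k, β.r (lx ^ 2) (lx ^ (2 + k * n)) := by
    intro k
    have : (Helper4_MV.nc β).r 2 (2 + n) := by
      rw [add_comm n 2] at h2
      exact h2
    exact (Helper4_MV.nc β).mul_step this k
  have h3 : Cm β (2 + e * n) (2 + f * n) := h.up' h1 he hf (by nlinarith) (by nlinarith)
  exact h3.congr (β.symm (hper e)) (β.symm (hper f))

/-! ### the classification for fully invariant congruences -/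

/-- the three conditions -/
def Co1 (β : FIC) : Prop := ∃ n, 1 ≤ n ∧ β.r (lx ^ (n + 1)) lx
def Co2 (β : FIC) : Prop := ∃ k, 1 ≤ k ∧ β.r (lx ^ k * ly) (ly * lx ^ k)
def Co3 (β : FIC) : Prop :=
  ∃ n, 1 ≤ n ∧ β.r (lx ^ 2) (lx ^ (n + 2)) ∧ β.r (lx ^ 2 * ly ^ 2) (ly ^ 2 * lx ^ 2)

theorem fic_nec {β : FIC} (h1 : β.r (lx * ly * lx) (lx ^ 2 * ly)) (hm : ModF β) :
    Co1 β ∨ Co2 β ∨ Co3 β := by
  by_cases hcr : Co1 β
  · exact Or.inl hcr
  right
  have hcr' : ∀ n, 1 ≤ n → ¬ β.r (lx ^ (n + 1)) lx := fun n hn h => hcr ⟨n, hn, h⟩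
  by_cases h2 : ∀ w, β.r (lx ^ 2) w → w = lx ^ 2
  · left
    obtain ⟨k, hk, h3⟩ := B2 hm h2
    exact ⟨k, hk, h3 k le_rfl⟩
  · right
    push Not at h2
    obtain ⟨w, hw1, hw2⟩ := h2
    obtain ⟨n, hn, h3⟩ := sq_id hcr' hw1 hw2
    exact ⟨n, hn, h3, cm22 h1 hm hcr' hn h3⟩

theorem fic_dist {β : FIC} (h1 : β.r (lx * ly * lx) (lx ^ 2 * ly)) (h : Co2 β ∨ Co3 β) :
    DistF β := by
  rcases h with ⟨k, hk, h2⟩ | ⟨n, hn, h2, h3⟩
  · exact Helper4_MV.C β h1 k hk h2
  · exact Helper4_MV.D β h1 n hn h2 h3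

/-! ### duality -/

theorem op_op (β : FIC) : FIC.op (FIC.op β) = β := by
  apply FIC.ext'
  intro a b
  show β.r _ _ ↔ _
  rw [FreeMonoid.reverse_reverse, FreeMonoid.reverse_reverse]

theorem op_distF {β : FIC} (h : DistF β) : DistF (FIC.op β) := by
  intro ρ σ τ hρ hσ hτ u v h1 h2
  have e : ∀ ρ : FIC, FIC.op β ≤ ρ → β ≤ FIC.op ρ := by
    intro ρ hρ a b hab
    apply hρ
    show β.r _ _
    rw [FreeMonoid.reverse_reverse, FreeMonoid.reverse_reverse]
    exact hab
  have h3 := h (FIC.op ρ) (FIC.op σ) (FIC.op τ) (e ρ hρ) (e σ hσ) (e τ hτ)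
    u.reverse v.reverse (FIC.sup_op h1) (FIC.sup_op h2)
  have h4 := FIC.sup_op h3
  have h5 : FIC.sup (FIC.op (FIC.op ρ)) (FIC.op (FIC.inf (FIC.op σ) (FIC.op τ))) ≤
      FIC.sup ρ (FIC.inf σ τ) := by
    apply FIC.sup_le
    · intro a b hab
      apply FIC.le_sup_left
      have : ρ.r a.reverse.reverse b.reverse.reverse := hab
      rwa [FreeMonoid.reverse_reverse, FreeMonoid.reverse_reverse] at this
    · intro a b hab
      apply FIC.le_sup_right
      have h6 : σ.r a.reverse.reverse b.reverse.reverse ∧ τ.r a.reverse.reverse b.reverse.reverse :=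
        hab
      rwa [FreeMonoid.reverse_reverse, FreeMonoid.reverse_reverse] at h6
  have h7 := h5 _ _ h4
  rwa [FreeMonoid.reverse_reverse, FreeMonoid.reverse_reverse] at h7

theorem rev_xy (a b : ℕ) : (lx ^ a * ly ^ b).reverse = ly ^ b * lx ^ a := by
  rw [FreeMonoid.reverse_mul, FIC.reverse_pow, FIC.reverse_pow]; rfl

theorem rev_yx (a b : ℕ) : (ly ^ b * lx ^ a).reverse = lx ^ a * ly ^ b := by
  rw [FreeMonoid.reverse_mul, FIC.reverse_pow, FIC.reverse_pow]; rfl

theorem op_h1 {β : FIC} (h : β.r (lx * ly * lx) (ly * lx ^ 2)) :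
    (FIC.op β).r (lx * ly * lx) (lx ^ 2 * ly) := by
  show β.r _ _
  have e1 : (lx * ly * lx).reverse = lx * ly * lx := rfl
  have e2 : (lx ^ 2 * ly).reverse = ly * lx ^ 2 := by
    have := rev_xy 2 1
    rwa [pow_one] at this
  rw [e1, e2]
  exact h

theorem op_co1 {β : FIC} (h : Co1 β) : Co1 (FIC.op β) := by
  obtain ⟨n, hn, h⟩ := h
  refine ⟨n, hn, ?_⟩
  show β.r _ _
  rw [FIC.reverse_pow, rev_lx]
  exact h

theorem op_co2 {β : FIC} (h : Co2 β) : Co2 (FIC.op β) := by
  obtain ⟨n, hn, h⟩ := h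
  refine ⟨n, hn, ?_⟩
  show β.r _ _
  have e1 := rev_xy n 1
  have e2 := rev_yx n 1
  rw [pow_one] at e1 e2
  rw [e1, e2]
  exact β.symm h

theorem op_co3 {β : FIC} (h : Co3 β) : Co3 (FIC.op β) := by
  obtain ⟨n, hn, h, h'⟩ := h
  refine ⟨n, hn, ?_, ?_⟩
  · show β.r _ _
    rw [FIC.reverse_pow, FIC.reverse_pow, rev_lx]
    exact h
  · show β.r _ _
    rw [rev_xy, rev_yx]
    exact β.symm h'

theorem fic_nec' {β : FIC} (h1 : β.r (lx * ly * lx) (lx ^ 2 * ly) ∨ β.r (lx * ly * lx) (ly * lx ^ 2))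
    (hm : ModF β) : Co1 β ∨ Co2 β ∨ Co3 β := by
  rcases h1 with h1 | h1
  · exact fic_nec h1 hm
  · have := fic_nec (op_h1 h1) (op_modF hm)
    rw [← op_op β]
    rcases this with h | h | h
    · exact Or.inl (op_co1 h)
    · exact Or.inr (Or.inl (op_co2 h))
    · exact Or.inr (Or.inr (op_co3 h))

theorem fic_dist' {β : FIC} (h1 : β.r (lx * ly * lx) (lx ^ 2 * ly) ∨ β.r (lx * ly * lx) (ly * lx ^ 2))
    (h : Co2 β ∨ Co3 β) : DistF β := by
  rcases h1 with h1 | h1
  · exact fic_dist h1 h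
  · rw [← op_op β]
    exact op_distF (fic_dist (op_h1 h1) (h.imp op_co2 op_co3))

/-- **Main theorem.** Let `V` be a variety of monoids which satisfies `xyx ≈ x²y` or `xyx ≈ yx²`, or
for which `x²` is an isoterm and `xyx` is not. Then `L(V)` is modular if and only if `V` is
completely regular, or satisfies `x ^ k y ≈ y x ^ k` for some `k ≥ 1`, or satisfies
`x² ≈ x ^ (n+2)` for some `n ≥ 1` and `x² y² ≈ y² x²`; and if `V` is not completely regular then
`L(V)` is modular if and only if it is distributive. -/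
theorem cls (V : Variety)
    (h : V.Sat (lx * ly * lx) (lx ^ 2 * ly) ∨ V.Sat (lx * ly * lx) (ly * lx ^ 2) ∨
      ((∀ w, V.Sat (lx ^ 2) w → w = lx ^ 2) ∧ ∃ w, w ≠ lx * ly * lx ∧ V.Sat (lx * ly * lx) w)) :
    (V.ModularLattice ↔ V.CompletelyRegular ∨
      (∃ k, 1 ≤ k ∧ V.Sat (lx ^ k * ly) (ly * lx ^ k)) ∨
      (∃ n, 1 ≤ n ∧ V.Sat (lx ^ 2) (lx ^ (n + 2)) ∧ V.Sat (lx ^ 2 * ly ^ 2) (ly ^ 2 * lx ^ 2))) ∧
    (¬ V.CompletelyRegular → (V.ModularLattice ↔ V.DistribLattice)) := by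
  have h1 : (th V).r (lx * ly * lx) (lx ^ 2 * ly) ∨ (th V).r (lx * ly * lx) (ly * lx ^ 2) := by
    rcases h with h | h | ⟨h2, w, hw, hw2⟩
    · exact Or.inl h
    · exact Or.inr h
    · have h4 : th V ≤ thC3 := le_thC3 h2
      rcases cases21 (h4 _ _ hw2) (by simp [cnt_lx, cnt_ly]) (by simp [cnt_lx, cnt_ly])
        (by intro i h0 h1; simp [cnt_lx_other h0, cnt_ly_other h1]) with h5 | h5 | h5
      · subst h5; exact Or.inl hw2
      · exact absurd h5 hw
      · subst h5; exact Or.inr hw2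
  constructor
  · constructor
    · intro hm
      rw [cr_iff]
      exact fic_nec' (β := th V) h1 ((modular_iff V).1 hm)
    · rw [modular_iff]
      rintro (h | h | h)
      · obtain ⟨n, hn, h2⟩ := (cr_iff V).1 h
        exact FIC.modular_CR (FIC.CR.of_letter hn h2)
      · exact distF_modF (fic_dist' (β := th V) h1 (Or.inl h))
      · exact distF_modF (fic_dist' (β := th V) h1 (Or.inr h))
  · intro hcr
    constructor
    · intro hm
      rw [distrib_iff]
      rcases fic_nec' (β := th V) h1 ((modular_iff V).1 hm) with h | h | h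
      · exact absurd ((cr_iff V).2 h) hcr
      · exact fic_dist' (β := th V) h1 (Or.inl h)
      · exact fic_dist' (β := th V) h1 (Or.inr h)
    · intro hd
      exact (modular_iff V).2 (distF_modF ((distrib_iff V).1 hd))

end Pool.Agent.MWZ.H28.Cls
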