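import Pool.Agent.Helper11_MWFE.SBZ
import Pool.Agent.Helper15_MWFE.LQG
import Pool.Agent.Helper19_MWFE.CPZ
import Pool.Agent.Helper19_MWFE.XCZ
import Pool.Agent.Helper1_MWFE.BAZ
import Pool.Agent.Helper20_MWFE.BPX
import Pool.Agent.Helper20_MWFE.EZA
import Pool.Agent.Helper20_MWFE.LBZ
import Pool.Agent.Helper20_MWFE.NEZ
import Pool.Agent.Helper20_MWFE.PMZ
import Pool.Agent.Helper20_MWFE.UPZ
import Pool.Agent.Helper21_MWFE.LCF
import Pool.Agent.Helper27_MWFE.SQP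
import Pool.Agent.Helper29_MWFE.CL0
import Pool.Agent.Helper2_MWFE.MIF
import Pool.Agent.Helper32_MWFE.LQI
import Pool.Agent.Helper36_MWFE.CLP
import Pool.Agent.Helper41_MWFE.NXZ
import Pool.Agent.Helper41_MWFE.YQZ
import Pool.Agent.Helper44_MWFE.FFE
import Pool.Agent.Helper4_MWFE.EXR
import Pool.Agent.Helper52_MWFE.HHX
import Pool.Agent.Helper54_MWFE.FPZ
import Pool.Agent.Helper54_MWFE.STZ
import Pool.Agent.Helper58_MWFE.THK
import Pool.Agent.Helper59_MWFE.DET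
import Pool.Agent.Helper59_MWFE.FEQ
import Pool.Agent.Helper62_MWFE.CPB
import Pool.Agent.Helper64_MWFE.CLB
import Pool.Agent.Helper65_MWFE.FAZ
import Pool.Agent.Helper65_MWFE.FLZ
import Pool.Agent.Helper65_MWFE.HWZ
import Pool.Agent.Helper65_MWFE.RE0
import Pool.Agent.Helper67_MWFE.SEZ
import Pool.Agent.Helper75_MWFE.ORZ
import Pool.Agent.Helper76_MWFE.CL1
import Pool.Agent.Helper7_MWFE.EAZ
import Pool.Agent.Helper7_MWFE.FSZ
import Pool.Agent.Helper7_MWFE.LQ1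
import Pool.Agent.Helper7_MWFE.NFZ
import Pool.Agent.Helper7_MWFE.RCF
import Pool.Agent.Helper81_MWFE.PHX
import Pool.Agent.Helper85_MWFE.BLN
import Pool.Agent.Helper88_MWFE.LQR
import Pool.Agent.Helper8_MWFE.SPZ
import Pool.Agent.Helper8_MWFE.TRH
import Pool.Agent.Helper94_MWFE.HVX
import Pool.Agent.Helper95_MWFE.TRZ
import Pool.Agent.Helper98_MWFE.REZ
import Pool.Agent.Helper61_MWD.FeqPlug

/-!
# `FE`, `FE'` for all periods: composition of the rows of squad MWFE (MP_23468a_al)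
-/

set_option autoImplicit false

namespace Pool.Agent.MWZ.H28.Fe

open Pool.Agent.MWFE

theorem lcf : LcfStmt := Pool.Agent.MWFE.H21.lcf
theorem pwl : PwlStmt := Pool.Agent.MWFE.H20E.pwl
theorem sqp : SqpStmt := Pool.Agent.MWFE.H27.sqp lcf pwl
theorem thk : ThkStmt := Pool.Agent.MWFE.H58.thk pwl
theorem hhx : HhxStmt := Pool.Agent.MWFE.H52.hhx sqp thk
theorem phx : PhxStmt := Pool.Agent.MWFE.H81.phx hhx
theorem fil : FilStmt := Pool.Agent.MWFE.H20E.fil pwl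
theorem bpx : BpxStmt := Pool.Agent.MWFE.H20B.bpx lcf fil hhx phx
theorem yqz : YqzStmt := Pool.Agent.MWFE.H41.yqz
theorem cro : CroStmt := Pool.Agent.MWFE.H20E.cro
theorem lqi : LqiStmt := Pool.Agent.MWFE.H32.lqi pwl fil
theorem lqr : LqrStmt := Pool.Agent.MWFE.H88.lqr fil
theorem lq1 : Lq1Stmt := Pool.Agent.MWFE.H7.lq1 lqr
theorem lqg : LqgStmt := Pool.Agent.MWFE.H15.lqg lqi
theorem nez : NezStmt := Pool.Agent.MWFE.H20E.nez lcf lqi lq1
theorem hvx : HvxStmt := Pool.Agent.MWFE.H94.hvx lcf pwl hhx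
theorem trh : TrhStmt := Pool.Agent.MWFE.H8.trh
theorem rcf : RcfStmt := Pool.Agent.MWFE.H7.rcf
theorem exr : ExrStmt := Pool.Agent.MWFE.H4.exr
theorem mif : MifStmt := Pool.Agent.MWFE.H2.mif
theorem det : DetStmt := Pool.Agent.MWFE.H59.det
theorem baz : BazStmt := Pool.Agent.MWFE.H1.baz pwl nez
theorem lbz : LbzStmt := Pool.Agent.MWFE.H20.lbz lqi lqr lqg baz
theorem upz : UpzStmt := Pool.Agent.MWFE.H20U.upz
theorem trz : TrzStmt := Pool.Agent.MWFE.H95.trz pwl baz trh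
theorem hwz : HwzStmt := Pool.Agent.MWFE.H65.hwz
theorem pmz : PmzStmt := Pool.Agent.MWFE.H20U.pmz lcf hhx upz hwz
theorem bln : BlnStmt := Pool.Agent.MWFE.H85.bln pwl fil cro lqr upz pmz
theorem xcz : XczStmt := Pool.Agent.MWFE.H19.xcz
theorem cpz : CpzStmt := Pool.Agent.MWFE.H19C.cpz lqr baz lbz upz trz bln xcz
theorem cpb : CpbStmt := Pool.Agent.MWFE.H62.cpb baz
theorem orz : OrzStmt := Pool.Agent.MWFE.H75.orz lqr baz lbz trz bln
theorem nfz : NfzStmt := Pool.Agent.MWFE.H7.nfz lcf baz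
theorem cl0 : Cl0Stmt := Pool.Agent.MWFE.H29.cl0 lqr baz lbz trz bln
theorem cl1 : Cl1Stmt := Pool.Agent.MWFE.H76.cl1 phx bpx baz hwz
theorem clp : ClpStmt := Pool.Agent.MWFE.H36.clp phx bpx baz hwz
theorem clb : ClbStmt := Pool.Agent.MWFE.H64.clb cl0 cl1 clp
theorem fpz : FpzStmt := Pool.Agent.MWFE.H54P.fpz pwl
theorem faz : FazStmt := Pool.Agent.MWFE.H65.faz det trh fpz
theorem fsz : FszStmt := Pool.Agent.MWFE.H7.fsz baz orz nfz faz
theorem spz : SpzStmt := Pool.Agent.MWFE.H8.spz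
theorem sez : SezStmt := Pool.Agent.MWFE.H67.sez fpz
theorem stz : StzStmt := Pool.Agent.MWFE.H54.stz yqz orz baz clb faz spz sez
theorem nxz : NxzStmt := Pool.Agent.MWFE.H41.nxz
theorem sbz : SbzStmt := Pool.Agent.MWFE.H11.sbz faz fsz spz sez nxz
theorem eaz : EazStmt := Pool.Agent.MWFE.H7.eaz faz stz sbz
theorem re0 : Re0Stmt := Pool.Agent.MWFE.H65.re0
theorem rez : RezStmt := Pool.Agent.MWFE.H98.rez lcf
theorem flz : FlzStmt := Pool.Agent.MWFE.H65.flz cpz cpb eaz re0 rez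
theorem ffe : FfeStmt := Pool.Agent.MWFE.H44.ffe pwl
theorem feq : FeqStmt := Pool.Agent.MWFE.H59.feq rcf exr mif ffe flz

/-- **`FE`, `FE'` for all periods** -/
theorem feQ : ∀ n, Helper61_MWD.FeQ n := Helper61_MWD.feQ_of feq

end Pool.Agent.MWZ.H28.Fe
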