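import Pool.Agent.Helper90_MWG.Gam
import Pool.Agent.Helper85_GN.Gn2
import Pool.Agent.Helper65_MWKP.All

/-!
# The gamma world for all periods with a condition (MP_23468a_al)
-/

set_option autoImplicit false

namespace Pool.Agent.MWZ.H28

open Pool.Agent.Helper14_MV Pool.Agent.Helper2_MV Pool.Agent.MVO Pool.Agent.MWZ

/-- the systems with `xyx ≈ xyx^(n+1)`: powers `x^(n+1)` commute, and `x²y ≈ x²yx^n` or the base -/
def SGn : MWU.Sy := fun n S =>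
  MWU.Gam n S ∧ MWGP.Rn n S ∧ (S [0, 0, 1] ([0, 0, 1] ++ X n) ∨ BaseH n S)

/-- `xytxy ≈ yxtxy` -/
def Lw (β : FIC) : Prop := RR β [0, 1, 2, 0, 1] [1, 0, 2, 0, 1]

/-- necessity on the side `xytxy ≈ yxtxy` under a condition -/
def NecMC (D : ℕ → FIC → Prop) : Prop := ∀ (n : ℕ) (β : FIC), 1 ≤ n → Per n (RR β) →
  MWU.NCR β → ModF β → MWU.Gam n (RR β) → ¬ MWU.Bet n (RR β) →
  (∀ i j : ℕ, 2 ≤ i → 2 ≤ j → RR β (List.replicate i 0 ++ List.replicate j 1)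
      (List.replicate j 1 ++ List.replicate i 0)) →
  ¬ RR β [0, 0, 1] ([0, 0, 1] ++ X n) → Lw β → D n β →
    MWZ.F (RR β) ∧ MWZ.I1 n (RR β) ∧ MWZ.I2 (RR β)

/-- adjacent non-first occurrences commute -/
theorem f'_ofn {n : ℕ} {β : FIC} (hga : MWU.Gam n (RR β)) (h0 : MWGP.Rn n (RR β)) :
    MWZ.F' (RR β) := by
  intro p q c r x y _
  have h := (MWGP.H5.gap n β hga h0 (p ++ x :: (c ++ y :: q)) r x y (by simp)).2 (by simp)
  have e : ∀ s : List ℕ, (p ++ x :: (c ++ y :: q)) ++ s = p ++ x :: (c ++ y :: (q ++ s)) := by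
    intro s
    simp
  rwa [e, e] at h

theorem gNn {D : ℕ → FIC → Prop} (h : NecMC D) :
    MWU.Nec (fun _ => True)
      (fun n β => (MWU.Gam n (RR β) ∧ ¬ MWU.Bet n (RR β)) ∧ (D n β ∨ ¬ Lw β)) SGn := by
  rintro n β hn - hp hcr - hm ⟨⟨hga, hbe⟩, hD⟩
  left
  obtain ⟨h1, h2⟩ := Pool.Agent.Helper85_GN.gam_nec' hn hp hcr hm hga hbe
  have hr : MWGP.Rn n (RR β) := h1 (n + 1) (n + 1) (by omega) (by omega)
  refine ⟨hga, hr, ?_⟩
  by_cases hk : RR β [0, 0, 1] ([0, 0, 1] ++ X n)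
  · exact Or.inl hk
  · have h3 : Lw β := h2.resolve_left hk
    have hD' := hD.resolve_right (fun h => h h3)
    obtain ⟨hF, hI1, hI2⟩ := h n β hn hp hcr hm hga hbe h1 hk h3 hD'
    exact Or.inr ⟨hF, f'_ofn hga hr, hI1, hI2⟩

theorem gSn (h : MWGP.SgmStmt) : MWU.Suf (fun _ => True) SGn := by
  rintro n β hn - hp ⟨hga, h0, hk | ⟨hf, -, h1, h2⟩⟩
  · exact MWKP.H65.kmod (n := n) (β := β) ⟨hn, hga, hk, h0⟩
  · exact (h n β ⟨hn, hp, hga, h0, hf, h1, h2⟩).2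

/-- the condition for period one -/
theorem necMC_one (h : MWG.H90.NecM) : NecMC (fun n _ => n = 1) := by
  rintro n β - hp hcr hm hga hbe h1 hk h3 rfl
  have hap := MWG.H90.ap_of hp hcr
  have hgm : RR β [0, 1, 0] [0, 1, 0, 0] := hga
  have hnb : ¬ RR β [0, 1, 0] [0, 0, 1, 0, 0] := hbe
  exact h β hm ⟨hap, hgm, hnb⟩ (h1 2 2 le_rfl le_rfl) hk h3

end Pool.Agent.MWZ.H28
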