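import Pool.Agent.Helper28_MWZ.Iso
import Pool.Agent.Helper61_MWD.DispR

/-!
# The isoterm block with a condition on the period (MP_23468a_al)
-/

set_option autoImplicit false

namespace Pool.Agent.MWZ.H28

open Pool.Agent.Helper14_MV Pool.Agent.Helper2_MV Pool.Agent.MVO Pool.Agent.MWZ
open Pool.Agent.Helper61_MWD

/-- a self-dual condition -/
def SelfDual (C : ℕ → FIC → Prop) : Prop := ∀ n β, C n β → C n (FIC.op β)

/-- the two letter base under a condition -/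
def HbC (C : ℕ → FIC → Prop) : Prop := ∀ (n : ℕ) (β : FIC), LRW n β → C n β → MWNP.HBP n β

/-- the world `x²y² ≈ y²x²`, `L` under a condition -/
def It2C (C : ℕ → FIC → Prop) : Prop := ∀ (n : ℕ) (β : FIC), LRW n β → C n β → MWNP.HBP n β →
  MWZ.R0 (RR β) ∧ MWZ.L n (RR β) → MWZ.I1 n (RR β) ∧ MWZ.I2 (RR β)

/-- necessity under a condition -/
theorem necC {C : ℕ → FIC → Prop} (hC : SelfDual C) (hhb : HbC C) (h2 : It2C C)
    (h3 : ∀ n, It3 n) (h8 : ∀ n, It8 n) {n : ℕ} (hn : 1 ≤ n) (β : FIC)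
    (hp : Per n (RR β)) (hi : Iso3 β) (hm : ModF β) (h12 : ¬ (S1 (RR β) ∧ S2 (RR β)))
    (h12' : ¬ (S1 (RR (FIC.op β)) ∧ S2 (RR (FIC.op β)))) (hx : C n β) :
    SysH n (RR β) ∨ SysH n (RR (FIC.op β)) := by
  have key : ∀ γ : FIC, LRW n γ → C n γ → SysH n (RR γ) := by
    intro γ hw he
    have hb := hhb n γ hw he
    refine MWZ.H65.phf_sys RowsP.mwnp_phf n γ hb hw.iso hw.md ?_
    rcases MWZ.H65.two_of_phf RowsP.mwnp_phf hb hw.iso hw.md with h | h | h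
    · exact bas_of hw (h2 n γ hw he hb h)
    · exact bas_of hw (h3 n γ hw hb h)
    · exact bas_of hw (h8 n γ hw hb h.1)
  have mk : ∀ γ : FIC, MWZ.Per n (RR γ) → Iso3 γ → ModF γ →
      ¬ (MWZ.S1 (RR γ) ∧ MWZ.S2 (RR γ)) → ¬ (MWZ.S1 (RR (FIC.op γ)) ∧ MWZ.S2 (RR (FIC.op γ))) →
      MWZ.R n (RR γ) → LRW n γ := by
    intro γ hp H hM h1 h3 hr
    obtain ⟨hl, hrx⟩ := lxrx' hM H h1 h3
    exact ⟨hn, hp, H, hM, hr, fun h => h1 ⟨s1_iff.2 h.1, s2_iff.2 h.2⟩,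
      fun h => h3 ⟨s1op_iff.2 h.1, s2op_iff.2 h.2⟩, hl, hrx⟩
  rcases MWZ.H28.div2 hn hp hm hi with h | h
  · left
    exact key β (mk β hp hi hm h12 h12' (r_of_lr h)) hx
  · right
    refine key (FIC.op β) (mk (FIC.op β) (MWZ.H28.per_op hp) (MWZ.H28.iso3_op hi) (op_modF hm)
      h12' ?_ (r_op_of_lrd h)) (hC n β hx)
    rw [(MWZ.H28.opr β).2.2]
    exact h12

/-- the condition or one of the two exchange worlds -/
def CE (C : ℕ → FIC → Prop) (n : ℕ) (β : FIC) : Prop :=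
  C n β ∨ (S1 (RR β) ∧ S2 (RR β)) ∨ (S1 (RR (FIC.op β)) ∧ S2 (RR (FIC.op β)))

/-- necessity of the isoterm block under a condition -/
theorem iNC {C : ℕ → FIC → Prop} (hC : SelfDual C) (hhb : HbC C) (h2 : It2C C)
    (h3 : ∀ n, It3 n) (h8 : ∀ n, It8 n) :
    MWU.Nec (fun _ => True) (fun n β => Iso3 β ∧ CE C n β) SI := by
  rintro n β hn - hp - - hm ⟨hi, hx⟩
  by_cases h12 : S1 (RR β) ∧ S2 (RR β)
  · exact Or.inl (Or.inl (necA_final n β hn hp hi h12.1 h12.2 hm))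
  · by_cases h12' : S1 (RR (FIC.op β)) ∧ S2 (RR (FIC.op β))
    · exact Or.inr (Or.inl (necA_final n (FIC.op β) hn (per_op hp) (iso3_op hi) h12'.1 h12'.2
        (op_modF hm)))
    · have hx' := (hx.resolve_right (fun h => h.elim h12 h12'))
      rcases necC hC hhb h2 h3 h8 hn β hp hi hm h12 h12' hx' with h | h
      · exact Or.inl (Or.inr h)
      · exact Or.inr (Or.inr h)

end Pool.Agent.MWZ.H28
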