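import Pool.Agent.Helper28_MWZ.Mix

/-!
# Assembly with restricted necessity (MP_23468a_al)
-/

set_option autoImplicit false

namespace Pool.Agent.MWZ.H28.Mix2

open Pool.Agent.Helper14_MV Pool.Agent.Helper2_MV Pool.Agent.MVO Pool.Agent.MWZ Pool.Agent.MWU

variable {β : FIC} {n : ℕ} {SI SB SG : MWU.Sy} {HI HG : ℕ → FIC → Prop}

/-- all systems -/
def SysU (SI SB SG : MWU.Sy) : MWU.Sy := fun n S => SC S ∨ SI n S ∨ SB n S ∨ SG n S

/-- necessity for fully invariant congruences -/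
theorem nec (iN : Nec (fun _ => True) (fun n β => Iso3 β ∧ HI n β) SI)
    (bN : Nec (fun _ => True) (fun n β => Bet n (RR β)) SB)
    (gN : Nec (fun _ => True) (fun n β => (Gam n (RR β) ∧ ¬ Bet n (RR β)) ∧ HG n β) SG)
    (hn : 1 ≤ n) (hp : Per n (RR β)) (h : MWU.NCR β) (hc : ¬ Cen β) (hm : ModF β)
    (hI : Iso3 β → HI n β) (hG : Gam n (RR β) → HG n β)
    (hG' : Gam n (RR (FIC.op β)) → HG n (FIC.op β)) :
    SysU SI SB SG n (RR β) ∨ SysU SI SB SG n (Rev (RR β)) := by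
  have hm' := op_modF hm
  have hp' := per_op hp
  have hc' : ¬ Cen (FIC.op β) := fun h => hc (H83.cen_op h)
  have h' := H83.ncr_op h
  by_cases h3 : Iso3 β
  · rcases iN n β hn trivial hp h hc hm ⟨h3, hI h3⟩ with h4 | h4
    · exact Or.inl (Or.inr (Or.inl h4))
    · exact Or.inr (Or.inr (Or.inl h4))
  by_cases hb : Bet n (RR β)
  · rcases bN n β hn trivial hp h hc hm hb with h5 | h5
    · exact Or.inl (Or.inr (Or.inr (Or.inl h5)))
    · exact Or.inr (Or.inr (Or.inr (Or.inl h5)))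
  have hb' : ¬ Bet n (RR (FIC.op β)) := by
    intro h5
    apply hb
    have h6 := al_op h5
    rwa [op_op'] at h6
  rcases H83.cases_xyx hn hp h h3 with h4 | h4 | h4 | h4 | h4
  · exact Or.inl (Or.inl (H83.cls_nec hm h hc h4))
  · refine Or.inr (Or.inl ?_)
    exact H83.cls_nec (β := FIC.op β) hm' h' hc' h4
  · rcases gN n β hn trivial hp h hc hm ⟨⟨h4, hb⟩, hG h4⟩ with h5 | h5
    · exact Or.inl (Or.inr (Or.inr (Or.inr h5)))
    · exact Or.inr (Or.inr (Or.inr (Or.inr h5)))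
  · rcases gN n (FIC.op β) hn trivial hp' h' hc' hm' ⟨⟨h4, hb'⟩, hG' h4⟩ with h5 | h5
    · exact Or.inr (Or.inr (Or.inr (Or.inr h5)))
    · rw [rev_eq, H83.rev_rev] at h5
      exact Or.inl (Or.inr (Or.inr (Or.inr h5)))
  · exact absurd h4 hb

/-- sufficiency for fully invariant congruences -/
theorem suf (iS : Suf (fun _ => True) SI) (bS : Suf (fun _ => True) SB)
    (gS : Suf (fun _ => True) SG) (hn : 1 ≤ n) (hp : Per n (RR β))
    (h : SysU SI SB SG n (RR β)) : ModF β := by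
  rcases h with h | h | h | h
  · exact H83.cls_suf hn hp h
  · exact iS n β hn trivial hp h
  · exact bS n β hn trivial hp h
  · exact gS n β hn trivial hp h

/-- the condition: some period satisfies the two conditions -/
def Cond (HI HG : ℕ → FIC → Prop) (β : FIC) : Prop :=
  ∀ n, 1 ≤ n → Per n (RR β) → ∃ n', 1 ≤ n' ∧ Per n' (RR β) ∧ (Iso3 β → HI n' β) ∧
    (Gam n' (RR β) → HG n' β) ∧ (Gam n' (RR (FIC.op β)) → HG n' (FIC.op β))

/-- **main theorem with conditions** -/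
theorem main (iN : Nec (fun _ => True) (fun n β => Iso3 β ∧ HI n β) SI)
    (bN : Nec (fun _ => True) (fun n β => Bet n (RR β)) SB)
    (gN : Nec (fun _ => True) (fun n β => (Gam n (RR β) ∧ ¬ Bet n (RR β)) ∧ HG n β) SG)
    (iS : Suf (fun _ => True) SI) (bS : Suf (fun _ => True) SB)
    (gS : Suf (fun _ => True) SG) (V : Variety) (hV : Cond HI HG (th V)) :
    V.ModularLattice ↔ V.CompletelyRegular ∨
      (Hpc V ∧ (¬ Xyx V ∨ MVO.Sys.Good (VS V) ∨ MVO.Sys.Good (Rev (VS V)))) ∨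
      ∃ n, 1 ≤ n ∧ Per n (VS V) ∧ (SysU SI SB SG n (VS V) ∨ SysU SI SB SG n (Rev (VS V))) := by
  by_cases hcr : V.CompletelyRegular
  · exact ⟨fun _ => Or.inl hcr, fun _ => cr_mod hcr⟩
  constructor
  · intro hm
    right
    by_cases hh : Hpc V
    · exact Or.inl ⟨hh, (hpc_iff hh).1 hm⟩
    right
    obtain ⟨n, hn, hp⟩ := (hpc_or_per hcr hm).resolve_left hh
    obtain ⟨n', hn', hp', h1, h2, h3⟩ := hV n hn hp
    exact ⟨n', hn', hp', nec (β := th V) iN bN gN hn' hp' (ncr_th hcr) hh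
      ((modular_iff V).1 hm) h1 h2 h3⟩
  · rintro (h | ⟨h, h3⟩ | ⟨n, hn, hp, h⟩)
    · exact absurd h hcr
    · exact (hpc_iff h).2 h3
    · rw [modular_iff]
      rcases h with h | h
      · exact suf (β := th V) iS bS gS hn hp h
      · exact modF_op (suf (β := FIC.op (th V)) iS bS gS hn (per_op hp) h)

end Pool.Agent.MWZ.H28.Mix2
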