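import Pool.Agent.Helper28_MWZ.It
import Pool.Agent.Helper28_MWZ.IsoU
import Pool.Agent.Helper28_MWZ.Gamn
import Pool.Agent.Helper28_MWZ.Mix2
import Pool.Agent.Helper70_MWR.Brg
import Pool.Agent.Helper96_MWV.Out2
import Pool.Agent.Helper29_MWV.ASM
import Pool.Agent.Helper20_MWGP.Comp

/-!
# The classification with conditions for the periods greater than one (MP_23468a_al)
-/

set_option autoImplicit false

namespace Pool.Agent.MWZ.H28

open Pool.Agent.Helper14_MV Pool.Agent.Helper2_MV Pool.Agent.MVO Pool.Agent.MWZ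
open Pool.Agent.Helper61_MWD

/-- the condition in the gamma world -/
def CG (D : ℕ → FIC → Prop) (n : ℕ) (β : FIC) : Prop := MWU.Bet n (RR β) ∨ D n β ∨ ¬ Lw β

/-- **the classification with conditions** -/
theorem fin0 {C D : ℕ → FIC → Prop} (hC : SelfDual C) (hb : HbC C)
    (hP : MWT.PntStmt) (hM : NecMC D) (V : Variety)
    (hV : Mix2.Cond (CE C) (CG D) (th V)) :
    V.ModularLattice ↔ V.CompletelyRegular ∨
      (Hpc V ∧ (¬ Xyx V ∨ MVO.Sys.Good (VS V) ∨ MVO.Sys.Good (Rev (VS V)))) ∨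
      ∃ n, 1 ≤ n ∧ Per n (VS V) ∧ (Mix2.SysU SI MWU.SB SGn n (VS V) ∨
        Mix2.SysU SI MWU.SB SGn n (Rev (VS V))) := by
  refine Mix2.main (HI := CE C) (HG := CG D) ?_ (Pool.Agent.Helper70_MWR.Brg.bN _) ?_
    iS_final (Pool.Agent.Helper70_MWR.Brg.bS _) (gSn Pool.Agent.MWGP.Comp.sgm) V hV
  · exact iNC hC hb
      (fun n β hw _ hb hs => Pool.Agent.Helper96_MWV.it2p hP Pool.Agent.MWV.H29.rfil β hw hb hs)
      it3F it8F
  · rintro n β hn hQ hp hcr hc hm ⟨h, h'⟩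
    exact gNn hM n β hn hQ hp hcr hc hm ⟨h, h'.resolve_left h.2⟩

/-- period one -/
def One (n : ℕ) (_ : FIC) : Prop := n = 1

theorem one_op : SelfDual One := fun _ _ h => h

theorem hb_one (h1 : HbS 1) : HbC One := by
  rintro n β hw rfl
  exact h1 β hw

/-- the condition on a variety: if `x² ≈ x^(n+2)` but not `x² ≈ x³`, then (i) if `xyx` is an isoterm, the
variety or its dual satisfies both exchange laws, (ii) if `xyx ≈ xyx^(n+1)`, then
`xyx ≈ x^(n+1)yx^(n+1)` or not `xytxy ≈ yxtxy`, (iii) the dual of (ii) -/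
def Cov1 (V : Variety) : Prop := ∀ n, 1 ≤ n → Per n (VS V) → Per 1 (VS V) ∨
  ((Xyx V → (S1 (VS V) ∧ S2 (VS V)) ∨ (S1 (Rev (VS V)) ∧ S2 (Rev (VS V)))) ∧
    (MWU.Gam n (VS V) → MWU.Bet n (VS V) ∨ ¬ VS V [0, 1, 2, 0, 1] [1, 0, 2, 0, 1]) ∧
    (MWU.Gam n (Rev (VS V)) → MWU.Bet n (Rev (VS V)) ∨
      ¬ Rev (VS V) [0, 1, 2, 0, 1] [1, 0, 2, 0, 1]))

theorem xyx_of_iso3 {V : Variety} (h : Iso3 (th V)) : Xyx V := by
  intro w hw
  have h1 : RR (th V) [0, 1, 0] (FreeMonoid.toList w) := hw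
  have h2 := h _ h1
  have h3 : FreeMonoid.ofList (FreeMonoid.toList w) = FreeMonoid.ofList [0, 1, 0] := by rw [h2]
  exact h3

theorem cov1 {V : Variety} (h : Cov1 V) : Mix2.Cond (CE One) (CG One) (th V) := by
  intro n hn hp
  rcases h n hn hp with h1 | ⟨h1, h2, h3⟩
  · exact ⟨1, le_rfl, h1, fun _ => Or.inl rfl, fun _ => Or.inr (Or.inl rfl),
      fun _ => Or.inr (Or.inl rfl)⟩
  · refine ⟨n, hn, hp, fun hi => Or.inr (h1 (xyx_of_iso3 hi)), fun hg => ?_, fun hg => ?_⟩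
    · rcases h2 hg with h | h
      · exact Or.inl h
      · exact Or.inr (Or.inr h)
    · rcases h3 hg with h | h
      · exact Or.inl h
      · exact Or.inr (Or.inr h)

end Pool.Agent.MWZ.H28
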