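import Pool.Agent.MWLE.Fin
import Pool.Agent.Helper54_MWGN.Comp
import Pool.Agent.Helper90_MWG.Gam

/-!
# Necessity in the gamma world of period one (MP_23468a_al)
-/

set_option autoImplicit false

namespace Pool.Agent.MWZ.H28

open Pool.Agent.Helper14_MV Pool.Agent.Helper2_MV Pool.Agent.MVO Pool.Agent.MWZ

theorem necMF : MWG.H90.NecM := by
  intro β hm hg h1 hk h3
  have hz : Pool.Agent.MWGN.Gz β := ⟨hg, h1, h3⟩
  obtain ⟨i1, i2⟩ := Pool.Agent.MWLE.Fin.lef β hm hz hk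
  exact ⟨Pool.Agent.MWGN.Comp.g3f β hm hz i1, i1, i2⟩

end Pool.Agent.MWZ.H28
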