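import Pool.Agent.Helper28_MWZ.Fin0
import Pool.Agent.Helper28_MWZ.NecM
import Pool.Agent.Helper11_MWT.ASM
import Pool.Agent.Helper57_MWX.HbS

/-!
# The classification of the covered varieties (MP_23468a_al)
-/

set_option autoImplicit false

namespace Pool.Agent.MWZ.H28

open Pool.Agent.Helper14_MV Pool.Agent.Helper2_MV Pool.Agent.MVO Pool.Agent.MWZ
open Pool.Agent.Helper61_MWD

/-- **The classification**: all aperiodic varieties, and all others with the condition `Cov1`. -/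
theorem final (V : Variety) (hV : Cov1 V) :
    V.ModularLattice ↔ V.CompletelyRegular ∨
      (Hpc V ∧ (¬ Xyx V ∨ MVO.Sys.Good (VS V) ∨ MVO.Sys.Good (Rev (VS V)))) ∨
      ∃ n, 1 ≤ n ∧ Per n (VS V) ∧ (Mix2.SysU SI MWU.SB SGn n (VS V) ∨
        Mix2.SysU SI MWU.SB SGn n (Rev (VS V))) :=
  fin0 one_op (hb_one Pool.Agent.MWX.hbs1) Pool.Agent.MWT.H11.pntF (necMC_one necMF) V (cov1 hV)

end Pool.Agent.MWZ.H28
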