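import Pool.Agent.Helper28_MWZ.It
import Pool.Agent.Helper61_MWD.DispQ
import Pool.Agent.Helper41_MWEN.ASM

/-!
# Necessity in the isoterm world, all periods: composition (MP_23468a_al)
-/

set_option autoImplicit false

namespace Pool.Agent.MWZ.H28

open Pool.Agent.Helper14_MV Pool.Agent.Helper2_MV Pool.Agent.MVO Pool.Agent.MWZ
open Pool.Agent.Helper61_MWD

/-- `F`, `F'` over the insertion of `x^n` -/
theorem ffq (n : ℕ) : FfQ n := by
  intro β hw it
  exact Pool.Agent.MWEN.flrN n hw.pos β hw.md hw.iso it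
    (fun h => hw.s12 ⟨s1_iff.1 h.1, s2_iff.1 h.2⟩)
    (fun h => hw.s32 ⟨s1op_iff.1 h.1, s2op_iff.1 h.2⟩)

theorem bas3F (n : ℕ) : Bas3 n := fun β hw hb hs => bas_of hw (it3F n β hw hb hs)

theorem bas8F (n : ℕ) : Bas8 n := fun β hw hb hs => bas_of hw (it8F n β hw hb hs)

/-- necessity in the LR world from the three last blocks -/
theorem necQ_of {n : ℕ} (hn : 1 ≤ n) (hb : HbF n) (hi : ItQ n) (hfe : FeQ n) : NecQ n :=
  necQ n hn hb hi (ffq n) hfe RowsP.mwnp_phf (bas3F n) (bas8F n)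

end Pool.Agent.MWZ.H28
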