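import Pool.Agent.Helper28_MWZ.Mix3
import Pool.Agent.Helper28_MWZ.NecQ
import Pool.Agent.Helper41_MWU.GamRF
import Pool.Agent.Helper41_MWU.GamRS
import Pool.Agent.Helper48_MWGI.Comp

/-!
# The full classification from the three last blocks (MP_23468a_al)
-/

set_option autoImplicit false

namespace Pool.Agent.MWZ.H28

open Pool.Agent.Helper14_MV Pool.Agent.Helper2_MV Pool.Agent.MVO Pool.Agent.MWZ
open Pool.Agent.Helper61_MWD

/-- **the full classification** from `HbF`, `ItQ`, `FeQ` -/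
theorem finF (hb : ∀ n, HbF n) (hi : ∀ n, ItQ n) (hfe : ∀ n, FeQ n) (V : Variety) :
    V.ModularLattice ↔ V.CompletelyRegular ∨
      (Hpc V ∧ (¬ Xyx V ∨ MVO.Sys.Good (VS V) ∨ MVO.Sys.Good (Rev (VS V)))) ∨
      ∃ n, 1 ≤ n ∧ Per n (VS V) ∧ (Mix2.SysU SIQ MWU.SB MWU.H41.SGR n (VS V) ∨
        Mix2.SysU SIQ MWU.SB MWU.H41.SGR n (Rev (VS V))) :=
  full (fun n hn => necQ_of hn (hb n) (hi n) (hfe n))
    (fun n β hn hp h => (Pool.Agent.MWGI.Comp.su2 n β hn hp h).2)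
    Pool.Agent.MWU.H41.gNF Pool.Agent.MWU.H41.gSF V

end Pool.Agent.MWZ.H28
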