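import Pool.Agent.Helper28_MWZ.Fin0
import Pool.Agent.Helper90_MWLQ.Plug
import Pool.Agent.Helper11_MWT.ASM
import Pool.Agent.Helper57_MWX.HBm

/-!
# The classification of the covered varieties, any period (MP_23468a_al)

Covered: all aperiodic varieties, and for larger periods the varieties with `x³yxty ≈ x²yx²ty` and its
mirror image, moreover those with both exchange laws, and those on the side `x²y ≈ x²yx^n`.
-/

set_option autoImplicit false

namespace Pool.Agent.MWZ.H28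

open Pool.Agent.Helper14_MV Pool.Agent.Helper2_MV Pool.Agent.MVO Pool.Agent.MWZ
open Pool.Agent.Helper61_MWD

/-- the condition in the isoterm block: period one or the two residue crossings -/
def CR (n : ℕ) (β : FIC) : Prop := n = 1 ∨ (RC (RR β) ∧ RC' (RR β))

theorem cr_op : SelfDual CR := by
  rintro n β (h | ⟨h, h'⟩)
  · exact Or.inl h
  · exact Or.inr ⟨rc_op.1.2 h', rc_op.2.2 h⟩

theorem hb_cr : HbC CR := by
  rintro n β hw (rfl | ⟨h, h'⟩)
  · exact Pool.Agent.MWX.hbs1 β hw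
  · exact Pool.Agent.MWX.hbr n β hw h h'

/-- the condition in the gamma world -/
def DR (n : ℕ) (β : FIC) : Prop := n = 1 ∨ RC (RR β)

theorem necMC_dr : NecMC DR := by
  intro n β hn hp hcr hm hga hbe h1 hk h3 h
  refine Pool.Agent.MWLQ.H90.necMC n β hn hp hcr hm hga hbe h1 hk h3 ?_
  rcases h with rfl | h
  · exact Pool.Agent.MWLQ.H90.rc_one β hp hga
  · exact h

/-- the condition on a variety: if `x² ≈ x^(n+2)` but not `x² ≈ x³`, then (i) if `xyx` is an isoterm, the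
variety or its dual satisfies both exchange laws or both residue crossings hold, (ii) if
`xyx ≈ xyx^(n+1)`, then `xyx ≈ x^(n+1)yx^(n+1)` or not `xytxy ≈ yxtxy` or the residue crossing holds,
(iii) the dual of (ii) -/
def Cov2 (V : Variety) : Prop := ∀ n, 1 ≤ n → Per n (VS V) → Per 1 (VS V) ∨
  ((Xyx V → (S1 (VS V) ∧ S2 (VS V)) ∨ (S1 (Rev (VS V)) ∧ S2 (Rev (VS V))) ∨
      (RC (VS V) ∧ RC (Rev (VS V)))) ∧
    (MWU.Gam n (VS V) → MWU.Bet n (VS V) ∨ RC (VS V) ∨
      ¬ VS V [0, 1, 2, 0, 1] [1, 0, 2, 0, 1]) ∧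
    (MWU.Gam n (Rev (VS V)) → MWU.Bet n (Rev (VS V)) ∨ RC (Rev (VS V)) ∨
      ¬ Rev (VS V) [0, 1, 2, 0, 1] [1, 0, 2, 0, 1]))

theorem cov2 {V : Variety} (h : Cov2 V) : Mix2.Cond (CE CR) (CG DR) (th V) := by
  intro n hn hp
  rcases h n hn hp with h1 | ⟨h1, h2, h3⟩
  · exact ⟨1, le_rfl, h1, fun _ => Or.inl (Or.inl rfl), fun _ => Or.inr (Or.inl (Or.inl rfl)),
      fun _ => Or.inr (Or.inl (Or.inl rfl))⟩
  · refine ⟨n, hn, hp, fun hi => ?_, fun hg => ?_, fun hg => ?_⟩
    · rcases h1 (xyx_of_iso3 hi) with h | h | ⟨h, h'⟩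
      · exact Or.inr (Or.inl h)
      · exact Or.inr (Or.inr h)
      · exact Or.inl (Or.inr ⟨h, h'⟩)
    · rcases h2 hg with h | h | h
      · exact Or.inl h
      · exact Or.inr (Or.inl (Or.inr h))
      · exact Or.inr (Or.inr h)
    · rcases h3 hg with h | h | h
      · exact Or.inl h
      · exact Or.inr (Or.inl (Or.inr h))
      · exact Or.inr (Or.inr h)

/-- **The classification**: all aperiodic varieties, and all others with the condition `Cov2`. -/
theorem finalR (V : Variety) (hV : Cov2 V) :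
    V.ModularLattice ↔ V.CompletelyRegular ∨
      (Hpc V ∧ (¬ Xyx V ∨ MVO.Sys.Good (VS V) ∨ MVO.Sys.Good (Rev (VS V)))) ∨
      ∃ n, 1 ≤ n ∧ Per n (VS V) ∧ (Mix2.SysU SI MWU.SB SGn n (VS V) ∨
        Mix2.SysU SI MWU.SB SGn n (Rev (VS V))) :=
  fin0 cr_op hb_cr Pool.Agent.MWT.H11.pntF necMC_dr V (cov2 hV)

end Pool.Agent.MWZ.H28
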