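import Pool.Agent.Helper28_MWZ.FinF
import Pool.Agent.Helper28_MWZ.FeC
import Pool.Agent.Helper57_MWX.Hbf
import Pool.Agent.Helper96_MWQ.ItQ

/-!
# The full classification (MP_23468a_al)
-/

set_option autoImplicit false

namespace Pool.Agent.MWZ.H28

open Pool.Agent.Helper14_MV Pool.Agent.Helper2_MV Pool.Agent.MVO Pool.Agent.MWZ

/-- **the full classification**, all varieties, all periods -/
theorem final (V : Variety) :
    V.ModularLattice ↔ V.CompletelyRegular ∨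
      (Hpc V ∧ (¬ Xyx V ∨ MVO.Sys.Good (VS V) ∨ MVO.Sys.Good (Rev (VS V)))) ∨
      ∃ n, 1 ≤ n ∧ Per n (VS V) ∧ (Mix2.SysU SIQ MWU.SB MWU.H41.SGR n (VS V) ∨
        Mix2.SysU SIQ MWU.SB MWU.H41.SGR n (Rev (VS V))) :=
  finF Pool.Agent.MWX.hbf Pool.Agent.Helper96_MWQ.itq Fe.feQ V

end Pool.Agent.MWZ.H28
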