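import Pool.Agent.MWZ.FullStmts
import Pool.Agent.Helper28_MWZ.Asm
import Pool.Agent.Helper28_MWZ.Div
import Pool.Agent.Helper28_MWZ.Cls

/-!
# Assembly of the full classification from the block theorems (MP_23468a_al)
-/

set_option autoImplicit false

namespace Pool.Agent.MWZ.H28

open Pool.Agent.Helper14_MV Pool.Agent.Helper2_MV Pool.Agent.MVO Pool.Agent.MWZ

variable {β : FIC} {n : ℕ}

theorem X_r {a b : ℕ} (h : RR β (X a) (X b)) : β.r (lx ^ a) (lx ^ b) := by
  have h1 : β.r (FreeMonoid.ofList (X a)) (FreeMonoid.ofList (X b)) := h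
  rwa [ofList_X, ofList_X] at h1

theorem one_r (h : RR β [] (X 1)) : β.r (lx ^ 1) 1 := by
  have h1 : β.r (FreeMonoid.ofList (X 0)) (FreeMonoid.ofList (X 1)) := h
  rw [ofList_X, ofList_X, pow_zero] at h1
  exact β.symm h1

/-- outside of the completely regular varieties an exponent `1` or `0` is rigid -/
theorem ncr_exp (hcr : MWB.NCR β) {a b : ℕ} (h : RR β (X a) (X b)) (ha : a ≤ 1) : b = a := by
  by_contra hne
  have hab := X_r h
  rcases Nat.lt_or_ge b a with hb | hb
  · -- `a = 1`, `b = 0`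
    have h1 : a = 1 := by omega
    have h0 : b = 0 := by omega
    subst h1; subst h0
    apply hcr 1 le_rfl
    have h2 := FIC.mulR lx hab
    rw [pow_zero, one_mul, pow_one] at h2
    rw [pow_succ, pow_one]
    exact h2
  · rcases Nat.eq_zero_or_pos a with h0 | h0
    · subst h0
      apply hcr b (by omega)
      have h2 := FIC.mulR lx (β.symm hab)
      rw [pow_zero, one_mul, ← pow_succ] at h2
      exact h2
    · have h1 : a = 1 := by omega
      subst h1
      apply hcr (b - 1) (by omega)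
      rw [show b - 1 + 1 = b by omega]
      rw [pow_one] at hab
      exact β.symm hab

theorem flat_count (i : ℕ) (l : List ℕ) :
    l.flatMap (fun c => if c = i then [0] else []) = X (l.count i) := by
  induction l with
  | nil => rfl
  | cons a l ih =>
    rw [List.flatMap_cons, ih, List.count_cons]
    by_cases h : a = i
    · simp [h, X, List.replicate_succ]
    · have : ¬ (a == i) = true := by simpa using h
      simp [h]

theorem cnt_rr {l l' : List ℕ} (h : RR β l l') (i : ℕ) : RR β (X (l.count i)) (X (l'.count i)) := by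
  have := h.sub (fun c => if c = i then [0] else [])
  rwa [flat_count, flat_count] at this

/-- an identity with left side `xyx` -/
theorem xyx_form (hcr : MWB.NCR β) {l : List ℕ} (h : RR β [0, 1, 0] l) :
    ∃ a b, 2 ≤ a + b ∧ l = X a ++ 1 :: X b ∧ RR β (X 2) (X (a + b)) := by
  have h1 : l.count 1 = 1 := by
    have := cnt_rr h 1
    exact ncr_exp hcr (this : RR β (X 1) _) le_rfl
  have hi : ∀ i, i ≠ 0 → i ≠ 1 → l.count i = 0 := by
    intro i h0 h1
    have h2 := cnt_rr h i
    have h3 : [0, 1, 0].count i = 0 := by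
      rw [List.count_eq_zero]
      simp [h0, h1]
    rw [h3] at h2
    exact ncr_exp hcr h2 (Nat.zero_le _)
  have h0 : RR β (X 2) (X (l.count 0)) := cnt_rr h 0
  have h2 : 2 ≤ l.count 0 := by
    by_contra hcon
    have := ncr_exp hcr (RR.symm h0) (by omega)
    omega
  have hm : 1 ∈ l := List.count_pos_iff.1 (by omega)
  obtain ⟨A, B, rfl⟩ := List.append_of_mem hm
  rw [List.count_append, List.count_cons_self] at h1
  have hA : ∀ c ∈ A, c = 0 := by
    intro c hc
    by_contra hc0
    by_cases hc1 : c = 1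
    · subst hc1
      have := List.count_pos_iff.2 hc
      omega
    · have h3 := hi c hc0 hc1
      rw [List.count_eq_zero] at h3
      exact h3 (List.mem_append_left _ hc)
  have hB : ∀ c ∈ B, c = 0 := by
    intro c hc
    by_contra hc0
    by_cases hc1 : c = 1
    · subst hc1
      have := List.count_pos_iff.2 hc
      omega
    · have h3 := hi c hc0 hc1
      rw [List.count_eq_zero] at h3
      exact h3 (List.mem_append_right _ (List.mem_cons_of_mem _ hc))
  have eA : A = X A.length := List.eq_replicate_iff.2 ⟨rfl, hA⟩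
  have eB : B = X B.length := List.eq_replicate_iff.2 ⟨rfl, hB⟩
  have ec : (A ++ 1 :: B).count 0 = A.length + B.length := by
    rw [List.count_append, List.count_cons_of_ne (by decide)]
    rw [eA, eB]
    simp [X]
  rw [ec] at h0 h2
  refine ⟨A.length, B.length, h2, ?_, h0⟩
  rw [← eA, ← eB]

/-- iteration of `xyx ≈ x^a y x^b` -/
theorem xyx_iter {a b : ℕ} (ha : 1 ≤ a) (hb : 1 ≤ b) (h : RR β [0, 1, 0] (X a ++ 1 :: X b)) (k : ℕ) :
    RR β [0, 1, 0] (X (k * (a - 1) + 1) ++ 1 :: X (k * (b - 1) + 1)) := by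
  induction k with
  | zero => simpa [X] using RR.refl (β := β) [0, 1, 0]
  | succ k ih =>
    refine β.trans ih ?_
    have h1 := ((RR.refl (β := β) (X (k * (a - 1)))).append h).append
      (RR.refl (β := β) (X (k * (b - 1))))
    have e1 : X (k * (a - 1)) ++ [0, 1, 0] ++ X (k * (b - 1)) =
        X (k * (a - 1) + 1) ++ 1 :: X (k * (b - 1) + 1) := by
      rw [X, X, X, X, List.replicate_succ' (n := k * (a - 1)), List.replicate_succ (n := k * (b - 1))]
      simp
    have e2 : X (k * (a - 1)) ++ (X a ++ 1 :: X b) ++ X (k * (b - 1)) =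
        X ((k + 1) * (a - 1) + 1) ++ 1 :: X ((k + 1) * (b - 1) + 1) := by
      rw [show (k + 1) * (a - 1) + 1 = k * (a - 1) + a by
        rw [Nat.succ_mul]; omega, show (k + 1) * (b - 1) + 1 = b + k * (b - 1) by
        rw [Nat.succ_mul]; omega]
      unfold X
      rw [List.replicate_add (k * (a - 1)) a, List.replicate_add b (k * (b - 1))]
      simp only [List.append_assoc, List.cons_append]
    rw [e1, e2] at h1
    exact h1

/-- **the five identities** -/
theorem spl (hcr : MWB.NCR β) (hn : 1 ≤ n) (hp : Per n (RR β)) {l : List ℕ} (h : RR β [0, 1, 0] l)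
    (hne : l ≠ [0, 1, 0]) :
    Al (RR β) ∨ Al (RR (FIC.op β)) ∨ Be n (RR β) ∨ Ga n (RR β) ∨ Ga n (RR (FIC.op β)) := by
  obtain ⟨a, b, hab, rfl, h2⟩ := xyx_form hcr h
  rcases Nat.eq_zero_or_pos b with hb | hb
  · subst hb
    left
    have h3 : RR β (X a ++ [1]) (X 2 ++ [1]) := (RR.symm h2).append (RR.refl [1])
    exact β.trans h h3
  rcases Nat.eq_zero_or_pos a with ha | ha
  · subst ha
    right; left
    rw [Nat.zero_add] at h2
    have h3 : RR β (1 :: X b) (1 :: X 2) := (RR.refl [1]).append (RR.symm h2)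
    show RR β [0, 1, 0] [1, 0, 0]
    exact β.trans h h3
  have h3 := xyx_iter ha hb h n
  have red : ∀ c, 2 ≤ c → RR β (X (n * (c - 1) + 1)) (X (n + 1)) := by
    intro c hc
    apply per_mod hp
    · have : n * 1 ≤ n * (c - 1) := Nat.mul_le_mul_left n (by omega)
      omega
    · omega
    · unfold Nat.ModEq
      rw [show n * (c - 1) + 1 = 1 + n * (c - 1) by omega, show n + 1 = 1 + n * 1 by omega,
        Nat.add_mul_mod_self_left, Nat.add_mul_mod_self_left]
  right; right
  by_cases ha1 : a = 1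
  · subst ha1
    have hb2 : 2 ≤ b := by
      by_contra hcon
      have : b = 1 := by omega
      subst this
      exact hne rfl
    right; left
    show RR β [0, 1, 0] (0 :: 1 :: X (n + 1))
    have h4 : RR β ([0, 1] ++ X (n * (b - 1) + 1)) ([0, 1] ++ X (n + 1)) :=
      (RR.refl [0, 1]).append (red b hb2)
    have e : X (n * (1 - 1) + 1) ++ 1 :: X (n * (b - 1) + 1) = [0, 1] ++ X (n * (b - 1) + 1) := by
      simp [X]
    rw [e] at h3
    exact β.trans h3 h4
  by_cases hb1 : b = 1
  · subst hb1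
    right; right
    show RR β [0, 1, 0] (0 :: 1 :: X (n + 1)).reverse
    have h4 : RR β (X (n * (a - 1) + 1) ++ [1, 0]) (X (n + 1) ++ [1, 0]) :=
      (red a (by omega)).append (RR.refl [1, 0])
    have e : X (n * (a - 1) + 1) ++ 1 :: X (n * (1 - 1) + 1) = X (n * (a - 1) + 1) ++ [1, 0] := by
      simp [X]
    have e2 : (0 :: 1 :: X (n + 1)).reverse = X (n + 1) ++ [1, 0] := by
      simp [X, List.reverse_replicate]
    rw [e] at h3
    rw [e2]
    exact β.trans h3 h4
  · left
    show RR β [0, 1, 0] (X (n + 1) ++ 1 :: X (n + 1))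
    have h4 : RR β (X (n * (a - 1) + 1) ++ ([1] ++ X (n * (b - 1) + 1)))
        (X (n + 1) ++ ([1] ++ X (n + 1))) :=
      (red a (by omega)).append ((RR.refl [1]).append (red b (by omega)))
    exact β.trans h3 h4

theorem ncr_op (h : MWB.NCR β) : MWB.NCR (FIC.op β) := by
  intro k hk h1
  apply h k hk
  have h2 : β.r (lx ^ (k + 1)).reverse lx.reverse := h1
  rwa [FIC.reverse_pow, rev_lx] at h2

theorem al_op (h : Be n (RR β)) : Be n (RR (FIC.op β)) := by
  show RR β [0, 1, 0] (X (n + 1) ++ 1 :: X (n + 1)).reverse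
  have e : (X (n + 1) ++ 1 :: X (n + 1)).reverse = X (n + 1) ++ 1 :: X (n + 1) := by
    simp [X, List.reverse_replicate]
  rw [e]
  exact h

theorem r0_op (h : R0 (RR β)) : R0 (RR (FIC.op β)) := RR.symm h

theorem op_op' (β : FIC) : FIC.op (FIC.op β) = β := (opr β).2.2

theorem al_r (h : Al (RR β)) : β.r (lx * ly * lx) (lx ^ 2 * ly) := h

theorem r0_of_cm (h : β.r (lx ^ 2 * ly ^ 2) (ly ^ 2 * lx ^ 2)) : R0 (RR β) := h

/-- the theorem for varieties with `x² ≈ x^(n+2)`, fully invariant congruences -/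
theorem perF (SB SG : Sy) (hn : 1 ≤ n) (hNA : NecA) (hSA : SufA) (hNH : NecH1 n) (hSH : SufH1 n)
    (hNB : NecB1 SB n) (hSB : SufB1 SB n) (hNG : NecG1 SG n) (hSG : SufG1 SG n)
    (hp : Per n (RR β)) (hcr : MWB.NCR β) :
    ModF β ↔ SysP SB SG n (RR β) ∨ SysP SB SG n (RR (FIC.op β)) := by
  have hp' := per_op hp
  have hcr' := ncr_op hcr
  have h2 : β.r (lx ^ 2) (lx ^ (n + 2)) := X_r hp
  have nal : ∀ {γ : FIC}, Per n (RR γ) → MWB.NCR γ → Al (RR γ) → ModF γ →
      SysP SB SG n (RR γ) := by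
    intro γ hp hcr hal hm
    exact Or.inl ⟨hal, r0_of_cm (Cls.cm22 (al_r hal) hm hcr hn (X_r hp))⟩
  have nga : ∀ {γ : FIC}, Per n (RR γ) → MWB.NCR γ → Ga n (RR γ) → ModF γ →
      SysP SB SG n (RR γ) := by
    intro γ hp hcr hga hm
    exact Or.inr (Or.inr (Or.inl ⟨hga, hNG γ hp hcr hga hm⟩))
  have suf : ∀ {γ : FIC}, Per n (RR γ) → MWB.NCR γ → SysP SB SG n (RR γ) → ModF γ := by
    intro γ hp hcr h
    rcases h with ⟨h, h'⟩ | ⟨h, h'⟩ | ⟨h, h'⟩ | h | h
    · exact distF_modF (Cls.fic_dist (al_r h) (Or.inr ⟨n, hn, X_r hp, h'⟩))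
    · exact hSB γ hp hcr h h'
    · exact hSG γ hp hcr h h'
    · exact hSA n γ hn hp h
    · exact hSH γ hp h
  constructor
  · intro hm
    have hm' := op_modF hm
    by_cases hi : Iso3 β
    · by_cases h12 : S1 (RR β) ∧ S2 (RR β)
      · exact Or.inl (Or.inr (Or.inr (Or.inr (Or.inl (hNA n β hn hp hi h12.1 h12.2 hm)))))
      · by_cases h12' : S1 (RR (FIC.op β)) ∧ S2 (RR (FIC.op β))
        · exact Or.inr (Or.inr (Or.inr (Or.inr (Or.inl
            (hNA n (FIC.op β) hn hp' (iso3_op hi) h12'.1 h12'.2 hm')))))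
        · rcases hNH β hp hi hm h12 h12' with h | h
          · exact Or.inl (Or.inr (Or.inr (Or.inr (Or.inr h))))
          · exact Or.inr (Or.inr (Or.inr (Or.inr (Or.inr h))))
    · unfold Iso3 at hi
      push Not at hi
      obtain ⟨l, hl, hne⟩ := hi
      rcases spl hcr hn hp hl hne with h | h | h | h | h
      · exact Or.inl (nal hp hcr h hm)
      · exact Or.inr (nal hp' hcr' h hm')
      · rcases hNB β hp hcr h hm with h3 | h3
        · exact Or.inl (Or.inr (Or.inl ⟨h, h3⟩))
        · exact Or.inr (Or.inr (Or.inl ⟨al_op h, h3⟩))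
      · exact Or.inl (nga hp hcr h hm)
      · exact Or.inr (nga hp' hcr' h hm')
  · rintro (h | h)
    · exact suf hp hcr h
    · exact modF_op (suf hp' hcr' h)

theorem ncr_th {V : Variety} (h : ¬ V.CompletelyRegular) : MWB.NCR (th V) := by
  intro k hk h1
  exact h ((Cls.cr_iff V).2 ⟨k, hk, h1⟩)

theorem cr_mod {V : Variety} (h : V.CompletelyRegular) : V.ModularLattice := by
  obtain ⟨k, hk, h1⟩ := (Cls.cr_iff V).1 h
  rw [modular_iff]
  exact FIC.modular_CR (FIC.CR.of_letter hk h1)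

/-- **the theorem for varieties with `x² ≈ x^(n+2)`** -/
theorem thmPer (SB SG : Sy) (hn : 1 ≤ n) (hNA : NecA) (hSA : SufA) (hNH : NecH1 n) (hSH : SufH1 n)
    (hNB : NecB1 SB n) (hSB : SufB1 SB n) (hNG : NecG1 SG n) (hSG : SufG1 SG n) :
    ThmPer SB SG n := by
  intro V hp
  by_cases hcr : V.CompletelyRegular
  · exact ⟨fun _ => Or.inl hcr, fun _ => cr_mod hcr⟩
  · have h := perF (β := th V) SB SG hn hNA hSA hNH hSH hNB hSB hNG hSG hp (ncr_th hcr)
    rw [modular_iff]
    constructor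
    · intro hm
      exact Or.inr (h.1 hm)
    · intro h3
      exact h.2 (h3.resolve_left hcr)

/-- modular varieties which are not completely regular -/
theorem hpc_or_per {V : Variety} (hcr : ¬ V.CompletelyRegular) (hm : V.ModularLattice) :
    Hpc V ∨ ∃ n, 1 ≤ n ∧ Per n (VS V) := by
  by_cases hs : Sqr V
  · obtain ⟨k, -, h⟩ := B2 ((modular_iff V).1 hm) hs
    exact Or.inl ⟨k, h⟩
  · unfold Sqr at hs
    push Not at hs
    obtain ⟨w, hw, hne⟩ := hs
    obtain ⟨n, hn, h⟩ := Cls.sq_id (β := th V) (ncr_th hcr) hw hne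
    refine Or.inr ⟨n, hn, ?_⟩
    show (th V).r (FreeMonoid.ofList (X 2)) (FreeMonoid.ofList (X (n + 2)))
    rw [ofList_X, ofList_X]
    exact h

theorem not_xyx {V : Variety} :
    ¬ Xyx V ↔ ∃ w, w ≠ lx * ly * lx ∧ V.Sat (lx * ly * lx) w := by
  unfold Xyx
  push Not
  exact ⟨fun ⟨w, h, h'⟩ => ⟨w, h', h⟩, fun ⟨w, h, h'⟩ => ⟨w, h', h⟩⟩

/-- varieties with central powers -/
theorem hpc_iff {V : Variety} (h : Hpc V) :
    V.ModularLattice ↔ (¬ Xyx V ∨ Sys.Good (VS V) ∨ Sys.Good (Rev (VS V))) := by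
  have h1 := H83.final H83.rows V (Or.inr h)
  rw [not_xyx]
  constructor
  · intro hm
    exact (h1.1 hm).2
  · intro h3
    exact h1.2 ⟨h, h3⟩

/-- **THE FULL THEOREM** -/
theorem thmFull (SB SG : Sy) (hNA : NecA) (hSA : SufA) (hNH : NecH) (hSH : SufH)
    (hB : ∀ n, 1 ≤ n → NecB1 SB n ∧ SufB1 SB n) (hG : ∀ n, 1 ≤ n → NecG1 SG n ∧ SufG1 SG n) :
    ThmFull SB SG := by
  intro V
  by_cases hcr : V.CompletelyRegular
  · exact ⟨fun _ => Or.inl hcr, fun _ => cr_mod hcr⟩
  constructor
  · intro hm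
    right
    rcases hpc_or_per hcr hm with h | ⟨n, hn, h⟩
    · exact Or.inl ⟨h, (hpc_iff h).1 hm⟩
    · right
      refine ⟨n, hn, h, ?_⟩
      exact ((thmPer SB SG hn hNA hSA (fun β => hNH n β hn) (fun β => hSH n β hn) (hB n hn).1
        (hB n hn).2 (hG n hn).1 (hG n hn).2 V h).1 hm).resolve_left hcr
  · rintro (h | ⟨h, h3⟩ | ⟨n, hn, h, h3⟩)
    · exact absurd h hcr
    · exact (hpc_iff h).2 h3
    · exact (thmPer SB SG hn hNA hSA (fun β => hNH n β hn) (fun β => hSH n β hn) (hB n hn).1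
        (hB n hn).2 (hG n hn).1 (hG n hn).2 V h).2 (Or.inr h3)

/-- aperiodic varieties: the period is one -/
theorem per_one {V : Variety} {k : ℕ} (h : V.Sat (lx ^ (k + 1)) (lx ^ k)) (hn : 1 ≤ n)
    (hp : Per n (VS V)) : Per 1 (VS V) := by
  have hp' : RR (th V) (X 2) (X (n + 2)) := hp
  have h1 : RR (th V) (X (k + 1)) (X k) := by
    show (th V).r (FreeMonoid.ofList (X (k + 1))) (FreeMonoid.ofList (X k))
    rw [ofList_X, ofList_X]
    exact h
  have key : ∀ m, RR (th V) (X (k + 1 + m)) (X (k + m)) := by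
    intro m
    have h2 := h1.append (RR.refl (β := th V) (X m))
    rwa [X, X, X, ← List.replicate_add, ← List.replicate_add] at h2
  have h2 : RR (th V) (X 2) (X (2 + n * k)) := per_add hp' le_rfl k
  have h3 : RR (th V) (X 3) (X (3 + n * k)) := per_add hp' (by omega) k
  have hk : k ≤ n * k := Nat.le_mul_of_pos_left k hn
  have h4 := key (2 + n * k - k)
  rw [show k + 1 + (2 + n * k - k) = 3 + n * k by omega, show k + (2 + n * k - k) = 2 + n * k by omega]
    at h4
  exact (th V).trans h2 ((th V).trans (RR.symm h4) (RR.symm h3))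

/-- **the full theorem for aperiodic varieties** -/
theorem thmAper (SB SG : Sy) (hNA : NecA) (hSA : SufA) (hNH : NecH1 1) (hSH : SufH1 1)
    (hNB : NecB1 SB 1) (hSB : SufB1 SB 1) (hNG : NecG1 SG 1) (hSG : SufG1 SG 1) :
    ThmAper SB SG := by
  have hP := thmPer SB SG le_rfl hNA hSA hNH hSH hNB hSB hNG hSG
  rintro V ⟨k, hk⟩
  have hsq : ∀ {m : ℕ}, V.Sat (lx ^ (m + 1)) lx → 1 ≤ m → V.Sat (lx ^ 2) lx := by
    intro m h hm
    -- `x = x^(m+1) = ...`, multiply up to exponent `k`
    have key : ∀ j, (th V).r (lx ^ (m * j + 1)) lx := by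
      intro j
      induction j with
      | zero => simpa using (th V).refl lx
      | succ j ih =>
        have h2 := FIC.mulR (lx ^ m) ih
        rw [← pow_add] at h2
        have e : lx * lx ^ m = lx ^ (m + 1) := (pow_succ' lx m).symm
        rw [e] at h2
        rw [show m * (j + 1) + 1 = m * j + 1 + m by rw [Nat.mul_succ]; omega]
        exact (th V).trans h2 h
    have h1 := key k
    have hk' : k ≤ m * k := Nat.le_mul_of_pos_left k hm
    have h2 := FIC.mulR (lx ^ (m * k + 1 - k)) (show (th V).r (lx ^ (k + 1)) (lx ^ k) from hk)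
    rw [← pow_add, ← pow_add, show k + (m * k + 1 - k) = m * k + 1 by omega,
      show k + 1 + (m * k + 1 - k) = m * k + 1 + 1 by omega] at h2
    have h3 := FIC.mulR lx h1
    rw [← pow_succ, ← pow_two] at h3
    exact (th V).trans ((th V).symm h3) ((th V).trans h2 h1)
  constructor
  · intro hm
    by_cases hcr : V.CompletelyRegular
    · obtain ⟨m, hm1, h⟩ := (Cls.cr_iff V).1 hcr
      exact Or.inr (Or.inr (Or.inl (hsq h hm1)))
    · rcases hpc_or_per hcr hm with h | ⟨n, hn, h⟩
      · exact Or.inl ⟨h, (hpc_iff h).1 hm⟩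
      · have h1 := per_one hk hn h
        refine Or.inr (Or.inr (Or.inr ⟨?_, ((hP V h1).1 hm).resolve_left hcr⟩))
        exact X_r (β := th V) h1
  · rintro (⟨h, h3⟩ | h | h | ⟨h, h3⟩)
    · exact (hpc_iff h).2 h3
    · apply cr_mod
      rw [Cls.cr_iff]
      refine ⟨1, le_rfl, ?_⟩
      have h2 := FIC.mulR lx (show (th V).r lx 1 from h)
      rw [one_mul, ← pow_two] at h2
      exact h2
    · apply cr_mod
      rw [Cls.cr_iff]
      exact ⟨1, le_rfl, h⟩
    · refine (hP V ?_).2 (Or.inr h3)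
      show (th V).r (FreeMonoid.ofList (X 2)) (FreeMonoid.ofList (X (1 + 2)))
      rw [ofList_X, ofList_X]
      exact h

end Pool.Agent.MWZ.H28
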