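import Pool.Agent.Helper15_MWC.NDA
import Pool.Agent.Helper19_MWL.TA2
import Pool.Agent.Helper22_MWL.ABS
import Pool.Agent.Helper25_MWC.CLN
import Pool.Agent.Helper28_MVO.FMA
import Pool.Agent.Helper2_MWC.BMP
import Pool.Agent.Helper30_MWC.KYR
import Pool.Agent.Helper30_MWL.NDF
import Pool.Agent.Helper33_MWC.CLR
import Pool.Agent.Helper33_MWC.GTI
import Pool.Agent.Helper35_MVO.FAA
import Pool.Agent.Helper35_MVO.RGA
import Pool.Agent.Helper37_MWC.BMN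
import Pool.Agent.Helper37_MWC.CAA
import Pool.Agent.Helper45_MWC.SPR
import Pool.Agent.Helper47_MWC.CR0
import Pool.Agent.Helper51_MWC.CAB
import Pool.Agent.Helper54_MWL.HVP
import Pool.Agent.Helper62_MWC.CBB
import Pool.Agent.Helper62_MWC.KPR
import Pool.Agent.Helper62_MWC.TYC
import Pool.Agent.Helper65_MWC.MST
import Pool.Agent.Helper69_MWC.CBD
import Pool.Agent.Helper70_MWC.TBR
import Pool.Agent.Helper74_MWC.ARB
import Pool.Agent.Helper74_MWC.LNI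
import Pool.Agent.Helper74_MWC.NRA
import Pool.Agent.Helper74_MWC.WBI
import Pool.Agent.Helper75_MWL.TA1
import Pool.Agent.Helper77_MWC.BEL
import Pool.Agent.Helper77_MWC.KPG
import Pool.Agent.Helper77_MWL.TRN
import Pool.Agent.Helper7_MWL.KEY
import Pool.Agent.Helper81_MWC.CBA
import Pool.Agent.Helper81_MWC.CBC
import Pool.Agent.Helper91_MVO.NFA
import Pool.Agent.Helper95_MWC.BTL
import Pool.Agent.Helper95_MWL.REV
import Pool.Agent.Helper97_MVO.GAA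
import Pool.Agent.Helper97_MWC.SHF
import Pool.Agent.Helper97_MWL.ARR
import Pool.Agent.Helper98_MWC.SPG
import Pool.Agent.Helper9_MVO.GTN

/-!
# All rows used by theorem S2 (MP_23468a_al)
-/

set_option autoImplicit false

namespace Pool.Agent.MWZ.H28.RowsC

theorem mwl_trn : Pool.Agent.MWL.TrnStmt :=
  Pool.Agent.MWL.H77.trn 

theorem mwl_hvp : Pool.Agent.MWL.HvpStmt :=
  Pool.Agent.MWL.H54.hvp 

theorem mwl_abs : Pool.Agent.MWL.AbsStmt :=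
  Pool.Agent.MWL.H22.abs mwl_trn mwl_hvp

theorem mwl_arr : Pool.Agent.MWL.ArrStmt :=
  Pool.Agent.MWL.H97.arr mwl_trn mwl_hvp mwl_abs

theorem mwl_rev : Pool.Agent.MWL.RevStmt :=
  Pool.Agent.MWL.H95.rev 

theorem mwc_arb : Pool.Agent.MWC.ArbStmt :=
  Pool.Agent.MWC.H74.arb mwl_arr mwl_rev

theorem mvo_fma : Pool.Agent.MVO.FmaStmt :=
  Pool.Agent.MVO.H28.fma 

theorem mvo_nfa : Pool.Agent.MVO.NfaStmt :=
  Pool.Agent.MVO.H91.nfa mvo_fma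

theorem mvo_faa : Pool.Agent.MVO.FaaStmt :=
  Pool.Agent.MVO.H35.faa mvo_nfa

theorem mwl_key : Pool.Agent.MWL.KeyStmt :=
  Pool.Agent.MWL.H7.key mwl_trn mwl_hvp mwl_abs

theorem mwl_ndf : Pool.Agent.MWL.NdfStmt :=
  Pool.Agent.MWL.H30.ndf 

theorem mwc_kyr : Pool.Agent.MWC.KyrStmt :=
  Pool.Agent.MWC.H30.kyr mwl_trn mwl_key mwl_abs mwl_rev mwl_ndf

theorem mwl_ta1 : Pool.Agent.MWL.Ta1Stmt :=
  Pool.Agent.MWL.H75.ta1 mwl_trn mwl_hvp mwl_abs mwl_arr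

theorem mwl_ta2 : Pool.Agent.MWL.Ta2Stmt :=
  Pool.Agent.MWL.H19.ta2 mwl_trn mwl_hvp mwl_abs mwl_arr mwl_ta1

theorem mwc_tbr : Pool.Agent.MWC.TbrStmt :=
  Pool.Agent.MWC.H70.tbr mwl_trn mwl_hvp mwl_ta1 mwl_ta2 mwl_rev

theorem mwc_shf : Pool.Agent.MWC.ShfStmt :=
  Pool.Agent.MWC.H97.shf 

theorem mwc_tyc : Pool.Agent.MWC.TycStmt :=
  Pool.Agent.MWC.H62.tyc mvo_faa mwc_kyr mwc_tbr mwc_shf

theorem mwc_bmn : Pool.Agent.MWC.BmnStmt :=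
  Pool.Agent.MWC.H37.bmn mvo_faa mwc_kyr mwc_shf

theorem mwc_btl : Pool.Agent.MWC.BtlStmt :=
  Pool.Agent.MWC.H95.btl mvo_faa mwc_bmn mwc_shf

theorem mvo_gaa : Pool.Agent.MVO.GaaStmt :=
  Pool.Agent.MVO.H97.gaa mvo_nfa

theorem mvo_rga : Pool.Agent.MVO.RgaStmt :=
  Pool.Agent.MVO.H35.rga mvo_nfa

theorem mvo_gtn : Pool.Agent.MVO.GtnStmt :=
  Pool.Agent.MVO.H9.gtn 

theorem mwc_wbi : Pool.Agent.MWC.WbiStmt :=
  Pool.Agent.MWC.H74.wbi 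

theorem mwc_lni : Pool.Agent.MWC.LniStmt :=
  Pool.Agent.MWC.H74.lni mwc_wbi

theorem mwc_gti : Pool.Agent.MWC.GtiStmt :=
  Pool.Agent.MWC.H33.gti mwc_wbi mvo_nfa

theorem mwc_spg : Pool.Agent.MWC.SpgStmt :=
  Pool.Agent.MWC.H98.spg 

theorem mwc_kpg : Pool.Agent.MWC.KpgStmt :=
  Pool.Agent.MWC.H77.kpg 

theorem mwc_bmp : Pool.Agent.MWC.BmpStmt :=
  Pool.Agent.MWC.H2.bmp 

theorem mwc_clr : Pool.Agent.MWC.ClrStmt :=
  Pool.Agent.MWC.H33.clr mwc_kyr mwc_tbr mwc_shf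

theorem mwc_kpr : Pool.Agent.MWC.KprStmt :=
  Pool.Agent.MWC.H62.kpr mwc_shf mwc_bmp

theorem mwc_spr : Pool.Agent.MWC.SprStmt :=
  Pool.Agent.MWC.H45.spr mwc_shf mwc_bmp

theorem mwc_bel : Pool.Agent.MWC.BelStmt :=
  Pool.Agent.MWC.H77.bel mwc_shf mwc_bmp mwc_bmn mvo_faa

theorem mwc_mst : Pool.Agent.MWC.MstStmt :=
  Pool.Agent.MWC.H65M.mst mwl_trn mvo_gaa mvo_rga mvo_gtn mwc_lni mwc_gti mwc_spg mwc_kpg mwc_shf mwc_bmp mwc_clr mwc_kpr mwc_spr mwc_bel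

theorem mwc_cr0 : Pool.Agent.MWC.Cr0Stmt :=
  Pool.Agent.MWC.H47.cr0 mwc_arb mwc_tyc mwc_btl mwc_mst

theorem mwc_caa : Pool.Agent.MWC.CaaStmt :=
  Pool.Agent.MWC.H37.caa mwc_arb mwc_tyc mwc_btl mwc_mst

theorem mwc_cab : Pool.Agent.MWC.CabStmt :=
  Pool.Agent.MWC.H51.cab mwc_arb mwc_tyc mwc_btl mwc_mst

theorem mwc_cln : Pool.Agent.MWC.ClnStmt :=
  Pool.Agent.MWC.H25.cln mwc_kyr mwc_tbr mwc_arb mwl_trn mvo_faa

theorem mwc_nra : Pool.Agent.MWC.NraStmt :=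
  Pool.Agent.MWC.H74.nra mwc_cr0 mwc_caa mwc_cab mwc_cln

theorem mwc_cba : Pool.Agent.MWC.CbaStmt :=
  Pool.Agent.MWC.H81.cba mwc_arb mwc_tyc mwc_btl mwc_mst mwc_cr0

theorem mwc_cbb : Pool.Agent.MWC.CbbStmt :=
  Pool.Agent.MWC.H62.cbb mwc_arb mwc_tyc mwc_btl mwc_mst

theorem mwc_cbc : Pool.Agent.MWC.CbcStmt :=
  Pool.Agent.MWC.H81.cbc mwc_arb mwc_tyc mwc_btl mwc_mst

theorem mwc_cbd : Pool.Agent.MWC.CbdStmt :=
  Pool.Agent.MWC.H69.cbd mwc_arb mwc_tyc mwc_btl mwc_mst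

theorem mwc_nda : Pool.Agent.MWC.NdaStmt :=
  Pool.Agent.MWC.H15.nda mwc_cr0 mwc_cba mwc_cbb mwc_cbc mwc_cbd mwc_cln

end Pool.Agent.MWZ.H28.RowsC
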