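import Pool.Agent.Helper13_MWNP.PCO
import Pool.Agent.Helper16_MWNP.PH3
import Pool.Agent.Helper19_MWL.TA2
import Pool.Agent.Helper19_MWNP.PDD
import Pool.Agent.Helper22_MWL.ABS
import Pool.Agent.Helper23_MWNP.P1B
import Pool.Agent.Helper23_MWNP.P4D
import Pool.Agent.Helper24_MWN.NCL
import Pool.Agent.Helper27_MWNP.PHB
import Pool.Agent.Helper30_MWL.NDF
import Pool.Agent.Helper30_MWN.NCT
import Pool.Agent.Helper33_MWNP.P4C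
import Pool.Agent.Helper34_MWNP.PCX
import Pool.Agent.Helper37_MWNP.P4A
import Pool.Agent.Helper37_MWS.CHK
import Pool.Agent.Helper39_MWN.NGM
import Pool.Agent.Helper3_MWN.NTB
import Pool.Agent.Helper3_MWNP.P3C
import Pool.Agent.Helper42_MWN.NKA
import Pool.Agent.Helper45_MWL.RMV
import Pool.Agent.Helper47_MWNP.PHF
import Pool.Agent.Helper50_MWNP.P4E
import Pool.Agent.Helper51_MWL.DMX
import Pool.Agent.Helper52_MWNP.PPH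
import Pool.Agent.Helper54_MWL.HVP
import Pool.Agent.Helper59_MWNP.P1A
import Pool.Agent.Helper5_MVO.ONE
import Pool.Agent.Helper60_MWNP.PIS
import Pool.Agent.Helper62_MWN.NPE
import Pool.Agent.Helper62_MWNP.PH8
import Pool.Agent.Helper64_MWNP.P3D
import Pool.Agent.Helper74_MWNP.PEX
import Pool.Agent.Helper75_MWL.TA1
import Pool.Agent.Helper75_MWN.NIB
import Pool.Agent.Helper75_MWNP.P3A
import Pool.Agent.Helper76_MWNP.P4B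
import Pool.Agent.Helper77_MWL.TRN
import Pool.Agent.Helper77_MWN.NIN
import Pool.Agent.Helper77_MWNP.P2X
import Pool.Agent.Helper7_MWL.KEY
import Pool.Agent.Helper7_MWNP.P3B
import Pool.Agent.Helper80_MWN.NDC
import Pool.Agent.Helper85_MWN.NGA
import Pool.Agent.Helper88_MWN.NBF
import Pool.Agent.Helper89_MWNP.P5X
import Pool.Agent.Helper90_MWL.CLO
import Pool.Agent.Helper95_MWN.NVG
import Pool.Agent.Helper97_MWL.ARR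
import Pool.Agent.Helper97_MWN.NSB
import Pool.Agent.Helper99_MWN.NKC

/-!
# All rows used by the necessity in the LR world, all periods (MP_23468a_al)
-/

set_option autoImplicit false

namespace Pool.Agent.MWZ.H28.RowsP

theorem mwnp_pdd : Pool.Agent.MWNP.PddStmt :=
  Pool.Agent.MWNP.H19.pdd 

theorem mwn_ndc : Pool.Agent.MWN.NdcStmt :=
  Pool.Agent.MWN.H80.ndc 

theorem mwn_nct : Pool.Agent.MWN.NctStmt :=
  Pool.Agent.MWN.H30.nct 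

theorem mwn_nin : Pool.Agent.MWN.NinStmt :=
  Pool.Agent.MWN.H77.nin mwn_ndc mwn_nct

theorem mwn_nkc : Pool.Agent.MWN.NkcStmt :=
  Pool.Agent.MWN.H99.nkc mwn_ndc mwn_nct

theorem mwn_nsb : Pool.Agent.MWN.NsbStmt :=
  Pool.Agent.MWN.H97.nsb 

theorem mwn_nka : Pool.Agent.MWN.NkaStmt :=
  Pool.Agent.MWN.H42.nka mwn_ndc mwn_nct mwn_nkc mwn_nsb

theorem mvo_one : Pool.Agent.MVO.OneStmt :=
  Pool.Agent.MVO.H5.one 

theorem mwn_nbf : Pool.Agent.MWN.NbfStmt :=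
  Pool.Agent.MWN.H88.nbf 

theorem mwn_nvg : Pool.Agent.MWN.NvgStmt :=
  Pool.Agent.MWN.H95.nvg mvo_one mwn_nbf

theorem mws_chk : Pool.Agent.MWS.ChkStmt :=
  Pool.Agent.MWS.H37.chk 

theorem mwn_nga : Pool.Agent.MWN.NgaStmt :=
  Pool.Agent.MWN.H85.nga 

theorem mwn_ngm : Pool.Agent.MWN.NgmStmt :=
  Pool.Agent.MWN.H39.ngm mvo_one mwn_nbf

theorem mwn_npe : Pool.Agent.MWN.NpeStmt :=
  Pool.Agent.MWN.H62.npe mws_chk mwn_nga mwn_ngm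

theorem mwn_nib : Pool.Agent.MWN.NibStmt :=
  Pool.Agent.MWN.H75.nib 

theorem mwl_ndf : Pool.Agent.MWL.NdfStmt :=
  Pool.Agent.MWL.H30.ndf 

theorem mwnp_phb : Pool.Agent.MWNP.PhbStmt :=
  Pool.Agent.MWNP.H27.phb mwl_ndf

theorem mwl_hvp : Pool.Agent.MWL.HvpStmt :=
  Pool.Agent.MWL.H54.hvp 

theorem mwl_dmx : Pool.Agent.MWL.DmxStmt :=
  Pool.Agent.MWL.H51.dmx mwl_hvp

theorem mwl_rmv : Pool.Agent.MWL.RmvStmt :=
  Pool.Agent.MWL.H45.rmv mwl_hvp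

theorem mwl_trn : Pool.Agent.MWL.TrnStmt :=
  Pool.Agent.MWL.H77.trn 

theorem mwl_abs : Pool.Agent.MWL.AbsStmt :=
  Pool.Agent.MWL.H22.abs mwl_trn mwl_hvp

theorem mwl_clo : Pool.Agent.MWL.CloStmt :=
  Pool.Agent.MWL.H90.clo mwl_trn mwl_hvp mwl_abs mwl_rmv

theorem mwnp_pex : Pool.Agent.MWNP.PexStmt :=
  Pool.Agent.MWNP.H74.pex mvo_one mws_chk mwl_hvp mwl_dmx mwl_rmv mwl_clo mwnp_phb

theorem mwnp_pph : Pool.Agent.MWNP.PphStmt :=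
  Pool.Agent.MWNP.H52.pph mwn_nin mwn_nka mwn_nvg mwn_npe mwn_nib mwnp_phb mwnp_pex

theorem mwl_key : Pool.Agent.MWL.KeyStmt :=
  Pool.Agent.MWL.H7.key mwl_trn mwl_hvp mwl_abs

theorem mwl_arr : Pool.Agent.MWL.ArrStmt :=
  Pool.Agent.MWL.H97.arr mwl_trn mwl_hvp mwl_abs

theorem mwl_ta1 : Pool.Agent.MWL.Ta1Stmt :=
  Pool.Agent.MWL.H75.ta1 mwl_trn mwl_hvp mwl_abs mwl_arr

theorem mwl_ta2 : Pool.Agent.MWL.Ta2Stmt :=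
  Pool.Agent.MWL.H19.ta2 mwl_trn mwl_hvp mwl_abs mwl_arr mwl_ta1

theorem mwn_ntb : Pool.Agent.MWN.NtbStmt :=
  Pool.Agent.MWN.H3.ntb mwl_hvp mwl_ta1 mwl_ta2

theorem mwn_ncl : Pool.Agent.MWN.NclStmt :=
  Pool.Agent.MWN.H24.ncl mwl_trn mwl_key mwn_ntb

theorem mwnp_pcx : Pool.Agent.MWNP.PcxStmt :=
  Pool.Agent.MWNP.H34.pcx mwn_ncl mwnp_phb

theorem mwnp_pis : Pool.Agent.MWNP.PisStmt :=
  Pool.Agent.MWNP.H60.pis mwl_abs mwl_trn mws_chk mwnp_phb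

theorem mwnp_pco : Pool.Agent.MWNP.PcoStmt :=
  Pool.Agent.MWNP.H13.Pco.pco mwl_abs mwl_trn mwnp_phb mwnp_pis

theorem mwnp_p1a : Pool.Agent.MWNP.P1aStmt :=
  Pool.Agent.MWNP.H59.p1a mwnp_pph mwnp_pcx mwnp_pco

theorem mwnp_p1b : Pool.Agent.MWNP.P1bStmt :=
  Pool.Agent.MWNP.H23.p1b mwnp_pph mwnp_pcx mwnp_pco mwnp_pdd

theorem mwnp_p5x : Pool.Agent.MWNP.P5xStmt :=
  Pool.Agent.MWNP.H89.p5x mwnp_pph mwnp_pcx mwnp_pco mwl_arr mwnp_phb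

theorem mwnp_p2x : Pool.Agent.MWNP.P2xStmt :=
  Pool.Agent.MWNP.H77.p2x mwnp_pph mwnp_pcx mwnp_pco

theorem mwnp_p3a : Pool.Agent.MWNP.P3aStmt :=
  Pool.Agent.MWNP.H75.p3a mwnp_pph mwnp_pcx mwnp_pco mwl_arr mwnp_phb

theorem mwnp_p3b : Pool.Agent.MWNP.P3bStmt :=
  Pool.Agent.MWNP.H7.p3b mwnp_pph mwnp_pcx mwl_arr mwnp_phb

theorem mwnp_p3c : Pool.Agent.MWNP.P3cStmt :=
  Pool.Agent.MWNP.H3.p3c mwnp_pph mwnp_pcx mwnp_pco mwl_arr mwnp_phb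

theorem mwnp_p3d : Pool.Agent.MWNP.P3dStmt :=
  Pool.Agent.MWNP.H64.p3d mwnp_pph mwnp_pcx mwnp_pco mwl_arr mwnp_phb

theorem mwnp_ph8 : Pool.Agent.MWNP.Ph8Stmt :=
  Pool.Agent.MWNP.H62.ph8 mwnp_p1a mwnp_p2x mwnp_p3a mwnp_p3b mwnp_p3c mwnp_p3d

theorem mwnp_p4a : Pool.Agent.MWNP.P4aStmt :=
  Pool.Agent.MWNP.H37.p4a mwnp_pph mwnp_pcx mwnp_pco mwnp_pdd mwl_arr mwnp_phb

theorem mwnp_p4b : Pool.Agent.MWNP.P4bStmt :=
  Pool.Agent.MWNP.H76.p4b mwnp_pph mwnp_pcx mwnp_pco mwnp_pdd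

theorem mwnp_p4c : Pool.Agent.MWNP.P4cStmt :=
  Pool.Agent.MWNP.H33.p4c mwnp_pph mwnp_pcx mwnp_pco mwnp_pdd

theorem mwnp_p4d : Pool.Agent.MWNP.P4dStmt :=
  Pool.Agent.MWNP.H23.p4d mwnp_pph mwnp_pcx mwnp_pco

theorem mwnp_p4e : Pool.Agent.MWNP.P4eStmt :=
  Pool.Agent.MWNP.H50.p4e mwnp_pph mwnp_pcx mwnp_pco

theorem mwnp_ph3 : Pool.Agent.MWNP.Ph3Stmt :=
  Pool.Agent.MWNP.H16.ph3 mwnp_p4a mwnp_p4b mwnp_p4c mwnp_p4d mwnp_p4e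

theorem mwnp_phf : Pool.Agent.MWNP.PhfStmt :=
  Pool.Agent.MWNP.H47.phf mwnp_pdd mwnp_p1a mwnp_p1b mwnp_p5x mwnp_ph8 mwnp_ph3

end Pool.Agent.MWZ.H28.RowsP
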