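import Pool.Agent.Helper28_MWZ.Asm
import Pool.Agent.Helper28_MWZ.Div
import Pool.Agent.MWA.StmtsB
import Pool.Agent.MWA.StmtsQ

/-!
# Theorem S2 from the rows of MWC and MWA (MP_23468a_al)
-/

set_option autoImplicit false

namespace Pool.Agent.MWZ.H28

open Pool.Agent.Helper14_MV Pool.Agent.Helper2_MV Pool.Agent.MVO Pool.Agent.MWL Pool.Agent.MWA

variable {β : FIC} {n : ℕ}

/-! ### adjacent non-last occurrences -/

/-- `s1` in a context, the letter `1` comes back first -/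
theorem s1_yx (h : MWZ.S1 (RR β)) (p q w : List ℕ) :
    RR β (p ++ ([0, 1] ++ (w ++ (1 :: (q ++ [0]))))) (p ++ ([1, 0] ++ (w ++ (1 :: (q ++ [0]))))) := by
  have h1 := RR.sub (fun c => if c = 0 then [1] else if c = 1 then [0] else if c = 2 then w else q) h
  have h2 : RR β ([1, 0] ++ (w ++ (1 :: (q ++ [0])))) ([0, 1] ++ (w ++ (1 :: (q ++ [0])))) := by
    simpa [List.flatMap_cons] using h1
  exact (RR.refl p).append (RR.symm h2)

theorem e3_of (h1 : MWZ.S1 (RR β)) (h : C4f β) : E3 (RR β) := by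
  have h2 : RR β [0, 1, 2, 0, 1, 1] [0, 1, 2, 1, 1, 0] := h (fun _ => false)
  have h3 : RR β [0, 1, 2, 1, 1, 0] [1, 0, 2, 1, 1, 0] := s1_yx h1 [] [1] [2]
  exact β.trans h2 h3

theorem e6_of (h1 : MWZ.S1 (RR β)) (h : Cf β) : E6 (RR β) := by
  have h2 : RR β [0, 1, 1, 2, 0, 1] [0, 1, 1, 2, 1, 0] := h (fun _ => false)
  have h3 : RR β [0, 1, 1, 2, 1, 0] [1, 0, 1, 2, 1, 0] := s1_yx h1 [] [] [1, 2]
  have h4 : RR β [1, 0, 1, 2, 1, 0] [1, 1, 0, 2, 1, 0] := s1_yx h1 [1] [] [2]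
  exact β.trans h2 (β.trans h3 h4)

theorem e7_of (h1 : MWZ.S1 (RR β)) (h : C5f β) : E7 (RR β) := by
  have h2 : RR β [0, 1, 1, 2, 0, 1, 1] [0, 1, 1, 2, 1, 1, 0] := h (fun _ => false)
  have h3 : RR β [0, 1, 1, 2, 1, 1, 0] [1, 0, 1, 2, 1, 1, 0] := s1_yx h1 [] [1] [1, 2]
  have h4 : RR β [1, 0, 1, 2, 1, 1, 0] [1, 1, 0, 2, 1, 1, 0] := s1_yx h1 [1] [1] [2]
  exact β.trans h2 (β.trans h3 h4)

/-! ### one letter -/

/-- the word `x^a t x^b s x^c` -/
def W3 (a b c : ℕ) : List ℕ := X a ++ 2 :: (X b ++ 3 :: X c)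

theorem w3_0 (hp : Per n (RR β)) {a a' : ℕ} (b c : ℕ) (ha : 2 ≤ a) (ha' : 2 ≤ a')
    (h : a ≡ a' [MOD n]) : RR β (W3 a b c) (W3 a' b c) :=
  (per_mod hp ha ha' h).append (RR.refl _)

theorem w3_1 (hp : Per n (RR β)) (a : ℕ) {b b' : ℕ} (c : ℕ) (hb : 2 ≤ b) (hb' : 2 ≤ b')
    (h : b ≡ b' [MOD n]) : RR β (W3 a b c) (W3 a b' c) :=
  (RR.refl (X a)).append ((RR.refl [2]).append ((per_mod hp hb hb' h).append (RR.refl (3 :: X c))))

theorem w3_2 (hp : Per n (RR β)) (a b : ℕ) {c c' : ℕ} (hc : 2 ≤ c) (hc' : 2 ≤ c')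
    (h : c ≡ c' [MOD n]) : RR β (W3 a b c) (W3 a b c') :=
  (RR.refl (X a)).append ((RR.refl [2]).append ((RR.refl (X b)).append ((RR.refl [3]).append
    (per_mod hp hc hc' h))))

theorem mod_two (n : ℕ) : n + 1 ≡ 2 * n + 1 [MOD n] := by
  unfold Nat.ModEq
  rw [show 2 * n + 1 = 1 + n * 2 by omega, show n + 1 = 1 + n * 1 by omega,
    Nat.add_mul_mod_self_left, Nat.add_mul_mod_self_left]

/-- `x t x² ≈ x^(2n+1) t x²` gives `L` from `J` -/
theorem l_of (hn : 1 ≤ n) (hp : Per n (RR β)) (hj : J n (RR β))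
    (hd : RR β (X 1 ++ 2 :: X 2) (X (2 * n + 1) ++ 2 :: X 2)) : MWZ.L n (RR β) := by
  have h0 : RR β (W3 1 1 1) (W3 1 1 (n + 1)) := hj
  have h1 : RR β (W3 1 1 (n + 1)) (W3 1 1 (2 * n + 1)) :=
    w3_2 hp 1 1 (by omega) (by omega) (mod_two n)
  -- second and third block
  have h2 : RR β (W3 1 1 (2 * n + 1)) (W3 1 (2 * n + 1) (2 * n + 1)) := by
    have h3 := RR.sub (fun c => if c = 2 then [3] else [c]) hd
    have e : ∀ a b : ℕ, (X a ++ 2 :: X b).flatMap (fun c => if c = 2 then [3] else [c]) =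
        X a ++ 3 :: X b := by
      intro a b
      have e1 : ∀ a : ℕ, (X a).flatMap (fun c => if c = 2 then [3] else [c]) = X a := by
        intro a
        induction a with
        | zero => rfl
        | succ a ih =>
          rw [X, List.replicate_succ, List.flatMap_cons, ih]
          rfl
      rw [List.flatMap_append, List.flatMap_cons, e1, e1]
      rfl
    rw [e, e] at h3
    have h4 := (RR.refl (β := β) (X 1 ++ [2])).append (h3.append (RR.refl (X (2 * n - 1))))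
    have e2 : ∀ b : ℕ, X 1 ++ [2] ++ (X b ++ 3 :: X 2 ++ X (2 * n - 1)) = W3 1 b (2 * n + 1) := by
      intro b
      unfold W3
      have : X 2 ++ X (2 * n - 1) = X (2 * n + 1) := by
        rw [X, X, List.replicate_append_replicate, show 2 + (2 * n - 1) = 2 * n + 1 by omega]
      rw [← this]
      simp only [List.append_assoc, List.cons_append, List.nil_append]
    rw [e2, e2] at h4
    exact h4
  have h3 : RR β (W3 1 (2 * n + 1) (2 * n + 1)) (W3 (2 * n + 1) (2 * n + 1) (2 * n + 1)) := by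
    have h4 := hd.append (RR.refl (X (2 * n - 1) ++ 3 :: X (2 * n + 1)))
    have e2 : ∀ a : ℕ, X a ++ 2 :: X 2 ++ (X (2 * n - 1) ++ 3 :: X (2 * n + 1)) =
        W3 a (2 * n + 1) (2 * n + 1) := by
      intro a
      unfold W3
      have : X 2 ++ X (2 * n - 1) = X (2 * n + 1) := by
        rw [X, X, List.replicate_append_replicate, show 2 + (2 * n - 1) = 2 * n + 1 by omega]
      conv_rhs => rw [← this]
      rw [this]
      simp only [List.append_assoc, List.cons_append]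
      rw [← List.append_assoc (X 2), this]
    rw [e2, e2] at h4
    exact h4
  have h5 : RR β (W3 (2 * n + 1) (2 * n + 1) (2 * n + 1)) (W3 (n + 1) (n + 1) (n + 1)) :=
    β.trans (w3_0 hp _ _ (by omega) (by omega) (mod_two n).symm)
      (β.trans (w3_1 hp _ _ (by omega) (by omega) (mod_two n).symm)
        (w3_2 hp _ _ (by omega) (by omega) (mod_two n).symm))
  exact β.trans h0 (β.trans h1 (β.trans h2 (β.trans h3 h5)))

/-- `G` gives the same with `x t x²` -/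
theorem d_of_g (hg : MWZ.G n (RR β)) : RR β (X 1 ++ 2 :: X 2) (X (2 * n + 1) ++ 2 :: X 2) := by
  have h1 : RR β (X 1 ++ [2, 0, 0]) (X 1 ++ (X (2 * n) ++ 2 :: X 2)) := (RR.refl (X 1)).append hg
  have e : X 1 ++ (X (2 * n) ++ 2 :: X 2) = X (2 * n + 1) ++ 2 :: X 2 := by
    rw [← List.append_assoc, X, X, List.replicate_append_replicate,
      show 1 + 2 * n = 2 * n + 1 by omega]
  rw [e] at h1
  exact h1

theorem d_of_d0 (h : D0n n β) : RR β (X 1 ++ 2 :: X 2) (X (2 * n + 1) ++ 2 :: X 2) := by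
  have h1 : RR β (mw 1 (v2 1 2)) (mw 1 (ad n (v2 1 2) 0)) := h
  have e1 : mw 1 (v2 1 2) = X 1 ++ 2 :: X 2 := rfl
  have e2 : mw 1 (ad n (v2 1 2) 0) = X (2 * n + 1) ++ 2 :: X 2 := by
    show List.replicate (ad n (v2 1 2) 0 0) 0 ++ 2 :: List.replicate (ad n (v2 1 2) 0 1) 0 = _
    have a0 : ad n (v2 1 2) 0 0 = 2 * n + 1 := by
      simp [ad, v2]
      omega
    have a1 : ad n (v2 1 2) 0 1 = 2 := by simp [ad, v2]
    rw [a0, a1]
  rw [e1, e2] at h1
  exact h1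

/-! ### necessity -/

theorem sysAR_of (hc : CnpStmt) (hn : 1 ≤ n) (hp : Per n (RR β)) (h1 : MWZ.S1 (RR β))
    (hR : LR n (FC.ofFIC β)) (h : SP1 n β ∨ SP2 n β ∨ SP3 β ∨ SP4 n β) : SysAR n (RR β) := by
  obtain ⟨c1, c2, c3, c4, c5, c6⟩ := hc n β hn hp
  refine ⟨hR.rr, ?_⟩
  rcases h with h | h | h | h
  · left
    have hg : MWZ.G n (RR β) := c1.2 h.g
    exact ⟨hg, l_of hn hp (c4.2 h.j) (d_of_g hg)⟩
  · right; left
    exact ⟨c4.2 h.j, h.c (fun _ => false)⟩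
  · right; right; left
    exact h.a (fun _ => false)
  · right; right; right
    exact ⟨l_of hn hp (c4.2 h.j) (d_of_d0 h.d), e3_of h1 h.c⟩

theorem necA (hc : CnpStmt) (hNr : MWC.NraStmt) (hNd : MWC.NdaStmt) : NecA := by
  intro n β hn hp hI h1 h2 hm
  have hcl : ClA β := ⟨h1, h2⟩
  rcases div2 hn hp hm hI with hR | hR
  · obtain ⟨h0, h⟩ := hNr n β ⟨hI, hcl, hm, hR⟩
    exact ⟨h1, h2, h0, Or.inl (sysAR_of hc hn hp h1 hR h)⟩
  · obtain ⟨h0, h⟩ := hNd n β ⟨hI, hcl, hm, hR⟩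
    obtain ⟨c1, c2, c3, c4, c5, c6⟩ := hc n β hn hp
    rcases h with h | ⟨hL, h⟩
    · refine ⟨h1, h2, h0, Or.inr ⟨hR.rr, ?_⟩⟩
      rcases h with h | h | h | h
      · left
        exact ⟨c5.2 h.j, h.a (fun _ => false), h.p (fun _ => false), h.q (fun _ => false)⟩
      · right; left
        exact ⟨c6.2 ⟨h.j, h.j'⟩, h.a (fun _ => false), h.p (fun _ => false), e6_of h1 h.c⟩
      · right; right; left
        exact ⟨c1.2 h.g, c6.2 ⟨h.j, h.j'⟩, h.p (fun _ => false), e7_of h1 h.c⟩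
      · right; right; right
        exact ⟨h.a (fun _ => false), h.b (fun _ => false)⟩
    · refine ⟨h1, h2, h0, Or.inl (sysAR_of hc hn hp h1 hL ?_)⟩
      rcases h with h | h
      · exact Or.inl h
      · exact Or.inr (Or.inr (Or.inr h))

/-! ### sufficiency -/

theorem distA (hc : CnpStmt) (he : CneStmt) (hFr : FprStmt) (hFd : FpdStmt) (hn : 1 ≤ n)
    (hp : Per n (RR β)) (h : SysA n (RR β)) : DistF β := by
  obtain ⟨h1, h2, h0, h⟩ := h
  have hcl : ClA β := ⟨h1, h2⟩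
  have hb : BsP n β := ⟨hn, hcl, h0, hp⟩
  obtain ⟨c1, c2, c3, c4, c5, c6⟩ := hc n β hn hp
  obtain ⟨e1, e2, e3, e4, e5, e6, e7, e8, e9⟩ := he β hcl
  rcases h with ⟨hR, h⟩ | ⟨hR, h⟩
  · refine hFr n β hb hR ?_
    rcases h with ⟨hg, hl⟩ | ⟨hj, hh⟩ | hh | ⟨hl, hh⟩
    · left
      exact ⟨c1.1 hg, (c2.1 hl).2.2⟩
    · right; left
      exact ⟨c4.1 hj, e2 hh⟩
    · right; right; left
      exact ⟨e1 hh⟩
    · right; right; right
      exact ⟨(c2.1 hl).2.2, c3 ⟨(c2.1 hl).1, (c2.1 hl).2.2⟩, e3 hh⟩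
  · refine hFd n β hb hR ?_
    rcases h with ⟨hj, ha, hb4, hb5⟩ | ⟨hk, ha, hb4, hb6⟩ | ⟨hg, hk, hb4, hb7⟩ | ⟨hb8, hb9⟩
    · left
      exact ⟨e1 ha, e4 hb4, c5.1 hj, e5 hb5⟩
    · right; left
      exact ⟨e1 ha, e4 hb4, (c6.1 hk).1, (c6.1 hk).2, e6 hb6⟩
    · right; right; left
      exact ⟨c1.1 hg, (c6.1 hk).1, (c6.1 hk).2, e4 hb4, e7 hb7⟩
    · right; right; right
      exact ⟨e8 hb8, e9 hb9⟩

theorem sufA (hc : CnpStmt) (he : CneStmt) (hFr : FprStmt) (hFd : FpdStmt) : SufA :=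
  fun _ _ hn hp h => distF_modF (distA hc he hFr hFd hn hp h)

end Pool.Agent.MWZ.H28
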