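import Pool.Agent.Helper28_MWZ.Bridge
import Pool.Agent.Helper28_MWZ.RowsP
import Pool.Agent.Helper28_MWZ.RowsC
import Pool.Agent.Helper28_MWZ.Two
import Pool.Agent.Helper61_MWD.Disp
import Pool.Agent.Helper11_MWE.ASM
import Pool.Agent.Helper85_MWA.Fin
import Pool.Agent.Helper48_MWHP.Final

/-!
# The isoterm block: composition (MP_23468a_al)
-/

set_option autoImplicit false

namespace Pool.Agent.MWZ.H28

open Pool.Agent.Helper14_MV Pool.Agent.Helper2_MV Pool.Agent.MVO Pool.Agent.MWZ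
open Pool.Agent.Helper61_MWD

/-- necessity over `S1`, `S2`, all periods -/
theorem necA_final : NecA := necA Pool.Agent.MWA.Fin.cnp RowsC.mwc_nra RowsC.mwc_nda

/-- sufficiency of all systems of the isoterm block, all periods -/
theorem iS_final {Q : ℕ → Prop} : MWU.Suf Q SI :=
  iS Pool.Agent.MWA.Fin.sufA_final (fun n hn _ β => Pool.Agent.MWHP.sufH n β hn)

theorem bas_of {n : ℕ} {β : FIC} (hw : LRW n β) (h : I1 n (RR β) ∧ I2 (RR β)) :
    BaseH n (RR β) := by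
  obtain ⟨f1, f2⟩ := Pool.Agent.MWE.H11.flrF β hw.md hw.iso h.2
    (fun h => hw.s12 ⟨s1_iff.1 h.1, s2_iff.1 h.2⟩)
    (fun h => hw.s32 ⟨s1op_iff.1 h.1, s2op_iff.1 h.2⟩)
  exact ⟨f1, f2, h.1, h.2⟩

/-- necessity in the LR world for one period -/
theorem necH1_of {n : ℕ} (hn : 1 ≤ n) (hhb : HbS n) (h2 : It2 n) (h3 : It3 n) (h8 : It8 n) :
    NecH1 n :=
  necH1 n hn hhb RowsP.mwnp_phf (fun β hw hb hs => bas_of hw (h2 β hw hb hs))
    (fun β hw hb hs => bas_of hw (h3 β hw hb hs)) (fun β hw hb hs => bas_of hw (h8 β hw hb hs))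

/-- necessity of the isoterm block -/
theorem iN_of {Q : ℕ → Prop} (hhb : ∀ n, 1 ≤ n → Q n → HbS n) (h2 : ∀ n, 1 ≤ n → Q n → It2 n)
    (h3 : ∀ n, 1 ≤ n → Q n → It3 n) (h8 : ∀ n, 1 ≤ n → Q n → It8 n) :
    MWU.Nec Q (fun _ β => Iso3 β) SI :=
  iN necA_final (fun n hn hQ => necH1_of hn (hhb n hn hQ) (h2 n hn hQ) (h3 n hn hQ) (h8 n hn hQ))

end Pool.Agent.MWZ.H28
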