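import Pool.Agent.Helper28_MWZ.Iso

/-!
# The isoterm block without the world `x²y² ≈ y²x²`, `L` (MP_23468a_al)
-/

set_option autoImplicit false

namespace Pool.Agent.MWZ.H28

open Pool.Agent.Helper14_MV Pool.Agent.Helper2_MV Pool.Agent.MVO Pool.Agent.MWZ
open Pool.Agent.Helper61_MWD

theorem r0_op_iff {β : FIC} : R0 (RR (FIC.op β)) ↔ R0 (RR β) :=
  ⟨fun h => RR.symm h, fun h => RR.symm h⟩

theorem l_op {n : ℕ} {β : FIC} (h : L n (RR (FIC.op β))) : L n (RR β) := by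
  have h1 : RR β [0, 2, 0, 3, 0].reverse (X (n + 1) ++ 2 :: (X (n + 1) ++ 3 :: X (n + 1))).reverse := h
  have h2 := RR.sub (fun c => if c = 2 then [3] else if c = 3 then [2] else [c]) h1
  have e0 : ∀ k : ℕ, (X k).flatMap (fun c => if c = 2 then [3] else if c = 3 then [2] else [c]) =
      X k := by
    intro k
    induction k with
    | zero => rfl
    | succ k ih =>
      rw [X, List.replicate_succ, List.flatMap_cons, show List.replicate k 0 = X k from rfl, ih]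
      rfl
  have e : (X (n + 1) ++ 2 :: (X (n + 1) ++ 3 :: X (n + 1))).reverse =
      X (n + 1) ++ 3 :: (X (n + 1) ++ 2 :: X (n + 1)) := by
    simp [X, List.reverse_replicate]
  rw [e, List.flatMap_append, List.flatMap_cons, List.flatMap_append, List.flatMap_cons, e0] at h2
  exact h2

/-- a letter for the exclusion -/
def Exc (n : ℕ) (β : FIC) : Prop := R0 (RR β) ∧ L n (RR β)

theorem exc_op {n : ℕ} {β : FIC} (h : Exc n (FIC.op β)) : Exc n β := ⟨r0_op_iff.1 h.1, l_op h.2⟩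

/-- necessity outside of the excluded world -/
theorem necF {n : ℕ} (hn : 1 ≤ n) (hhb : HbS n) (h3 : It3 n) (h8 : It8 n) (β : FIC)
    (hp : Per n (RR β)) (hi : Iso3 β) (hm : ModF β) (h12 : ¬ (S1 (RR β) ∧ S2 (RR β)))
    (h12' : ¬ (S1 (RR (FIC.op β)) ∧ S2 (RR (FIC.op β)))) (hx : ¬ Exc n β) :
    SysH n (RR β) ∨ SysH n (RR (FIC.op β)) := by
  have key : ∀ γ : FIC, LRW n γ → ¬ Exc n γ → SysH n (RR γ) := by
    intro γ hw he
    have hb := hhb γ hw
    refine MWZ.H65.phf_sys RowsP.mwnp_phf n γ hb hw.iso hw.md ?_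
    rcases MWZ.H65.two_of_phf RowsP.mwnp_phf hb hw.iso hw.md with h | h | h
    · exact absurd h he
    · exact bas_of hw (h3 γ hw hb h)
    · exact bas_of hw (h8 γ hw hb h.1)
  have mk : ∀ γ : FIC, MWZ.Per n (RR γ) → Iso3 γ → ModF γ →
      ¬ (MWZ.S1 (RR γ) ∧ MWZ.S2 (RR γ)) → ¬ (MWZ.S1 (RR (FIC.op γ)) ∧ MWZ.S2 (RR (FIC.op γ))) →
      MWZ.R n (RR γ) → LRW n γ := by
    intro γ hp H hM h1 h3 hr
    obtain ⟨hl, hrx⟩ := lxrx' hM H h1 h3
    exact ⟨hn, hp, H, hM, hr, fun h => h1 ⟨s1_iff.2 h.1, s2_iff.2 h.2⟩,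
      fun h => h3 ⟨s1op_iff.2 h.1, s2op_iff.2 h.2⟩, hl, hrx⟩
  rcases MWZ.H28.div2 hn hp hm hi with h | h
  · left
    exact key β (mk β hp hi hm h12 h12' (r_of_lr h)) hx
  · right
    refine key (FIC.op β) (mk (FIC.op β) (MWZ.H28.per_op hp) (MWZ.H28.iso3_op hi) (op_modF hm)
      h12' ?_ (r_op_of_lrd h)) (fun h => hx (exc_op h))
    rw [(MWZ.H28.opr β).2.2]
    exact h12

/-- **varieties for which `xyx` is an isoterm**, outside of the excluded world -/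
theorem isoF (hhb : ∀ n, 1 ≤ n → HbS n) (h3 : ∀ n, 1 ≤ n → It3 n) (h8 : ∀ n, 1 ≤ n → It8 n)
    (V : Variety) (hx : Xyx V)
    (hE : (S1 (VS V) ∧ S2 (VS V)) ∨ (S1 (Rev (VS V)) ∧ S2 (Rev (VS V))) ∨
      ¬ (R0 (VS V) ∧ ∃ n, 1 ≤ n ∧ L n (VS V))) :
    V.ModularLattice ↔
    ((Hpc V ∧ (MVO.Sys.Good (VS V) ∨ MVO.Sys.Good (Rev (VS V)))) ∨
    ∃ n, 1 ≤ n ∧ Per n (VS V) ∧
      (SysA n (VS V) ∨ SysA n (Rev (VS V)) ∨ SysH n (VS V) ∨ SysH n (Rev (VS V)))) := by
  have hx' : ¬ ∃ w, w ≠ lx * ly * lx ∧ V.Sat (lx * ly * lx) w := by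
    rintro ⟨w, hw, h⟩
    exact hw (hx w h)
  have hi := iso3_th hx
  constructor
  · intro hm
    by_cases hs : Sqr V
    · left
      have h1 := (H83.final H83.rows V (Or.inl hs)).1 hm
      exact ⟨h1.1, h1.2.resolve_left hx'⟩
    · right
      obtain ⟨n, hn, hp⟩ := per_of hx hs
      refine ⟨n, hn, hp, ?_⟩
      have hm' := (modular_iff V).1 hm
      by_cases h12 : S1 (VS V) ∧ S2 (VS V)
      · exact Or.inl (necA_final n (th V) hn hp hi h12.1 h12.2 hm')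
      · by_cases h12' : S1 (Rev (VS V)) ∧ S2 (Rev (VS V))
        · exact Or.inr (Or.inl (necA_final n (FIC.op (th V)) hn (per_op hp) (iso3_op hi) h12'.1
            h12'.2 (op_modF hm')))
        · have hE' := (hE.resolve_left h12).resolve_left h12'
          exact Or.inr (Or.inr (necF hn (hhb n hn) (h3 n hn) (h8 n hn) (th V) hp hi hm' h12 h12'
            (fun h => hE' ⟨h.1, n, hn, h.2⟩)))
  · rintro (⟨hc, hg⟩ | ⟨n, hn, hp, h⟩)
    · exact (H83.final H83.rows V (Or.inr hc)).2 ⟨hc, Or.inr hg⟩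
    · rw [modular_iff]
      rcases h with h | h | h | h
      · exact Pool.Agent.MWA.Fin.sufA_final n (th V) hn hp h
      · exact modF_op (Pool.Agent.MWA.Fin.sufA_final n (FIC.op (th V)) hn (per_op hp) h)
      · exact Pool.Agent.MWHP.sufH n (th V) hn hp h
      · exact modF_op (Pool.Agent.MWHP.sufH n (FIC.op (th V)) hn (per_op hp) h)

end Pool.Agent.MWZ.H28
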