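import Pool.Agent.Helper28_MWZ.RowsP
import Pool.Agent.Helper28_MWZ.Iso
import Pool.Agent.Helper61_MWD.Itr
import Pool.Agent.Helper41_MWI.Asm

/-!
# The worlds h3 and s8 of the isoterm block (MP_23468a_al)
-/

set_option autoImplicit false

namespace Pool.Agent.MWZ.H28

open Pool.Agent.MVO Pool.Agent.MWZ Pool.Agent.Helper61_MWD

theorem it3F (n : ℕ) : It3 n := it3_of n (Pool.Agent.Helper41_MWI.fdH3 RowsP.mwnp_phf n)

theorem it8F (n : ℕ) : It8 n := it8_of n (Pool.Agent.Helper41_MWI.fdS8 RowsP.mwnp_phf n)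

end Pool.Agent.MWZ.H28
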