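import Pool.Agent.Helper28_MWZ.Bridge
import Pool.Agent.Helper83_MWU.Asm
import Pool.Agent.Helper44_MWU.Sys
import Pool.Agent.Helper28_MWZ.Full

/-!
# Assembly: all periods, the gamma world for period one only (MP_23468a_al)
-/

set_option autoImplicit false

namespace Pool.Agent.MWZ.H28.Mix

open Pool.Agent.Helper14_MV Pool.Agent.Helper2_MV Pool.Agent.MVO Pool.Agent.MWZ Pool.Agent.MWU

variable {β : FIC} {n : ℕ} {SI SB SG : MWU.Sy}

/-- all systems: the gamma system only for period one -/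
def SysM (SI SB SG : MWU.Sy) : MWU.Sy := fun n S => SC S ∨ SI n S ∨ SB n S ∨ SG 1 S

/-- no identity `xyx ≈ xyx^k` and no identity `xyx ≈ x^k yx` with `k ≥ 2` -/
def NoGam (V : Variety) : Prop :=
  ∀ k, 2 ≤ k → ¬ V.Sat (lx * ly * lx) (lx * ly * lx ^ k) ∧ ¬ V.Sat (lx * ly * lx) (lx ^ k * ly * lx)

theorem gam_r {k : ℕ} : RR β [0, 1, 0] (0 :: 1 :: X k) ↔
    β.r (lx * ly * lx) (lx * ly * lx ^ k) := by
  have e : FreeMonoid.ofList (0 :: 1 :: X k) = lx * ly * lx ^ k := by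
    rw [← ofList_X]
    rfl
  unfold RR
  rw [e]
  exact Iff.rfl

theorem gam_r' {k : ℕ} : Rev (RR β) [0, 1, 0] (0 :: 1 :: X k) ↔
    β.r (lx * ly * lx) (lx ^ k * ly * lx) := by
  have e : FreeMonoid.ofList (0 :: 1 :: X k).reverse = lx ^ k * ly * lx := by
    rw [List.reverse_cons, List.reverse_cons, X, List.reverse_replicate, ← ofList_X]
    show FreeMonoid.ofList ((X k ++ [1]) ++ [0]) = _
    rw [FreeMonoid.ofList_append, FreeMonoid.ofList_append]
    rfl
  show β.r (FreeMonoid.ofList [0, 1, 0].reverse) (FreeMonoid.ofList (0 :: 1 :: X k).reverse) ↔ _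
  rw [e]
  exact Iff.rfl

/-- necessity for fully invariant congruences -/
theorem nec (iN : Nec (fun _ => True) (fun _ β => Iso3 β) SI)
    (bN : Nec (fun _ => True) (fun n β => Bet n (RR β)) SB)
    (gN : Nec (fun n => n = 1) (fun n β => Gam n (RR β) ∧ ¬ Bet n (RR β)) SG)
    (hn : 1 ≤ n) (hp : Per n (RR β)) (h : MWU.NCR β) (hc : ¬ Cen β) (hm : ModF β)
    (hg : n = 1 ∨ (¬ Gam n (RR β) ∧ ¬ Gam n (Rev (RR β)))) :
    SysM SI SB SG n (RR β) ∨ SysM SI SB SG n (Rev (RR β)) := by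
  have hm' := op_modF hm
  have hp' := per_op hp
  have hc' : ¬ Cen (FIC.op β) := fun h => hc (H83.cen_op h)
  have h' := H83.ncr_op h
  by_cases h3 : Iso3 β
  · rcases iN n β hn trivial hp h hc hm h3 with h4 | h4
    · exact Or.inl (Or.inr (Or.inl h4))
    · exact Or.inr (Or.inr (Or.inl h4))
  by_cases hb : Bet n (RR β)
  · rcases bN n β hn trivial hp h hc hm hb with h5 | h5
    · exact Or.inl (Or.inr (Or.inr (Or.inl h5)))
    · exact Or.inr (Or.inr (Or.inr (Or.inl h5)))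
  have hb' : ¬ Bet n (RR (FIC.op β)) := by
    intro h5
    apply hb
    have h6 := al_op h5
    rwa [op_op'] at h6
  rcases H83.cases_xyx hn hp h h3 with h4 | h4 | h4 | h4 | h4
  · exact Or.inl (Or.inl (H83.cls_nec hm h hc h4))
  · refine Or.inr (Or.inl ?_)
    exact H83.cls_nec (β := FIC.op β) hm' h' hc' h4
  · rcases hg with rfl | hg
    · rcases gN 1 β le_rfl rfl hp h hc hm ⟨h4, hb⟩ with h5 | h5
      · exact Or.inl (Or.inr (Or.inr (Or.inr h5)))
      · exact Or.inr (Or.inr (Or.inr (Or.inr h5)))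
    · exact absurd h4 hg.1
  · rcases hg with rfl | hg
    · rcases gN 1 (FIC.op β) le_rfl rfl hp' h' hc' hm' ⟨h4, hb'⟩ with h5 | h5
      · exact Or.inr (Or.inr (Or.inr (Or.inr h5)))
      · rw [rev_eq, H83.rev_rev] at h5
        exact Or.inl (Or.inr (Or.inr (Or.inr h5)))
    · exact absurd h4 hg.2
  · exact absurd h4 hb

/-- sufficiency for fully invariant congruences -/
theorem suf (iS : Suf (fun _ => True) SI) (bS : Suf (fun _ => True) SB)
    (gS : Suf (fun n => n = 1) SG) (gP : ∀ β : FIC, SG 1 (RR β) → Per 1 (RR β))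
    (hn : 1 ≤ n) (hp : Per n (RR β)) (h : SysM SI SB SG n (RR β)) : ModF β := by
  rcases h with h | h | h | h
  · exact H83.cls_suf hn hp h
  · exact iS n β hn trivial hp h
  · exact bS n β hn trivial hp h
  · exact gS 1 β le_rfl rfl (gP β h) h

/-- **all varieties except those with `xyx ≈ xyx^k` and period greater than one** -/
theorem main (iN : Nec (fun _ => True) (fun _ β => Iso3 β) SI)
    (bN : Nec (fun _ => True) (fun n β => Bet n (RR β)) SB)
    (gN : Nec (fun n => n = 1) (fun n β => Gam n (RR β) ∧ ¬ Bet n (RR β)) SG)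
    (iS : Suf (fun _ => True) SI) (bS : Suf (fun _ => True) SB)
    (gS : Suf (fun n => n = 1) SG) (gP : ∀ β : FIC, SG 1 (RR β) → Per 1 (RR β))
    (V : Variety) (hV : (∃ m, V.Sat (lx ^ (m + 1)) (lx ^ m)) ∨ NoGam V) :
    V.ModularLattice ↔ V.CompletelyRegular ∨
      (Hpc V ∧ (¬ Xyx V ∨ MVO.Sys.Good (VS V) ∨ MVO.Sys.Good (Rev (VS V)))) ∨
      ∃ n, 1 ≤ n ∧ Per n (VS V) ∧ (SysM SI SB SG n (VS V) ∨ SysM SI SB SG n (Rev (VS V))) := by
  by_cases hcr : V.CompletelyRegular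
  · exact ⟨fun _ => Or.inl hcr, fun _ => cr_mod hcr⟩
  constructor
  · intro hm
    right
    by_cases hh : Hpc V
    · exact Or.inl ⟨hh, (hpc_iff hh).1 hm⟩
    right
    obtain ⟨n, hn, hp⟩ := (hpc_or_per hcr hm).resolve_left hh
    have key : ∀ n, 1 ≤ n → Per n (VS V) →
        (n = 1 ∨ (¬ Gam n (RR (th V)) ∧ ¬ Gam n (Rev (RR (th V))))) →
        ∃ n, 1 ≤ n ∧ Per n (VS V) ∧
          (SysM SI SB SG n (VS V) ∨ SysM SI SB SG n (Rev (VS V))) := by
      intro n hn hp hg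
      exact ⟨n, hn, hp, nec (β := th V) iN bN gN hn hp (ncr_th hcr) hh ((modular_iff V).1 hm) hg⟩
    rcases hV with ⟨m, hm1⟩ | hV
    · exact key 1 le_rfl (per_one hm1 hn hp) (Or.inl rfl)
    · refine key n hn hp (Or.inr ⟨fun h => ?_, fun h => ?_⟩)
      · exact (hV (n + 1) (by omega)).1 (gam_r.1 h)
      · exact (hV (n + 1) (by omega)).2 (gam_r'.1 h)
  · rintro (h | ⟨h, h3⟩ | ⟨n, hn, hp, h⟩)
    · exact absurd h hcr
    · exact (hpc_iff h).2 h3
    · rw [modular_iff]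
      rcases h with h | h
      · exact suf (β := th V) iS bS gS gP hn hp h
      · exact modF_op (suf (β := FIC.op (th V)) iS bS gS gP hn (per_op hp) h)

end Pool.Agent.MWZ.H28.Mix
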