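import Pool.Agent.Helper28_MWZ.Iso
import Pool.Agent.Helper28_MWZ.Mix2
import Pool.Agent.Helper61_MWD.DispQ
import Pool.Agent.Helper70_MWR.Brg
import Pool.Agent.Helper41_MWU.GamR

/-!
# Assembly of the full classification, all periods (MP_23468a_al)
-/

set_option autoImplicit false

namespace Pool.Agent.MWZ.H28

open Pool.Agent.Helper14_MV Pool.Agent.Helper2_MV Pool.Agent.MVO Pool.Agent.MWZ
open Pool.Agent.Helper61_MWD

/-- the systems of the varieties for which `xyx` is an isoterm, all periods -/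
def SIQ : MWU.Sy := fun n S => SysA n S ∨ SysQ n S

/-- sufficiency of the system `SysH2` -/
def SufQ : Prop := ∀ (n : ℕ) (β : FIC), 1 ≤ n → Per n (RR β) → MWGI.SysH2 n (RR β) → ModF β

/-- necessity of the isoterm block, all periods -/
theorem iNQ (h : ∀ n, 1 ≤ n → NecQ n) :
    MWU.Nec (fun _ => True) (fun n β => Iso3 β ∧ (fun _ _ => True : ℕ → FIC → Prop) n β) SIQ := by
  rintro n β hn - hp - - hm ⟨hi, -⟩
  by_cases h12 : S1 (RR β) ∧ S2 (RR β)
  · exact Or.inl (Or.inl (necA_final n β hn hp hi h12.1 h12.2 hm))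
  · by_cases h12' : S1 (RR (FIC.op β)) ∧ S2 (RR (FIC.op β))
    · exact Or.inr (Or.inl (necA_final n (FIC.op β) hn (per_op hp) (iso3_op hi) h12'.1 h12'.2
        (op_modF hm)))
    · rcases h n hn β hp hi hm h12 h12' with h | h
      · exact Or.inl (Or.inr h)
      · exact Or.inr (Or.inr h)

/-- sufficiency of the isoterm block, all periods -/
theorem iSQ (h : SufQ) : MWU.Suf (fun _ => True) SIQ := by
  rintro n β hn - hp (h1 | h1 | h1)
  · exact Pool.Agent.MWA.Fin.sufA_final n β hn hp h1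
  · exact h n β hn hp h1
  · exact Pool.Agent.MWHP.sufH n β hn hp (sysH3_sysH h1)

/-- **the full classification** -/
theorem full (hN : ∀ n, 1 ≤ n → NecQ n) (hS : SufQ)
    (gN : MWU.Nec (fun _ => True) (fun n β => MWU.Gam n (RR β) ∧ ¬ MWU.Bet n (RR β))
      MWU.H41.SGR)
    (gS : MWU.Suf (fun _ => True) MWU.H41.SGR) (V : Variety) :
    V.ModularLattice ↔ V.CompletelyRegular ∨
      (Hpc V ∧ (¬ Xyx V ∨ MVO.Sys.Good (VS V) ∨ MVO.Sys.Good (Rev (VS V)))) ∨
      ∃ n, 1 ≤ n ∧ Per n (VS V) ∧ (Mix2.SysU SIQ MWU.SB MWU.H41.SGR n (VS V) ∨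
        Mix2.SysU SIQ MWU.SB MWU.H41.SGR n (Rev (VS V))) := by
  refine Mix2.main (HI := fun _ _ => True) (HG := fun _ _ => True) (iNQ hN)
    (Pool.Agent.Helper70_MWR.Brg.bN _) ?_ (iSQ hS) (Pool.Agent.Helper70_MWR.Brg.bS _) gS V ?_
  · rintro n β hn hQ hp hcr hc hm ⟨h, -⟩
    exact gN n β hn hQ hp hcr hc hm h
  · intro n hn hp
    exact ⟨n, hn, hp, fun _ => trivial, fun _ => trivial, fun _ => trivial⟩

end Pool.Agent.MWZ.H28
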