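import Pool.Agent.Helper10_MVO.BUB
import Pool.Agent.Helper10_MWA.BTU
import Pool.Agent.Helper13_MWA.BTF
import Pool.Agent.Helper13_MWA.RDP
import Pool.Agent.Helper13_MWS.TLP
import Pool.Agent.Helper14_MWA.HDP
import Pool.Agent.Helper15_MWC.NDA
import Pool.Agent.Helper15_MWL.FLB
import Pool.Agent.Helper16_MWA.MVP
import Pool.Agent.Helper19_MWA.RQ3
import Pool.Agent.Helper19_MWL.TA2
import Pool.Agent.Helper1_MWA.SPM
import Pool.Agent.Helper22_MWA.TNF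
import Pool.Agent.Helper22_MWL.ABS
import Pool.Agent.Helper23_MWA.MJQ
import Pool.Agent.Helper23_MWA.NDQ
import Pool.Agent.Helper24_MWA.ORN
import Pool.Agent.Helper25_MWC.CLN
import Pool.Agent.Helper26_MWA.RP4
import Pool.Agent.Helper27_MWS.GLD
import Pool.Agent.Helper28_MVO.FMA
import Pool.Agent.Helper2_MWA.LSP
import Pool.Agent.Helper2_MWA.PPQ
import Pool.Agent.Helper2_MWC.BMP
import Pool.Agent.Helper30_MWA.HRP
import Pool.Agent.Helper30_MWC.KYR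
import Pool.Agent.Helper30_MWL.NDF
import Pool.Agent.Helper31_MVO.COM
import Pool.Agent.Helper33_MWC.CLR
import Pool.Agent.Helper33_MWC.GTI
import Pool.Agent.Helper34_MWL.LAW
import Pool.Agent.Helper35_MVO.FAA
import Pool.Agent.Helper35_MVO.RGA
import Pool.Agent.Helper36_MWA.D2Q
import Pool.Agent.Helper37_MWA.BTP
import Pool.Agent.Helper37_MWA.W2R
import Pool.Agent.Helper37_MWC.BMN
import Pool.Agent.Helper37_MWC.CAA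
import Pool.Agent.Helper37_MWS.CHK
import Pool.Agent.Helper38_MVO.REN
import Pool.Agent.Helper39_MWA.BLQ
import Pool.Agent.Helper3_MWA.SFQ
import Pool.Agent.Helper3_MWL.JPR
import Pool.Agent.Helper43_MWA.DGB
import Pool.Agent.Helper43_MWA.ORQ
import Pool.Agent.Helper45_MWA.CHQ
import Pool.Agent.Helper45_MWA.EQP
import Pool.Agent.Helper45_MWC.SPR
import Pool.Agent.Helper45_MWL.RMV
import Pool.Agent.Helper46_MWA.ODN
import Pool.Agent.Helper47_MWA.RP1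
import Pool.Agent.Helper47_MWC.CR0
import Pool.Agent.Helper49_MWA.DGA
import Pool.Agent.Helper51_MWA.JPQ
import Pool.Agent.Helper51_MWC.CAB
import Pool.Agent.Helper51_MWL.DMX
import Pool.Agent.Helper52_MWL.TAB
import Pool.Agent.Helper53_MWA.BTR
import Pool.Agent.Helper53_MWA.MUX
import Pool.Agent.Helper54_MWL.HVP
import Pool.Agent.Helper59_MWA.LGP
import Pool.Agent.Helper59_MWA.RP3
import Pool.Agent.Helper5_MVO.ONE
import Pool.Agent.Helper5_MWA.USE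
import Pool.Agent.Helper60_MVO.ALN
import Pool.Agent.Helper62_MWC.CBB
import Pool.Agent.Helper62_MWC.KPR
import Pool.Agent.Helper62_MWC.TYC
import Pool.Agent.Helper64_MWA.MUY
import Pool.Agent.Helper65_MWC.MST
import Pool.Agent.Helper69_MWA.RCP
import Pool.Agent.Helper69_MWC.CBD
import Pool.Agent.Helper69_MWL.JFC
import Pool.Agent.Helper6_MWA.ABP
import Pool.Agent.Helper70_MWC.TBR
import Pool.Agent.Helper74_MWA.W2X
import Pool.Agent.Helper74_MWC.ARB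
import Pool.Agent.Helper74_MWC.LNI
import Pool.Agent.Helper74_MWC.NRA
import Pool.Agent.Helper74_MWC.WBI
import Pool.Agent.Helper75_MWA.CPN
import Pool.Agent.Helper75_MWA.DGP
import Pool.Agent.Helper75_MWA.GW2
import Pool.Agent.Helper75_MWL.TA1
import Pool.Agent.Helper77_MWC.BEL
import Pool.Agent.Helper77_MWC.KPG
import Pool.Agent.Helper77_MWL.TRN
import Pool.Agent.Helper7_MWA.CNE
import Pool.Agent.Helper7_MWA.FPR
import Pool.Agent.Helper7_MWL.KEY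
import Pool.Agent.Helper80_MWA.CNP
import Pool.Agent.Helper81_MWA.FPD
import Pool.Agent.Helper81_MWA.RQ7
import Pool.Agent.Helper81_MWC.CBA
import Pool.Agent.Helper81_MWC.CBC
import Pool.Agent.Helper85_MWA.CMN
import Pool.Agent.Helper85_MWA.HAP
import Pool.Agent.Helper85_MWA.NRQ
import Pool.Agent.Helper85_MWA.RDQ
import Pool.Agent.Helper85_MWA.RQ4
import Pool.Agent.Helper88_MWL.PRM
import Pool.Agent.Helper89_MWA.TYQ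
import Pool.Agent.Helper90_MWL.CLO
import Pool.Agent.Helper91_MVO.NFA
import Pool.Agent.Helper92_MVO.SWA
import Pool.Agent.Helper92_MWA.RQ5
import Pool.Agent.Helper94_MWA.SPQ
import Pool.Agent.Helper95_MWC.BTL
import Pool.Agent.Helper95_MWL.REV
import Pool.Agent.Helper97_MVO.GAA
import Pool.Agent.Helper97_MWC.SHF
import Pool.Agent.Helper97_MWL.ARR
import Pool.Agent.Helper98_MWA.RP2
import Pool.Agent.Helper98_MWC.SPG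
import Pool.Agent.Helper99_MWA.OLQ
import Pool.Agent.Helper9_MVO.GTN

/-!
# All rows used by theorem S2 (MP_23468a_al)
-/

set_option autoImplicit false

namespace Pool.Agent.MWZ.H28.Rows

theorem mwl_trn : Pool.Agent.MWL.TrnStmt :=
  Pool.Agent.MWL.H77.trn 

theorem mwa_hap : Pool.Agent.MWA.HapStmt :=
  Pool.Agent.MWA.H85.hap mwl_trn

theorem mwa_cnp : Pool.Agent.MWA.CnpStmt :=
  Pool.Agent.MWA.H80.cnp mwl_trn mwa_hap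

theorem mvo_fma : Pool.Agent.MVO.FmaStmt :=
  Pool.Agent.MVO.H28.fma 

theorem mvo_nfa : Pool.Agent.MVO.NfaStmt :=
  Pool.Agent.MVO.H91.nfa mvo_fma

theorem mwa_tnf : Pool.Agent.MWA.TnfStmt :=
  Pool.Agent.MWA.H22.tnf mvo_nfa

theorem mwa_w2r : Pool.Agent.MWA.W2rStmt :=
  Pool.Agent.MWA.H37.w2r mwa_tnf

theorem mwa_w2x : Pool.Agent.MWA.W2xStmt :=
  Pool.Agent.MWA.H74.w2x mwa_w2r

theorem mwa_cne : Pool.Agent.MWA.CneStmt :=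
  Pool.Agent.MWA.H7.cne mwa_w2x

theorem mwa_gw2 : Pool.Agent.MWA.Gw2Stmt :=
  Pool.Agent.MWA.H75.gw2 mwa_tnf

theorem mvo_faa : Pool.Agent.MVO.FaaStmt :=
  Pool.Agent.MVO.H35.faa mvo_nfa

theorem mwa_btp : Pool.Agent.MWA.BtpStmt :=
  Pool.Agent.MWA.H37.btp mvo_faa mwa_w2r

theorem mwa_cpn : Pool.Agent.MWA.CpnStmt :=
  Pool.Agent.MWA.H75.cpn mwa_gw2 mwa_btp

theorem mvo_one : Pool.Agent.MVO.OneStmt :=
  Pool.Agent.MVO.H5.one 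

theorem mvo_gaa : Pool.Agent.MVO.GaaStmt :=
  Pool.Agent.MVO.H97.gaa mvo_nfa

theorem mvo_aln : Pool.Agent.MVO.AlnStmt :=
  Pool.Agent.MVO.H60.aln 

theorem mwa_tyq : Pool.Agent.MWA.TyqStmt :=
  Pool.Agent.MWA.H89Q.tyq mvo_gaa mvo_aln

theorem mvo_swa : Pool.Agent.MVO.SwaStmt :=
  Pool.Agent.Helper92_MVO.swa mvo_nfa

theorem mvo_bub : Pool.Agent.MVO.BubStmt :=
  Pool.Agent.MVO.H10.bub 

theorem mwa_orq : Pool.Agent.MWA.OrqStmt :=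
  Pool.Agent.MWA.H43.orq mvo_swa mvo_bub mwa_w2x mwa_btp

theorem mwa_d2q : Pool.Agent.MWA.D2qStmt :=
  Pool.Agent.MWA.H36Q.d2q mvo_one mwa_tyq mwa_orq

theorem mwa_nrq : Pool.Agent.MWA.NrqStmt :=
  Pool.Agent.MWA.H85.nrq 

theorem mwa_chq : Pool.Agent.MWA.ChqStmt :=
  Pool.Agent.MWA.H45.chq mwa_nrq

theorem mwa_olq : Pool.Agent.MWA.OlqStmt :=
  Pool.Agent.MWA.H99.olq mvo_one mwa_chq

theorem mws_chk : Pool.Agent.MWS.ChkStmt :=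
  Pool.Agent.MWS.H37.chk 

theorem mwa_btf : Pool.Agent.MWA.BtfStmt :=
  Pool.Agent.MWA.H13.btf mws_chk

theorem mwa_spm : Pool.Agent.MWA.SpmStmt :=
  Pool.Agent.MWA.H1.spm 

theorem mwa_btu : Pool.Agent.MWA.BtuStmt :=
  Pool.Agent.MWA.H10.btu mvo_faa mwa_spm

theorem mwa_btr : Pool.Agent.MWA.BtrStmt :=
  Pool.Agent.MWA.H53.btr mwa_hap mwa_btf mwa_btu

theorem mwa_spq : Pool.Agent.MWA.SpqStmt :=
  Pool.Agent.MWA.H94Q.spq mwl_trn mvo_one mwa_chq mwa_hap mwa_gw2 mwa_w2x mwa_btf mwa_btp mwa_btr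

theorem mwa_jpq : Pool.Agent.MWA.JpqStmt :=
  Pool.Agent.MWA.H51P.jpq mwl_trn mwa_hap mwa_btf mwa_btp mwa_btu mwa_spq

theorem mwa_mjq : Pool.Agent.MWA.MjqStmt :=
  Pool.Agent.MWA.H23.mjq mwa_olq mwa_jpq mwa_gw2 mwa_w2r mwa_w2x mwa_btf

theorem mws_tlp : Pool.Agent.MWS.TlpStmt :=
  Pool.Agent.MWS.H13.tlp 

theorem mvo_ren : Pool.Agent.MVO.RenStmt :=
  Pool.Agent.MVO.H38.ren 

theorem mwa_blq : Pool.Agent.MWA.BlqStmt :=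
  Pool.Agent.MWA.H39.blq mvo_ren mwa_nrq

theorem mwa_mux : Pool.Agent.MWA.MuxStmt :=
  Pool.Agent.MWA.H53.mux 

theorem mvo_com : Pool.Agent.MVO.ComStmt :=
  Pool.Agent.MVO.H31.com 

theorem mwa_cmn : Pool.Agent.MWA.CmnStmt :=
  Pool.Agent.MWA.H85.cmn mvo_com

theorem mwa_od1 : Pool.Agent.MWA.Od1Stmt :=
  Pool.Agent.MWA.H49.od1 

theorem mwa_dga : Pool.Agent.MWA.DgaStmt :=
  Pool.Agent.MWA.H49.dga mwa_cmn mwa_od1

theorem mwa_muy : Pool.Agent.MWA.MuyStmt :=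
  Pool.Agent.MWA.H64.muy mwa_mux

theorem mwa_dgb : Pool.Agent.MWA.DgbStmt :=
  Pool.Agent.MWA.H43.dgb mwa_hap mwa_cmn mwa_mux mwa_muy

theorem mwa_dgp : Pool.Agent.MWA.DgpStmt :=
  Pool.Agent.MWA.H75.dgp mwa_mux mwa_dga mwa_dgb

theorem mws_gld : Pool.Agent.MWS.GldStmt :=
  Pool.Agent.MWS.H27.gld 

theorem mwa_sfq : Pool.Agent.MWA.SfqStmt :=
  Pool.Agent.MWA.H3.sfq mwa_cpn mwa_d2q mwa_mjq mws_tlp mwa_blq mwa_dgp mws_gld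

theorem mwl_hvp : Pool.Agent.MWL.HvpStmt :=
  Pool.Agent.MWL.H54.hvp 

theorem mwl_abs : Pool.Agent.MWL.AbsStmt :=
  Pool.Agent.MWL.H22.abs mwl_trn mwl_hvp

theorem mwl_key : Pool.Agent.MWL.KeyStmt :=
  Pool.Agent.MWL.H7.key mwl_trn mwl_hvp mwl_abs

theorem mwl_dmx : Pool.Agent.MWL.DmxStmt :=
  Pool.Agent.MWL.H51.dmx mwl_hvp

theorem mwl_arr : Pool.Agent.MWL.ArrStmt :=
  Pool.Agent.MWL.H97.arr mwl_trn mwl_hvp mwl_abs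

theorem mwl_ta1 : Pool.Agent.MWL.Ta1Stmt :=
  Pool.Agent.MWL.H75.ta1 mwl_trn mwl_hvp mwl_abs mwl_arr

theorem mwl_ta2 : Pool.Agent.MWL.Ta2Stmt :=
  Pool.Agent.MWL.H19.ta2 mwl_trn mwl_hvp mwl_abs mwl_arr mwl_ta1

theorem mwl_tab : Pool.Agent.MWL.TabStmt :=
  Pool.Agent.MWL.H52.tab mwl_hvp mwl_ta1 mwl_ta2

theorem mwl_rmv : Pool.Agent.MWL.RmvStmt :=
  Pool.Agent.MWL.H45.rmv mwl_hvp

theorem mwl_clo : Pool.Agent.MWL.CloStmt :=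
  Pool.Agent.MWL.H90.clo mwl_trn mwl_hvp mwl_abs mwl_rmv

theorem mwl_flb : Pool.Agent.MWL.FlbStmt :=
  Pool.Agent.MWL.H15.flb mwl_key mwl_trn mwl_tab mwl_rmv mwl_clo

theorem mwl_prm : Pool.Agent.MWL.PrmStmt :=
  Pool.Agent.MWL.H88.prm mwl_hvp mwl_arr mwl_ta1 mwl_ta2

theorem mwl_jpr : Pool.Agent.MWL.JprStmt :=
  Pool.Agent.MWL.H3.jpr mwl_trn mwl_hvp mwl_abs mwl_key mwl_prm

theorem mwl_jfc : Pool.Agent.MWL.JfcStmt :=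
  Pool.Agent.MWL.H69.jfc mwl_rmv

theorem mwl_law : Pool.Agent.MWL.LawStmt :=
  Pool.Agent.MWL.H34.law mwl_dmx mwl_flb mwl_jpr mwl_jfc

theorem mwl_ndf : Pool.Agent.MWL.NdfStmt :=
  Pool.Agent.MWL.H30.ndf 

theorem mwa_ndq : Pool.Agent.MWA.NdqStmt :=
  Pool.Agent.MWA.H23.ndq mwl_ndf

theorem mwa_orn : Pool.Agent.MWA.OrnStmt :=
  Pool.Agent.MWA.H24.orn mwl_key mwl_law mwa_ndq

theorem mwa_abp : Pool.Agent.MWA.AbpStmt :=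
  Pool.Agent.MWA.H6.abp mwl_trn

theorem mwa_hrp : Pool.Agent.MWA.HrpStmt :=
  Pool.Agent.MWA.H30.hrp mwl_trn

theorem mwa_lgp : Pool.Agent.MWA.LgpStmt :=
  Pool.Agent.MWA.H59.lgp mwa_hap mwa_abp

theorem mwa_rcp : Pool.Agent.MWA.RcpStmt :=
  Pool.Agent.MWA.H69P.rcp mwl_trn mwa_hap mwa_hrp mwa_lgp mwa_btf mwa_btp

theorem mwa_rp1 : Pool.Agent.MWA.Rp1Stmt :=
  Pool.Agent.MWA.H47.rp1 mwl_trn mwa_abp mwa_rcp

theorem mwa_use : Pool.Agent.MWA.UseStmt :=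
  Pool.Agent.MWA.H5.use mwa_btu

theorem mwa_eqp : Pool.Agent.MWA.EqpStmt :=
  Pool.Agent.MWA.H45.eqp mwa_btu mwa_btr

theorem mwa_rp2 : Pool.Agent.MWA.Rp2Stmt :=
  Pool.Agent.MWA.H98.rp2 mwl_trn mwa_use mwa_btf mwa_btp mwa_eqp mwa_rcp

theorem mwa_rp3 : Pool.Agent.MWA.Rp3Stmt :=
  Pool.Agent.MWA.H59.rp3 mwa_hap mwa_hrp mwa_use mwa_btf mwa_btp

theorem mwa_mvp : Pool.Agent.MWA.MvpStmt :=
  Pool.Agent.MWA.H16.mvp mwl_trn mwa_hap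

theorem mwa_rp4 : Pool.Agent.MWA.Rp4Stmt :=
  Pool.Agent.MWA.H26.rp4 mwl_trn mwa_use mwa_abp mwa_btf mwa_btp mwa_mvp mwa_eqp mwa_rcp

theorem mwa_fpr : Pool.Agent.MWA.FprStmt :=
  Pool.Agent.MWA.H7.fpr mwa_sfq mwa_cpn mwa_orn mwa_rp1 mwa_rp2 mwa_rp3 mwa_rp4

theorem mwl_rev : Pool.Agent.MWL.RevStmt :=
  Pool.Agent.MWL.H95.rev 

theorem mwa_odn : Pool.Agent.MWA.OdnStmt :=
  Pool.Agent.MWA.H46.odn mwl_key mwl_law mwl_rev mwa_ndq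

theorem mwa_rdp : Pool.Agent.MWA.RdpStmt :=
  Pool.Agent.MWA.H13.rdp mwa_use mwa_btp

theorem mwa_ppq : Pool.Agent.MWA.PpqStmt :=
  Pool.Agent.MWA.H2.ppq mwa_use mwa_btf mwa_btp

theorem mwa_lsp : Pool.Agent.MWA.LspStmt :=
  Pool.Agent.MWA.H2.lsp mwl_trn mwa_hap mwa_lgp

theorem mwa_rdq : Pool.Agent.MWA.RdqStmt :=
  Pool.Agent.MWA.H85.rdq mwa_lgp mwa_rdp mwa_btf mwa_ppq mwa_lsp

theorem mwa_rq3 : Pool.Agent.MWA.Rq3Stmt :=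
  Pool.Agent.MWA.H19.rq3 mwa_hap mwa_use mwa_btf mwa_btp mwa_eqp mwa_rdq

theorem mwa_hdp : Pool.Agent.MWA.HdpStmt :=
  Pool.Agent.MWA.H14.hdp mwl_trn

theorem mwa_rq4 : Pool.Agent.MWA.Rq4Stmt :=
  Pool.Agent.MWA.H85.rq4 mwl_trn mwa_use mwa_abp mwa_btf mwa_btp mwa_hdp mwa_mvp mwa_eqp mwa_rdq

theorem mwa_rq5 : Pool.Agent.MWA.Rq5Stmt :=
  Pool.Agent.MWA.H92.rq5 mwl_trn mwa_hap mwa_use mwa_abp mwa_btf mwa_btp mwa_lgp mwa_ppq mwa_lsp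

theorem mwa_rq7 : Pool.Agent.MWA.Rq7Stmt :=
  Pool.Agent.MWA.H81.rq7 mwa_hap mwa_btu mwa_use mwa_btf mwa_btp mwa_btr mwa_rdp

theorem mwa_fpd : Pool.Agent.MWA.FpdStmt :=
  Pool.Agent.MWA.H81.fpd mwa_sfq mwa_cpn mwa_odn mwa_rq3 mwa_rq4 mwa_rq5 mwa_rq7

theorem mwc_arb : Pool.Agent.MWC.ArbStmt :=
  Pool.Agent.MWC.H74.arb mwl_arr mwl_rev

theorem mwc_kyr : Pool.Agent.MWC.KyrStmt :=
  Pool.Agent.MWC.H30.kyr mwl_trn mwl_key mwl_abs mwl_rev mwl_ndf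

theorem mwc_tbr : Pool.Agent.MWC.TbrStmt :=
  Pool.Agent.MWC.H70.tbr mwl_trn mwl_hvp mwl_ta1 mwl_ta2 mwl_rev

theorem mwc_shf : Pool.Agent.MWC.ShfStmt :=
  Pool.Agent.MWC.H97.shf 

theorem mwc_tyc : Pool.Agent.MWC.TycStmt :=
  Pool.Agent.MWC.H62.tyc mvo_faa mwc_kyr mwc_tbr mwc_shf

theorem mwc_bmn : Pool.Agent.MWC.BmnStmt :=
  Pool.Agent.MWC.H37.bmn mvo_faa mwc_kyr mwc_shf

theorem mwc_btl : Pool.Agent.MWC.BtlStmt :=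
  Pool.Agent.MWC.H95.btl mvo_faa mwc_bmn mwc_shf

theorem mvo_rga : Pool.Agent.MVO.RgaStmt :=
  Pool.Agent.MVO.H35.rga mvo_nfa

theorem mvo_gtn : Pool.Agent.MVO.GtnStmt :=
  Pool.Agent.MVO.H9.gtn 

theorem mwc_wbi : Pool.Agent.MWC.WbiStmt :=
  Pool.Agent.MWC.H74.wbi 

theorem mwc_lni : Pool.Agent.MWC.LniStmt :=
  Pool.Agent.MWC.H74.lni mwc_wbi

theorem mwc_gti : Pool.Agent.MWC.GtiStmt :=
  Pool.Agent.MWC.H33.gti mwc_wbi mvo_nfa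

theorem mwc_spg : Pool.Agent.MWC.SpgStmt :=
  Pool.Agent.MWC.H98.spg 

theorem mwc_kpg : Pool.Agent.MWC.KpgStmt :=
  Pool.Agent.MWC.H77.kpg 

theorem mwc_bmp : Pool.Agent.MWC.BmpStmt :=
  Pool.Agent.MWC.H2.bmp 

theorem mwc_clr : Pool.Agent.MWC.ClrStmt :=
  Pool.Agent.MWC.H33.clr mwc_kyr mwc_tbr mwc_shf

theorem mwc_kpr : Pool.Agent.MWC.KprStmt :=
  Pool.Agent.MWC.H62.kpr mwc_shf mwc_bmp

theorem mwc_spr : Pool.Agent.MWC.SprStmt :=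
  Pool.Agent.MWC.H45.spr mwc_shf mwc_bmp

theorem mwc_bel : Pool.Agent.MWC.BelStmt :=
  Pool.Agent.MWC.H77.bel mwc_shf mwc_bmp mwc_bmn mvo_faa

theorem mwc_mst : Pool.Agent.MWC.MstStmt :=
  Pool.Agent.MWC.H65M.mst mwl_trn mvo_gaa mvo_rga mvo_gtn mwc_lni mwc_gti mwc_spg mwc_kpg mwc_shf mwc_bmp mwc_clr mwc_kpr mwc_spr mwc_bel

theorem mwc_cr0 : Pool.Agent.MWC.Cr0Stmt :=
  Pool.Agent.MWC.H47.cr0 mwc_arb mwc_tyc mwc_btl mwc_mst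

theorem mwc_caa : Pool.Agent.MWC.CaaStmt :=
  Pool.Agent.MWC.H37.caa mwc_arb mwc_tyc mwc_btl mwc_mst

theorem mwc_cab : Pool.Agent.MWC.CabStmt :=
  Pool.Agent.MWC.H51.cab mwc_arb mwc_tyc mwc_btl mwc_mst

theorem mwc_cln : Pool.Agent.MWC.ClnStmt :=
  Pool.Agent.MWC.H25.cln mwc_kyr mwc_tbr mwc_arb mwl_trn mvo_faa

theorem mwc_nra : Pool.Agent.MWC.NraStmt :=
  Pool.Agent.MWC.H74.nra mwc_cr0 mwc_caa mwc_cab mwc_cln

theorem mwc_cba : Pool.Agent.MWC.CbaStmt :=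
  Pool.Agent.MWC.H81.cba mwc_arb mwc_tyc mwc_btl mwc_mst mwc_cr0

theorem mwc_cbb : Pool.Agent.MWC.CbbStmt :=
  Pool.Agent.MWC.H62.cbb mwc_arb mwc_tyc mwc_btl mwc_mst

theorem mwc_cbc : Pool.Agent.MWC.CbcStmt :=
  Pool.Agent.MWC.H81.cbc mwc_arb mwc_tyc mwc_btl mwc_mst

theorem mwc_cbd : Pool.Agent.MWC.CbdStmt :=
  Pool.Agent.MWC.H69.cbd mwc_arb mwc_tyc mwc_btl mwc_mst

theorem mwc_nda : Pool.Agent.MWC.NdaStmt :=
  Pool.Agent.MWC.H15.nda mwc_cr0 mwc_cba mwc_cbb mwc_cbc mwc_cbd mwc_cln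

end Pool.Agent.MWZ.H28.Rows
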