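import Pool.Agent.Helper17_MWN.NHB
import Pool.Agent.Helper19_MWL.TA2
import Pool.Agent.Helper19_MWN.N2X
import Pool.Agent.Helper21_MWN.N3C
import Pool.Agent.Helper22_MWL.ABS
import Pool.Agent.Helper23_MWS.NDN
import Pool.Agent.Helper24_MWN.N3B
import Pool.Agent.Helper24_MWN.N4C
import Pool.Agent.Helper24_MWN.NCL
import Pool.Agent.Helper25_MWN.N5X
import Pool.Agent.Helper26_MWN.N4B
import Pool.Agent.Helper30_MWL.NDF
import Pool.Agent.Helper30_MWN.N4E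
import Pool.Agent.Helper30_MWN.NCT
import Pool.Agent.Helper33_MWN.NCX
import Pool.Agent.Helper37_MWS.CHK
import Pool.Agent.Helper39_MWN.NGM
import Pool.Agent.Helper3_MWN.NTB
import Pool.Agent.Helper41_MWN.NPH
import Pool.Agent.Helper42_MWN.NCO
import Pool.Agent.Helper42_MWN.NKA
import Pool.Agent.Helper47_MWN.NEX
import Pool.Agent.Helper49_MWN.N3A
import Pool.Agent.Helper49_MWN.N4A
import Pool.Agent.Helper49_MWN.NHF
import Pool.Agent.Helper53_MWN.NIS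
import Pool.Agent.Helper54_MWL.HVP
import Pool.Agent.Helper5_MVO.ONE
import Pool.Agent.Helper62_MWN.NPE
import Pool.Agent.Helper66_MWN.N1A
import Pool.Agent.Helper66_MWN.N3D
import Pool.Agent.Helper66_MWN.NDD
import Pool.Agent.Helper67_MWN.N1B
import Pool.Agent.Helper73_MWN.NH3
import Pool.Agent.Helper75_MWL.TA1
import Pool.Agent.Helper75_MWN.NIB
import Pool.Agent.Helper77_MWL.TRN
import Pool.Agent.Helper77_MWN.NIN
import Pool.Agent.Helper77_MWS.CAP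
import Pool.Agent.Helper7_MWL.KEY
import Pool.Agent.Helper80_MWN.NDC
import Pool.Agent.Helper80_MWN.NH8
import Pool.Agent.Helper85_MWN.NGA
import Pool.Agent.Helper88_MWN.NBF
import Pool.Agent.Helper8_MWS.LRN
import Pool.Agent.Helper95_MWN.N4D
import Pool.Agent.Helper95_MWN.NVG
import Pool.Agent.Helper97_MWL.ARR
import Pool.Agent.Helper97_MWN.NSB
import Pool.Agent.Helper99_MWN.NKC

/-!
# All rows used by the necessity in the LR world, n = 1 (MP_23468a_al)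
-/

set_option autoImplicit false

namespace Pool.Agent.MWZ.H28.RowsN

theorem mwn_ndd : Pool.Agent.MWN.NddStmt :=
  Pool.Agent.MWN.H66.ndd 

theorem mwn_ndc : Pool.Agent.MWN.NdcStmt :=
  Pool.Agent.MWN.H80.ndc 

theorem mwn_nct : Pool.Agent.MWN.NctStmt :=
  Pool.Agent.MWN.H30.nct 

theorem mwn_nin : Pool.Agent.MWN.NinStmt :=
  Pool.Agent.MWN.H77.nin mwn_ndc mwn_nct

theorem mwn_nkc : Pool.Agent.MWN.NkcStmt :=
  Pool.Agent.MWN.H99.nkc mwn_ndc mwn_nct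

theorem mwn_nsb : Pool.Agent.MWN.NsbStmt :=
  Pool.Agent.MWN.H97.nsb 

theorem mwn_nka : Pool.Agent.MWN.NkaStmt :=
  Pool.Agent.MWN.H42.nka mwn_ndc mwn_nct mwn_nkc mwn_nsb

theorem mvo_one : Pool.Agent.MVO.OneStmt :=
  Pool.Agent.MVO.H5.one 

theorem mwn_nbf : Pool.Agent.MWN.NbfStmt :=
  Pool.Agent.MWN.H88.nbf 

theorem mwn_nvg : Pool.Agent.MWN.NvgStmt :=
  Pool.Agent.MWN.H95.nvg mvo_one mwn_nbf

theorem mws_chk : Pool.Agent.MWS.ChkStmt :=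
  Pool.Agent.MWS.H37.chk 

theorem mwn_nga : Pool.Agent.MWN.NgaStmt :=
  Pool.Agent.MWN.H85.nga 

theorem mwn_ngm : Pool.Agent.MWN.NgmStmt :=
  Pool.Agent.MWN.H39.ngm mvo_one mwn_nbf

theorem mwn_npe : Pool.Agent.MWN.NpeStmt :=
  Pool.Agent.MWN.H62.npe mws_chk mwn_nga mwn_ngm

theorem mwn_nib : Pool.Agent.MWN.NibStmt :=
  Pool.Agent.MWN.H75.nib 

theorem mws_cap : Pool.Agent.MWS.CapStmt :=
  Pool.Agent.MWS.H77.cap 

theorem mwl_ndf : Pool.Agent.MWL.NdfStmt :=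
  Pool.Agent.MWL.H30.ndf 

theorem mws_ndn : Pool.Agent.MWS.NdnStmt :=
  Pool.Agent.MWS.H23.ndn mwl_ndf mws_cap

theorem mws_lrn : Pool.Agent.MWS.LrnStmt :=
  Pool.Agent.MWS.H8.lrn 

theorem mwn_nhb : Pool.Agent.MWN.NhbStmt :=
  Pool.Agent.MWN.H17.nhb mws_cap mws_ndn mws_lrn

theorem mwn_nex : Pool.Agent.MWN.NexStmt :=
  Pool.Agent.MWN.H47.nex 

theorem mwn_nph : Pool.Agent.MWN.NphStmt :=
  Pool.Agent.MWN.H41.nph mwn_nin mwn_nka mwn_nvg mwn_npe mwn_nib mwn_nhb mwn_nex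

theorem mwl_trn : Pool.Agent.MWL.TrnStmt :=
  Pool.Agent.MWL.H77.trn 

theorem mwl_hvp : Pool.Agent.MWL.HvpStmt :=
  Pool.Agent.MWL.H54.hvp 

theorem mwl_abs : Pool.Agent.MWL.AbsStmt :=
  Pool.Agent.MWL.H22.abs mwl_trn mwl_hvp

theorem mwl_key : Pool.Agent.MWL.KeyStmt :=
  Pool.Agent.MWL.H7.key mwl_trn mwl_hvp mwl_abs

theorem mwl_arr : Pool.Agent.MWL.ArrStmt :=
  Pool.Agent.MWL.H97.arr mwl_trn mwl_hvp mwl_abs

theorem mwl_ta1 : Pool.Agent.MWL.Ta1Stmt :=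
  Pool.Agent.MWL.H75.ta1 mwl_trn mwl_hvp mwl_abs mwl_arr

theorem mwl_ta2 : Pool.Agent.MWL.Ta2Stmt :=
  Pool.Agent.MWL.H19.ta2 mwl_trn mwl_hvp mwl_abs mwl_arr mwl_ta1

theorem mwn_ntb : Pool.Agent.MWN.NtbStmt :=
  Pool.Agent.MWN.H3.ntb mwl_hvp mwl_ta1 mwl_ta2

theorem mwn_ncl : Pool.Agent.MWN.NclStmt :=
  Pool.Agent.MWN.H24.ncl mwl_trn mwl_key mwn_ntb

theorem mwn_ncx : Pool.Agent.MWN.NcxStmt :=
  Pool.Agent.MWN.H33.ncx mwn_ncl mwn_nhb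

theorem mwn_nis : Pool.Agent.MWN.NisStmt :=
  Pool.Agent.MWN.H53.nis mwl_abs mwl_trn mws_chk mwn_nhb

theorem mwn_nco : Pool.Agent.MWN.NcoStmt :=
  Pool.Agent.MWN.H42.Nco.nco mwl_abs mwl_trn mwn_nhb mwn_nis

theorem mwn_n1a : Pool.Agent.MWN.N1aStmt :=
  Pool.Agent.MWN.H66A.n1a mwn_nph mwn_ncx mwn_nco

theorem mwn_n1b : Pool.Agent.MWN.N1bStmt :=
  Pool.Agent.MWN.H67.n1b mwn_nph mwn_ncx mwn_nco mwn_ndd

theorem mwn_n5x : Pool.Agent.MWN.N5xStmt :=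
  Pool.Agent.MWN.H25.n5x mwn_nph mwn_ncx mwn_nco mwl_arr

theorem mwn_n2x : Pool.Agent.MWN.N2xStmt :=
  Pool.Agent.MWN.H19.n2x mwn_nph mwn_ncx mwn_nco

theorem mwn_n3a : Pool.Agent.MWN.N3aStmt :=
  Pool.Agent.MWN.H49.n3a mwn_nph mwn_ncx mwn_nco mwl_arr

theorem mwn_n3b : Pool.Agent.MWN.N3bStmt :=
  Pool.Agent.MWN.H24.n3b mwn_nph mwn_ncx mwl_arr

theorem mwn_n3c : Pool.Agent.MWN.N3cStmt :=
  Pool.Agent.MWN.H21.n3c mwn_nph mwn_ncx mwn_nco mwl_arr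

theorem mwn_n3d : Pool.Agent.MWN.N3dStmt :=
  Pool.Agent.MWN.H66D.n3d mwn_nph mwn_ncx mwn_nco mwl_arr

theorem mwn_nh8 : Pool.Agent.MWN.Nh8Stmt :=
  Pool.Agent.MWN.H80.nh8 mwn_n1a mwn_n2x mwn_n3a mwn_n3b mwn_n3c mwn_n3d

theorem mwn_n4a : Pool.Agent.MWN.N4aStmt :=
  Pool.Agent.MWN.H49.n4a mwn_nph mwn_ncx mwn_nco mwn_ndd mwl_arr

theorem mwn_n4b : Pool.Agent.MWN.N4bStmt :=
  Pool.Agent.MWN.H26.n4b mwn_nph mwn_ncx mwn_nco mwn_ndd mwl_arr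

theorem mwn_n4c : Pool.Agent.MWN.N4cStmt :=
  Pool.Agent.MWN.H24.n4c mwn_nph mwn_ncx mwn_nco mwn_ndd mwl_arr

theorem mwn_n4d : Pool.Agent.MWN.N4dStmt :=
  Pool.Agent.MWN.H95D.n4d mwn_nph mwn_ncx mwn_nco

theorem mwn_n4e : Pool.Agent.MWN.N4eStmt :=
  Pool.Agent.MWN.H30E.n4e mwn_nph mwn_ncx mwn_nco

theorem mwn_nh3 : Pool.Agent.MWN.Nh3Stmt :=
  Pool.Agent.MWN.H73.nh3 mwn_n4a mwn_n4b mwn_n4c mwn_n4d mwn_n4e

theorem mwn_nhf : Pool.Agent.MWN.NhfStmt :=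
  Pool.Agent.MWN.H49.nhf mwn_ndd mwn_n1a mwn_n1b mwn_n5x mwn_nh8 mwn_nh3

end Pool.Agent.MWZ.H28.RowsN
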