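import Pool.Agent.Helper28_MWZ.Bridge

/-!
# The literal systems of the gamma world for period one (MP_23468a_al)
-/

set_option autoImplicit false

namespace Pool.Agent.MWZ

open Pool.Agent.Helper14_MV Pool.Agent.Helper2_MV Pool.Agent.MVO

/-- the systems with `xyx ≈ xyx^(n+1)` (used for `n = 1`): `x²y² ≈ y²x²`, and `x²y ≈ x²yx` or the base -/
def SGam : MWU.Sy := fun n S =>
  MWU.Gam n S ∧ R0 S ∧ (S [0, 0, 1] [0, 0, 1, 0] ∨ BaseH n S)

namespace H28

theorem sgam_per : ∀ β : FIC, SGam 1 (RR β) → Per 1 (RR β) := by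
  rintro β ⟨h, -⟩
  have h1 := RR.sub (fun c => if c = 1 then [] else [c]) h
  exact h1

end H28

end Pool.Agent.MWZ
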